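import Mathlib
import Pool.Agent.V11104.SM.Main

set_option autoImplicit false

/-!
Shifted moments over a set on which no block of primes is large, for one height.
-/

namespace Pool.Agent.V11104.MM

open Finset Filter Topology MeasureTheory
open Pool.Agent.W184.NZ (bb II vI Rg mem_II bb_pos log_bb bb_le II_disj PF mem_PF sum_II)
open Pool.Agent.V11104.SM

/-- the upper bound for the shifted moments, for one height -/
theorem core {c : ℝ} {J : ℝ → ℕ} (hJ : ∀ y, 144 ≤ y → Rg c (J y) (II y) (bb y) ∧ bb y (J y) < 144)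
    {m n Rs : ℕ} (hn : 1 ≤ n) (hRs : 1 ≤ Rs) {B W C₄ T H y : ℝ} (hmB : m * B ≤ n) (hW : 0 ≤ W) (hC₄ : 0 ≤ C₄)
    (hT : 1 < T) (hH0 : 0 ≤ H)
    (heul : ∀ h : ℝ, |(∑ p ∈ PP y, (p : ℂ) ^ (-(1 + h * Complex.I))).re -
      Real.log ‖riemannZeta (1 + 1 / Real.log T + h * Complex.I)‖| ≤ C₄)
    (hy144 : 144 ≤ y) (hlen : Real.exp (108 * n * (Rs + 1) * Real.log y) ≤ H)
    {h k : Fin m → ℝ} (hk : ∀ l, |k l| ≤ B) {G : Set ℝ} (hG : MeasurableSet G) (hGsub : G ⊆ Set.Icc T (T + H))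
    (hdata : ∀ t ∈ G, ∀ l, riemannZeta (1 / 2 + ((t + h l : ℝ) : ℂ) * Complex.I) ≠ 0 ∧
        (∀ i < J y, ‖Z y 1 i (t + h l)‖ ≤ 2 * ((Rs:ℝ) + i)) ∧
        |Real.log ‖riemannZeta (1 / 2 + ((t + h l : ℝ) : ℂ) * Complex.I)‖ -
          ∑ i ∈ range (J y), (Z y 1 i (t + h l)).re| ≤ W) :
    IntegrableOn (FF h k) G ∧
      ∫ t in G, FF h k t ≤ Real.exp (2 * n * W) * 4 * 3 * Real.exp ((n:ℝ) ^ 2 * C₄) * H *
        ∏ l, ∏ l', ‖riemannZeta (1 + 1 / Real.log T + ((h l - h l' : ℝ) : ℂ) * Complex.I)‖ ^ (k l * k l') := by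
  set C₁ : ℝ := Real.exp (2 * n * W) with hC₁
  have hT0 : 0 < T := by linarith
  have hlT : 0 < Real.log T := Real.log_pos hT
  have hn1 : (1:ℝ) ≤ n := by exact_mod_cast hn
  have hy1 : 1 ≤ y := by linarith
  have hy0 : 0 ≤ y := by linarith
  obtain ⟨hRg, hbJ⟩ := hJ y hy144
  -- the Dirichlet polynomial
  set D : ℝ → ℂ := fun t => ∏ i ∈ range (J y), TE (Kd n Rs i) (Z y (cf h k) i t) with hD
  obtain ⟨hDc, hDm⟩ := mean_D hRg hy1 n Rs (cf h k) T hH0
  have hsumk : ∑ l, |k l| ≤ n := by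
    calc ∑ l, |k l| ≤ ∑ _l : Fin m, B := sum_le_sum fun l _ => hk l
      _ = m * B := by simp
      _ ≤ n := hmB
  have point : ∀ t ∈ G, FF h k t ≤ C₁ * 4 * ‖D t‖ ^ 2 := by
    intro t ht
    have data := hdata t ht
    have hZ : ∀ i < J y, ‖Z y (cf h k) i t‖ ≤ n * (2 * (Rs + i)) := by
      intro i hi
      rw [Z_cf]
      calc ‖∑ l, (k l : ℂ) * Z y 1 i (t + h l)‖ ≤ ∑ l, |k l| * (2 * ((Rs:ℝ) + i)) := by
            refine norm_sum_le_of_le _ fun l _ => ?_
            rw [norm_mul, Complex.norm_real, Real.norm_eq_abs]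
            exact mul_le_mul_of_nonneg_left ((data l).2.1 i hi) (abs_nonneg _)
        _ = (∑ l, |k l|) * (2 * ((Rs:ℝ) + i)) := by rw [Finset.sum_mul]
        _ ≤ _ := mul_le_mul_of_nonneg_right hsumk (by positivity)
    have hmaj := majorant hn hRs hZ
    have e1 : ∑ i ∈ range (J y), (Z y (cf h k) i t).re =
        ∑ l, k l * ∑ i ∈ range (J y), (Z y 1 i (t + h l)).re := by
      simp_rw [Z_cf, Complex.re_sum, Complex.re_ofReal_mul, Finset.mul_sum]
      rw [Finset.sum_comm]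
    have e2 : FF h k t = Real.exp (∑ l, 2 * k l *
        Real.log ‖riemannZeta (1 / 2 + ((t + h l : ℝ) : ℂ) * Complex.I)‖) := by
      unfold FF
      rw [Real.exp_sum]
      refine prod_congr rfl fun l _ => ?_
      rw [Real.rpow_def_of_pos (norm_pos_iff.mpr (data l).1)]
      congr 1
      ring
    have e3 : ∑ l, 2 * k l * Real.log ‖riemannZeta (1 / 2 + ((t + h l : ℝ) : ℂ) * Complex.I)‖ ≤
        2 * n * W + 2 * ∑ i ∈ range (J y), (Z y (cf h k) i t).re := by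
      rw [e1, Finset.mul_sum]
      have h1 : ∀ l ∈ (univ : Finset (Fin m)),
          2 * k l * Real.log ‖riemannZeta (1 / 2 + ((t + h l : ℝ) : ℂ) * Complex.I)‖ ≤
          2 * |k l| * W + 2 * (k l * ∑ i ∈ range (J y), (Z y 1 i (t + h l)).re) := by
        intro l _
        have h2 := (data l).2.2
        have h3 : k l * (Real.log ‖riemannZeta (1 / 2 + ((t + h l : ℝ) : ℂ) * Complex.I)‖ -
            ∑ i ∈ range (J y), (Z y 1 i (t + h l)).re) ≤ |k l| * W := by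
          refine (le_abs_self _).trans ?_
          rw [abs_mul]
          exact mul_le_mul_of_nonneg_left h2 (abs_nonneg _)
        linarith
      refine (sum_le_sum h1).trans ?_
      rw [sum_add_distrib]
      have h4 : ∑ l, 2 * |k l| * W ≤ 2 * n * W := by
        rw [← Finset.sum_mul, ← Finset.mul_sum]
        gcongr
      linarith
    rw [e2]
    refine (Real.exp_le_exp.mpr e3).trans ?_
    rw [Real.exp_add, ← hC₁, mul_assoc]
    refine mul_le_mul_of_nonneg_left ?_ (Real.exp_pos _).le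
    have e4 : Real.exp (2 * ∑ i ∈ range (J y), (Z y (cf h k) i t).re) =
        (Real.exp (∑ i ∈ range (J y), (Z y (cf h k) i t).re)) ^ 2 := by
      rw [← Real.exp_nat_mul]; norm_num
    rw [e4]
    calc (Real.exp (∑ i ∈ range (J y), (Z y (cf h k) i t).re)) ^ 2 ≤ (2 * ‖D t‖) ^ 2 :=
          pow_le_pow_left₀ (Real.exp_pos _).le hmaj 2
      _ = 4 * ‖D t‖ ^ 2 := by ring
  -- integration
  have hcD : Continuous fun t => C₁ * 4 * ‖D t‖ ^ 2 := by
    have : Continuous D := hDc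
    fun_prop
  have hiD : IntegrableOn (fun t => C₁ * 4 * ‖D t‖ ^ 2) (Set.Icc T (T + H)) := hcD.continuousOn.integrableOn_Icc
  have hiF : IntegrableOn (FF h k) G := by
    refine Integrable.mono' (hiD.mono_set hGsub) (FF_meas h k).aestronglyMeasurable ?_
    refine (ae_restrict_iff' hG).mpr (Filter.Eventually.of_forall fun t ht => ?_)
    rw [Real.norm_of_nonneg (FF_nonneg h k t)]
    exact point t ht
  refine ⟨hiF, ?_⟩
  have i1 : ∫ t in G, FF h k t ≤ ∫ t in G, C₁ * 4 * ‖D t‖ ^ 2 :=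
    setIntegral_mono_on hiF (hiD.mono_set hGsub) hG fun t ht => point t ht
  have i2 : ∫ t in G, C₁ * 4 * ‖D t‖ ^ 2 ≤ ∫ t in Set.Icc T (T + H), C₁ * 4 * ‖D t‖ ^ 2 :=
    setIntegral_mono_set hiD (Filter.Eventually.of_forall fun t => by
      show (0:ℝ) ≤ C₁ * 4 * ‖D t‖ ^ 2
      positivity) hGsub.eventuallyLE
  have i3 : ∫ t in Set.Icc T (T + H), C₁ * 4 * ‖D t‖ ^ 2 = C₁ * 4 * ∫ t in T..(T + H), ‖D t‖ ^ 2 := by
    rw [integral_const_mul, intervalIntegral.integral_of_le (by linarith), integral_Icc_eq_integral_Ioc]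
  -- the length
  have hlen2 : (∏ i ∈ range (J y), (bb y i) ^ (Kd n Rs i)) ^ 2 ≤ H := by
    have h1 := len y hy1 n Rs (J y)
    have hb0 : 0 ≤ ∏ i ∈ range (J y), (bb y i) ^ (Kd n Rs i) := prod_nonneg fun i _ => by
      have := bb_pos y i
      positivity
    refine (pow_le_pow_left₀ hb0 h1 2).trans (le_trans (le_of_eq ?_) hlen)
    rw [← Real.exp_nat_mul]
    congr 1
    push_cast
    ring
  -- the exponent
  have hexp : ∑ i ∈ range (J y), ∑ p ∈ II y i, ‖cf h k p‖ ^ 2 / p ≤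
      (n:ℝ) ^ 2 * C₄ + ∑ l, ∑ l', k l * k l' *
        Real.log ‖riemannZeta (1 + 1 / Real.log T + ((h l - h l' : ℝ) : ℂ) * Complex.I)‖ := by
    rw [sum_II hy1 (fun p => ‖cf h k p‖ ^ 2 / p) (J y)]
    have hBA : PF y (bb y (J y)) ⊆ PP y := by
      intro p hp
      rw [mem_PF hy0] at hp
      exact (mem_PP hy0).mpr ⟨hp.1, hp.2.2.2⟩
    have h1 : ∑ p ∈ PF y (bb y (J y)), ‖cf h k p‖ ^ 2 / p ≤ ∑ p ∈ PP y, ‖cf h k p‖ ^ 2 / p :=
      sum_le_sum_of_subset_of_nonneg hBA fun _ _ _ => by positivity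
    refine h1.trans ?_
    have h2 : ∑ p ∈ PP y, ‖cf h k p‖ ^ 2 / p = ∑ l, ∑ l', k l * k l' *
        (∑ p ∈ PP y, (p : ℂ) ^ (-(1 + ((h l - h l' : ℝ) : ℂ) * Complex.I))).re := by
      rw [sum_congr rfl fun p hp => cf_sq h k ((mem_PP hy0).mp hp).1, Finset.sum_comm]
      refine sum_congr rfl fun l _ => ?_
      rw [Finset.sum_comm]
      refine sum_congr rfl fun l' _ => ?_
      rw [Complex.re_sum, Finset.mul_sum]
    rw [h2]
    have h3 : ∀ l ∈ (univ : Finset (Fin m)), ∀ l' ∈ (univ : Finset (Fin m)), k l * k l' *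
        (∑ p ∈ PP y, (p : ℂ) ^ (-(1 + ((h l - h l' : ℝ) : ℂ) * Complex.I))).re ≤
        |k l| * |k l'| * C₄ + k l * k l' *
          Real.log ‖riemannZeta (1 + 1 / Real.log T + ((h l - h l' : ℝ) : ℂ) * Complex.I)‖ := by
      intro l _ l' _
      have h4 := heul (h l - h l')
      have h5 : k l * k l' * ((∑ p ∈ PP y, (p : ℂ) ^ (-(1 + ((h l - h l' : ℝ) : ℂ) * Complex.I))).re -
          Real.log ‖riemannZeta (1 + 1 / Real.log T + ((h l - h l' : ℝ) : ℂ) * Complex.I)‖) ≤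
          |k l| * |k l'| * C₄ := by
        refine (le_abs_self _).trans ?_
        rw [abs_mul, abs_mul]
        exact mul_le_mul_of_nonneg_left h4 (by positivity)
      linarith
    refine (sum_le_sum fun l hl => sum_le_sum (h3 l hl)).trans ?_
    simp_rw [sum_add_distrib]
    refine add_le_add ?_ le_rfl
    have h6 : ∑ l, ∑ l', |k l| * |k l'| * C₄ = (∑ l, |k l|) ^ 2 * C₄ := by
      rw [sq, Finset.sum_mul_sum, Finset.sum_mul]
      refine sum_congr rfl fun l _ => ?_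
      rw [Finset.sum_mul]
    rw [h6]
    have h7 : 0 ≤ ∑ l, |k l| := sum_nonneg fun _ _ => abs_nonneg _
    gcongr
  have e5 : ∏ l, ∏ l', ‖riemannZeta (1 + 1 / Real.log T + ((h l - h l' : ℝ) : ℂ) * Complex.I)‖ ^ (k l * k l') =
      Real.exp (∑ l, ∑ l', k l * k l' *
        Real.log ‖riemannZeta (1 + 1 / Real.log T + ((h l - h l' : ℝ) : ℂ) * Complex.I)‖) := by
    rw [Real.exp_sum]
    refine prod_congr rfl fun l _ => ?_
    rw [Real.exp_sum]
    refine prod_congr rfl fun l' _ => ?_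
    have hz : riemannZeta (1 + 1 / Real.log T + ((h l - h l' : ℝ) : ℂ) * Complex.I) ≠ 0 := by
      refine riemannZeta_ne_zero_of_one_lt_re ?_
      have e : (1 + 1 / (Real.log T : ℂ) + ((h l - h l' : ℝ) : ℂ) * Complex.I).re = 1 + 1 / Real.log T := by
        have : (1 / (Real.log T : ℂ)) = ((1 / Real.log T : ℝ) : ℂ) := by push_cast; rfl
        rw [this]
        simp
      rw [e]
      have : 0 < 1 / Real.log T := by positivity
      linarith
    rw [Real.rpow_def_of_pos (norm_pos_iff.mpr hz)]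
    congr 1
    ring
  rw [e5]
  refine (i1.trans i2).trans ?_
  rw [i3]
  have i4 : ∫ t in T..(T + H), ‖D t‖ ^ 2 ≤ 3 * H * (Real.exp ((n:ℝ) ^ 2 * C₄) * Real.exp (∑ l, ∑ l', k l * k l' *
        Real.log ‖riemannZeta (1 + 1 / Real.log T + ((h l - h l' : ℝ) : ℂ) * Complex.I)‖)) := by
    refine hDm.trans ?_
    rw [← Real.exp_add]
    have hE := Real.exp_le_exp.mpr hexp
    refine mul_le_mul (by linarith) hE (Real.exp_pos _).le (by positivity)
  calc C₁ * 4 * ∫ t in T..(T + H), ‖D t‖ ^ 2 ≤ C₁ * 4 * (3 * H * (Real.exp ((n:ℝ) ^ 2 * C₄) *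
        Real.exp (∑ l, ∑ l', k l * k l' *
        Real.log ‖riemannZeta (1 + 1 / Real.log T + ((h l - h l' : ℝ) : ℂ) * Complex.I)‖))) :=
        mul_le_mul_of_nonneg_left i4 (by positivity)
    _ = _ := by ring

end Pool.Agent.V11104.MM
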