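import Mathlib

set_option autoImplicit false

/-!
Zeta near 1, and an integral.
-/

namespace Pool.Agent.V11104.MM

open Finset Filter Topology MeasureTheory
open scoped ENNReal

lemma half_norm (a w : ℝ) : (|a| + |w|) / 2 ≤ ‖(a : ℂ) + w * Complex.I‖ := by
  have h1 : |a| ≤ ‖(a : ℂ) + w * Complex.I‖ := by
    have := Complex.abs_re_le_norm ((a : ℂ) + w * Complex.I)
    simpa using this
  have h2 : |w| ≤ ‖(a : ℂ) + w * Complex.I‖ := by
    have := Complex.abs_im_le_norm ((a : ℂ) + w * Complex.I)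
    simpa using this
  linarith

/-- zeta near 1 -/
lemma zeta_near : ∃ C : ℝ, 1 ≤ C ∧ ∀ δ : ℝ, 0 < δ → δ ≤ 1 → ∀ w : ℝ, |w| ≤ 1 →
    ‖riemannZeta (1 + δ + w * Complex.I)‖ ≤ C / (δ + |w|) := by
  set F : ℂ → ℂ := Function.update (fun s => (s - 1) * riemannZeta s) 1 1 with hF
  have hFc : Continuous F := by
    rw [continuous_iff_continuousAt]
    intro s
    by_cases hs : s = 1
    · rw [hs, hF, continuousAt_update_same]
      exact riemannZeta_residue_one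
    · rw [hF, continuousAt_update_of_ne hs]
      exact (continuousAt_id.sub continuousAt_const).mul (differentiableAt_riemannZeta hs).continuousAt
  have hG : Continuous fun z : ℝ × ℝ => F (1 + z.1 + z.2 * Complex.I) := hFc.comp (by fun_prop)
  obtain ⟨C, hC⟩ := (isCompact_Icc (a := (0:ℝ)) (b := 1)).prod (isCompact_Icc (a := (-1:ℝ)) (b := 1))
    |>.exists_bound_of_continuousOn hG.continuousOn
  refine ⟨max 1 (2 * C), le_max_left _ _, fun δ hδ hδ1 w hw => ?_⟩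
  have h1 := hC (δ, w) ⟨⟨hδ.le, hδ1⟩, abs_le.mp hw⟩
  have hne : (1 + (δ:ℂ) + w * Complex.I) ≠ 1 := by
    intro h
    have := congrArg Complex.re h
    simp at this
    exact hδ.ne' this
  simp only [hF, Function.update_of_ne hne] at h1
  rw [norm_mul] at h1
  have h2 : (1 + (δ:ℂ) + w * Complex.I) - 1 = (δ:ℂ) + w * Complex.I := by ring
  rw [h2] at h1
  have h3 := half_norm δ w
  rw [abs_of_pos hδ] at h3
  have h4 : 0 < δ + |w| := by positivity
  rw [le_div_iff₀ h4]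
  have h5 : (δ + |w|) / 2 * ‖riemannZeta (1 + δ + w * Complex.I)‖ ≤ C :=
    (mul_le_mul_of_nonneg_right h3 (norm_nonneg _)).trans h1
  calc ‖riemannZeta (1 + δ + w * Complex.I)‖ * (δ + |w|) =
        2 * ((δ + |w|) / 2 * ‖riemannZeta (1 + δ + w * Complex.I)‖) := by ring
    _ ≤ 2 * C := by linarith
    _ ≤ _ := le_max_right _ _

/-- the integral of the bound -/
noncomputable def Iq (δ ρ : ℝ) : ℝ := 2 * ∫ x in δ..(δ + 1), x ^ (-ρ)

lemma int_b {δ : ℝ} (hδ : 0 < δ) (ρ : ℝ) {a : ℝ} (ha : a ∈ Set.Icc (0:ℝ) 1) :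
    ∫⁻ y in Set.Icc (0:ℝ) 1, ENNReal.ofReal ((δ + |a - y|) ^ (-ρ)) ≤ ENNReal.ofReal (Iq δ ρ) := by
  obtain ⟨ha0, ha1⟩ := ha
  have hc : Continuous fun y : ℝ => (δ + |a - y|) ^ (-ρ) := by
    refine Continuous.rpow_const (by fun_prop) fun y => Or.inl ?_
    have : 0 < δ + |a - y| := by positivity
    exact this.ne'
  have hco : ∀ u v : ℝ, 0 < u → 0 < v → IntervalIntegrable (fun x : ℝ => x ^ (-ρ)) volume u v := by
    intro u v hu hv
    refine ContinuousOn.intervalIntegrable fun x hx => ?_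
    have hx0 : 0 < x := lt_of_lt_of_le (lt_min hu hv) hx.1
    exact (Real.continuousAt_rpow_const x _ (Or.inl hx0.ne')).continuousWithinAt
  have h1 : ∫ y in Set.Icc (0:ℝ) 1, (δ + |a - y|) ^ (-ρ) ≤ Iq δ ρ := by
    rw [integral_Icc_eq_integral_Ioc, ← intervalIntegral.integral_of_le zero_le_one,
      ← intervalIntegral.integral_add_adjacent_intervals (hc.intervalIntegrable 0 a) (hc.intervalIntegrable a 1)]
    have e1 : ∫ y in (0:ℝ)..a, (δ + |a - y|) ^ (-ρ) = ∫ x in δ..(δ + a), x ^ (-ρ) := by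
      have h2 : ∫ y in (0:ℝ)..a, (δ + |a - y|) ^ (-ρ) = ∫ y in (0:ℝ)..a, ((δ + a) - y) ^ (-ρ) := by
        refine intervalIntegral.integral_congr fun y hy => ?_
        rw [Set.uIcc_of_le ha0] at hy
        rw [abs_of_nonneg (by linarith [hy.2])]
        congr 1
        ring
      rw [h2, intervalIntegral.integral_comp_sub_left (fun x => x ^ (-ρ)) (δ + a)]
      congr 1 <;> ring
    have e2 : ∫ y in a..(1:ℝ), (δ + |a - y|) ^ (-ρ) = ∫ x in δ..(δ + (1 - a)), x ^ (-ρ) := by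
      have h2 : ∫ y in a..(1:ℝ), (δ + |a - y|) ^ (-ρ) = ∫ y in a..(1:ℝ), ((δ - a) + y) ^ (-ρ) := by
        refine intervalIntegral.integral_congr fun y hy => ?_
        rw [Set.uIcc_of_le ha1] at hy
        rw [abs_of_nonpos (by linarith [hy.1])]
        congr 1
        ring
      rw [h2, intervalIntegral.integral_comp_add_left (fun x => x ^ (-ρ)) (δ - a)]
      congr 1 <;> ring
    have m : ∀ b ∈ Set.Icc (0:ℝ) 1, ∫ x in δ..(δ + b), x ^ (-ρ) ≤ ∫ x in δ..(δ + 1), x ^ (-ρ) := by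
      intro b hb
      refine intervalIntegral.integral_mono_interval le_rfl (by linarith [hb.1]) (by linarith [hb.2]) ?_
        (hco _ _ hδ (by linarith))
      refine (ae_restrict_iff' measurableSet_Ioc).mpr (Filter.Eventually.of_forall fun x hx => ?_)
      exact Real.rpow_nonneg (by linarith [hx.1]) _
    rw [e1, e2]
    unfold Iq
    have := m a ⟨ha0, ha1⟩
    have := m (1 - a) ⟨by linarith, by linarith⟩
    linarith
  rw [← ofReal_integral_eq_lintegral_ofReal (hc.continuousOn.integrableOn_Icc)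
    (Filter.Eventually.of_forall fun y => Real.rpow_nonneg (by positivity) _)]
  exact ENNReal.ofReal_le_ofReal h1

lemma Iq_lt {δ ρ : ℝ} (hδ : 0 < δ) (hδ1 : δ ≤ 1) (h0 : 0 ≤ ρ) (h1 : ρ < 1) : Iq δ ρ ≤ 4 / (1 - ρ) := by
  unfold Iq
  rw [integral_rpow (Or.inl (by linarith))]
  have e : -ρ + 1 = 1 - ρ := by ring
  rw [e]
  have h2 : (δ + 1) ^ (1 - ρ) ≤ 2 := by
    calc (δ + 1) ^ (1 - ρ) ≤ (2:ℝ) ^ (1 - ρ) := Real.rpow_le_rpow (by linarith) (by linarith) (by linarith)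
      _ ≤ 2 ^ (1:ℝ) := Real.rpow_le_rpow_of_exponent_le (by norm_num) (by linarith)
      _ = 2 := Real.rpow_one _
  have h3 : 0 ≤ δ ^ (1 - ρ) := Real.rpow_nonneg hδ.le _
  rw [mul_div_assoc']
  refine div_le_div_of_nonneg_right ?_ (by linarith)
  linarith

lemma Iq_gt {δ ρ : ℝ} (hδ : 0 < δ) (h1 : 1 < ρ) : Iq δ ρ ≤ 2 / (ρ - 1) * (1 / δ) ^ (ρ - 1) := by
  unfold Iq
  rw [integral_rpow (Or.inr ⟨by linarith, by
    rw [Set.uIcc_of_le (by linarith)]
    intro h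
    linarith [h.1]⟩)]
  have e : -ρ + 1 = -(ρ - 1) := by ring
  rw [e]
  have h3 : 0 ≤ (δ + 1) ^ (-(ρ - 1)) := Real.rpow_nonneg (by linarith) _
  have h4 : (1 / δ) ^ (ρ - 1) = δ ^ (-(ρ - 1)) := by
    rw [one_div, Real.inv_rpow hδ.le, Real.rpow_neg hδ.le]
  have hr : 0 < ρ - 1 := by linarith
  have h5 : 2 * (((δ + 1) ^ (-(ρ - 1)) - δ ^ (-(ρ - 1))) / (-(ρ - 1))) =
      2 / (ρ - 1) * (δ ^ (-(ρ - 1)) - (δ + 1) ^ (-(ρ - 1))) := by
    field_simp
    ring
  rw [h4, h5]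
  refine mul_le_mul_of_nonneg_left ?_ (by positivity)
  linarith

lemma Iq_eq {δ : ℝ} (hδ : 0 < δ) : Iq δ 1 = 2 * Real.log ((δ + 1) / δ) := by
  unfold Iq
  congr 1
  have : ∀ x : ℝ, x ^ (-1:ℝ) = x⁻¹ := fun x => Real.rpow_neg_one x
  simp_rw [this]
  rw [integral_inv_of_pos hδ (by linarith)]

lemma Iq_pos {δ ρ : ℝ} (hδ : 0 < δ) : 0 ≤ Iq δ ρ := by
  unfold Iq
  refine mul_nonneg (by norm_num) ?_
  refine intervalIntegral.integral_nonneg (by linarith) fun x hx => Real.rpow_nonneg (by linarith [hx.1]) _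

end Pool.Agent.V11104.MM
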