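import Mathlib

set_option autoImplicit false

/-!
Powers of integrals as multiple integrals, and products over pairs.
-/

namespace Pool.Agent.V11104.MM

open Finset Filter Topology MeasureTheory
open scoped ENNReal

lemma mem_pi {n : ℕ} {α : Type*} [MeasurableSpace α] {g : α → ℝ≥0∞} (hg : Measurable g) :
    Measurable fun x : Fin n → α => ∏ j, g (x j) :=
  Finset.measurable_prod _ fun j _ => hg.comp (measurable_pi_apply j)

/-- the power of an integral -/
lemma pow_int (n : ℕ) {μ : Measure ℝ} [SigmaFinite μ] {g : ℝ → ℝ≥0∞} (hg : Measurable g) :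
    ∫⁻ x : Fin n → ℝ, ∏ j, g (x j) ∂(Measure.pi fun _ => μ) = (∫⁻ u, g u ∂μ) ^ n := by
  induction n with
  | zero =>
    simp only [Finset.univ_eq_empty, Finset.prod_empty, pow_zero, lintegral_const, one_mul]
    rw [Measure.pi_univ]
    simp
  | succ n ih =>
    have hp := measurePreserving_piFinSuccAbove (fun _ : Fin (n + 1) => μ) 0
    have e : ∀ x : Fin (n + 1) → ℝ, ∏ j, g (x j) =
        (fun z : ℝ × (Fin n → ℝ) => g z.1 * ∏ j, g (z.2 j)) (MeasurableEquiv.piFinSuccAbove (fun _ => ℝ) 0 x) := by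
      intro x
      rw [Fin.prod_univ_succAbove _ 0]
      rfl
    rw [lintegral_congr e, hp.lintegral_comp (f := fun z : ℝ × (Fin n → ℝ) => g z.1 * ∏ j, g (z.2 j)) (by
      exact (hg.comp measurable_fst).mul ((mem_pi hg).comp measurable_snd))]
    rw [lintegral_prod_mul hg.aemeasurable (mem_pi hg).aemeasurable, ih, pow_succ, mul_comm]

/-- integrals of stars -/
lemma star (n : ℕ) {μ : Measure ℝ} [IsProbabilityMeasure μ] {b : ℝ → ℝ → ℝ≥0∞} (hb : Measurable (Function.uncurry b))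
    {M : ℝ≥0∞} (hM : ∀ᵐ a ∂μ, ∫⁻ y, b a y ∂μ ≤ M) (l : Fin (n + 1)) :
    ∫⁻ x : Fin (n + 1) → ℝ, ∏ j : Fin n, b (x l) (x (l.succAbove j)) ∂(Measure.pi fun _ => μ) ≤ M ^ n := by
  have hp := measurePreserving_piFinSuccAbove (fun _ : Fin (n + 1) => μ) l
  have e : ∀ x : Fin (n + 1) → ℝ, ∏ j : Fin n, b (x l) (x (l.succAbove j)) =
      (fun z : ℝ × (Fin n → ℝ) => ∏ j, b z.1 (z.2 j)) (MeasurableEquiv.piFinSuccAbove (fun _ => ℝ) l x) := by
    intro x
    rfl
  have hm : Measurable fun z : ℝ × (Fin n → ℝ) => ∏ j, b z.1 (z.2 j) := by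
    refine Finset.measurable_prod _ fun j _ => ?_
    have : (fun z : ℝ × (Fin n → ℝ) => b z.1 (z.2 j)) = Function.uncurry b ∘ fun z => (z.1, z.2 j) := rfl
    rw [this]
    exact hb.comp (measurable_fst.prodMk ((measurable_pi_apply j).comp measurable_snd))
  rw [lintegral_congr e, hp.lintegral_comp (f := fun z : ℝ × (Fin n → ℝ) => ∏ j, b z.1 (z.2 j)) hm,
    lintegral_prod _ hm.aemeasurable]
  have h1 : ∀ᵐ a ∂μ, ∫⁻ y : Fin n → ℝ, ∏ j, b a (y j) ∂(Measure.pi fun _ => μ) ≤ M ^ n := by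
    filter_upwards [hM] with a ha
    have h2 := pow_int n (μ := μ) (g := b a) (hb.comp measurable_prodMk_left)
    rw [h2]
    exact pow_le_pow_left' ha n
  calc ∫⁻ a, ∫⁻ y : Fin n → ℝ, ∏ j, b a (y j) ∂(Measure.pi fun _ => μ) ∂μ ≤ ∫⁻ _a, M ^ n ∂μ := lintegral_mono_ae h1
    _ = M ^ n := by simp

lemma prod_le_sum {n : ℕ} (z : Fin (n + 1) → ℝ≥0∞) : ∏ l, z l ≤ ∑ l, z l ^ (n + 1) := by
  obtain ⟨m, -, hm⟩ := Finset.exists_max_image (univ : Finset (Fin (n + 1))) z univ_nonempty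
  calc ∏ l, z l ≤ ∏ _l : Fin (n + 1), z m := Finset.prod_le_prod' fun l hl => hm l hl
    _ = z m ^ (n + 1) := by simp
    _ ≤ ∑ l, z l ^ (n + 1) := Finset.single_le_sum (f := fun l => z l ^ (n + 1)) (fun _ _ => zero_le) (mem_univ m)

/-- moments of integrals from shifted moments -/
theorem tone (n : ℕ) {μ ν : Measure ℝ} [IsProbabilityMeasure μ] [SFinite ν] {f : ℝ → ℝ → ℝ≥0∞}
    (hf : Measurable (Function.uncurry f)) {b : ℝ → ℝ → ℝ≥0∞} (hb : Measurable (Function.uncurry b)) {C M : ℝ≥0∞}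
    {S : Set ℝ} (hS : ∀ᵐ u ∂μ, u ∈ S)
    (h : ∀ x : Fin (n + 1) → ℝ, (∀ l, x l ∈ S) →
      ∫⁻ t, ∏ l, f t (x l) ∂ν ≤ C * ∏ l, ∏ j : Fin n, b (x l) (x (l.succAbove j)))
    (hM : ∀ a ∈ S, ∫⁻ y, b a y ^ (n + 1) ∂μ ≤ M) :
    ∫⁻ t, (∫⁻ u, f t u ∂μ) ^ (n + 1) ∂ν ≤ C * ((n + 1 : ℕ) * M ^ n) := by
  have hm1 : Measurable (Function.uncurry fun (t : ℝ) (x : Fin (n + 1) → ℝ) => ∏ l, f t (x l)) := by
    refine Finset.measurable_prod _ fun l _ => ?_
    have : (fun z : ℝ × (Fin (n + 1) → ℝ) => f z.1 (z.2 l)) = Function.uncurry f ∘ fun z => (z.1, z.2 l) := rfl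
    rw [this]
    exact hf.comp (measurable_fst.prodMk ((measurable_pi_apply l).comp measurable_snd))
  have hb2 : Measurable (Function.uncurry fun a y => b a y ^ (n + 1)) := hb.pow_const _
  have hz : ∀ l : Fin (n + 1), Measurable fun x : Fin (n + 1) → ℝ =>
      (∏ j : Fin n, b (x l) (x (l.succAbove j))) ^ (n + 1) := by
    intro l
    refine Measurable.pow_const (Finset.measurable_prod _ fun j _ => ?_) _
    have : (fun x : Fin (n + 1) → ℝ => b (x l) (x (l.succAbove j))) =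
        Function.uncurry b ∘ fun x => (x l, x (l.succAbove j)) := rfl
    rw [this]
    exact hb.comp ((measurable_pi_apply l).prodMk (measurable_pi_apply _))
  have hae : ∀ᵐ x : Fin (n + 1) → ℝ ∂(Measure.pi fun _ => μ), ∀ l, x l ∈ S := by
    rw [ae_all_iff]
    intro l
    have := Measure.tendsto_eval_ae_ae (μ := fun _ : Fin (n + 1) => μ) (i := l)
    exact this.eventually hS
  calc ∫⁻ t, (∫⁻ u, f t u ∂μ) ^ (n + 1) ∂ν
      = ∫⁻ t, ∫⁻ x : Fin (n + 1) → ℝ, ∏ l, f t (x l) ∂(Measure.pi fun _ => μ) ∂ν := by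
        refine lintegral_congr fun t => ?_
        exact (pow_int (n + 1) (μ := μ) (g := f t) (hf.comp measurable_prodMk_left)).symm
    _ = ∫⁻ x : Fin (n + 1) → ℝ, ∫⁻ t, ∏ l, f t (x l) ∂ν ∂(Measure.pi fun _ => μ) :=
        lintegral_lintegral_swap hm1.aemeasurable
    _ ≤ ∫⁻ x : Fin (n + 1) → ℝ, C * ∏ l, ∏ j : Fin n, b (x l) (x (l.succAbove j)) ∂(Measure.pi fun _ => μ) := by
        refine lintegral_mono_ae ?_
        filter_upwards [hae] with x hx
        exact h x hx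
    _ ≤ ∫⁻ x : Fin (n + 1) → ℝ, C * ∑ l, (∏ j : Fin n, b (x l) (x (l.succAbove j))) ^ (n + 1) ∂(Measure.pi fun _ => μ) :=
        lintegral_mono fun x => by
          gcongr
          exact prod_le_sum _
    _ = C * ∑ l : Fin (n + 1), ∫⁻ x : Fin (n + 1) → ℝ, (∏ j : Fin n, b (x l) (x (l.succAbove j))) ^ (n + 1)
          ∂(Measure.pi fun _ => μ) := by
        rw [lintegral_const_mul _ (Finset.measurable_sum _ fun l _ => hz l), lintegral_finsetSum _ fun l _ => hz l]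
    _ ≤ C * ∑ _l : Fin (n + 1), M ^ n := by
        gcongr with l
        have e : ∀ x : Fin (n + 1) → ℝ, (∏ j : Fin n, b (x l) (x (l.succAbove j))) ^ (n + 1) =
            ∏ j : Fin n, (fun a y => b a y ^ (n + 1)) (x l) (x (l.succAbove j)) := fun x => by
          rw [Finset.prod_pow]
        simp_rw [e]
        refine star n hb2 ?_ l
        filter_upwards [hS] with a ha
        exact hM a ha
    _ = C * ((n + 1 : ℕ) * M ^ n) := by
        simp

end Pool.Agent.V11104.MM
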