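import Mathlib
import Pool.Agent.V11104.MM.Core
import Pool.Agent.V11104.MM.Tone
import Pool.Agent.V11104.MM.Near

set_option autoImplicit false

/-!
The upper bounds for the moments of the integrals of powers of zeta over intervals of length one.
-/

namespace Pool.Agent.V11104.MM

open Finset Filter Topology MeasureTheory
open scoped ENNReal
open Pool.Agent.W184.NZ (bb II vI Rg mem_II bb_pos log_bb bb_le II_disj PF mem_PF sum_II)
open Pool.Agent.V11104.SM

/-- the data at the points of a set -/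
def Dat (W : ℝ) (R : ℕ) (δ : ℝ) (E : Set ℝ) : Prop :=
  ∀ j : ℕ, ∀ t ∈ E, (2:ℝ) ^ j ≤ t → t < (2:ℝ) ^ (j + 1) →
    riemannZeta (1 / 2 + t * Complex.I) ≠ 0 ∧
    |Real.log ‖riemannZeta (1 / 2 + t * Complex.I)‖ - PS (((2:ℝ) ^ j) ^ δ) t| ≤ W ∧
      ∀ i : ℕ, ‖Z (((2:ℝ) ^ j) ^ δ) 1 i t‖ ≤ 2 * ((R:ℝ) + i)

/-- points away from the powers of two -/
def Aw : Set ℝ := {t | 1 ≤ t ∧ ∀ j : ℕ, 1 < |t - 2 ^ j|}

lemma Aw_meas : MeasurableSet Aw := by
  have e : Aw = Set.Ici 1 ∩ ⋂ j : ℕ, {t : ℝ | 1 < |t - 2 ^ j|} := by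
    ext t
    simp [Aw]
  rw [e]
  refine measurableSet_Ici.inter (MeasurableSet.iInter fun j => ?_)
  exact measurableSet_lt measurable_const (by fun_prop)

/-- points at distance at most one lie in the same dyadic interval -/
lemma Aw_same {s s' : ℝ} (hs' : s' ∈ Aw) (h : |s - s'| ≤ 1) {a : ℕ}
    (h1 : (2:ℝ) ^ a ≤ s) (h2 : s < 2 ^ (a + 1)) : (2:ℝ) ^ a ≤ s' ∧ s' < 2 ^ (a + 1) := by
  obtain ⟨h3, h4⟩ := abs_le.mp h
  constructor
  · by_contra h5
    push Not at h5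
    have h6 := hs'.2 a
    rw [abs_of_neg (by linarith)] at h6
    linarith
  · by_contra h5
    push Not at h5
    have h6 := hs'.2 (a + 1)
    rw [abs_of_nonneg (by linarith)] at h6
    linarith

/-- the power of zeta on a set -/
noncomputable def zk (E : Set ℝ) (k s : ℝ) : ℝ≥0∞ :=
  E.indicator (fun s : ℝ => ENNReal.ofReal (‖riemannZeta (1 / 2 + s * Complex.I)‖ ^ (2 * k))) s

lemma zk_meas {E : Set ℝ} (hE : MeasurableSet E) (k : ℝ) : Measurable (zk E k) := by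
  unfold zk
  exact (ENNReal.measurable_ofReal.comp (zeta_cont.norm.measurable.pow_const _)).indicator hE

/-- the shifted moments for the points of an interval of length one -/
theorem up1 {θ K W δ : ℝ} {n R : ℕ} (hn : 1 ≤ n) (hR : 1 ≤ R) (hK : 0 ≤ K) (hW : 0 ≤ W)
    (hδ : 0 < δ) (hδ2 : δ ≤ 1 / 2) (hlen : 216 * n * (R + 1) * δ ≤ θ) {E : Set ℝ} (hE : MeasurableSet E)
    (hD : Dat W R δ E) (hA : E ⊆ Aw) :
    ∃ C : ℝ, 0 < C ∧ ∀ᶠ T : ℝ in atTop, ∀ H : ℝ, T ^ θ ≤ H → H ≤ T → ∀ (m : ℕ) (h : Fin (m + 1) → ℝ),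
      (∀ l, h l ∈ Set.Icc (0:ℝ) 1) → ((m + 1 : ℕ) : ℝ) * K ≤ n → ∀ k : ℝ, |k| ≤ K →
      ∫⁻ t in Set.Icc T (T + H), ∏ l, zk E k (t + h l) ≤
        ENNReal.ofReal (C * H * ∏ l, ∏ l',
          ‖riemannZeta (1 + 1 / Real.log T + ((h l - h l' : ℝ) : ℂ) * Complex.I)‖ ^ (k * k)) := by
  obtain ⟨c, hc0, hc⟩ := Pool.Agent.W184.NZ.ranges
  have hJex : ∀ y : ℝ, ∃ J : ℕ, 144 ≤ y → Rg c J (II y) (bb y) ∧ bb y J < 144 := by
    intro y
    by_cases hy : 144 ≤ y
    · obtain ⟨J, h1, _, h2, _⟩ := hc y hy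
      exact ⟨J, fun _ => ⟨h1, h2⟩⟩
    · exact ⟨0, fun h => absurd h hy⟩
  choose J hJ using hJex
  obtain ⟨C₄, hC₄, he⟩ := eul (δ / 2) (by positivity)
  set C₅ : ℝ := Real.exp (2 * n * (W + 144)) * 4 * 3 * Real.exp ((n:ℝ) ^ 2 * C₄) with hC₅
  have hC₅0 : 0 < C₅ := by positivity
  refine ⟨3 * C₅, by positivity, ?_⟩
  have t1 : ∀ᶠ T : ℝ in atTop, 144 ≤ T ^ (δ / 2) := (tendsto_rpow_atTop (by positivity)).eventually_ge_atTop 144
  filter_upwards [he, t1, eventually_ge_atTop (4:ℝ)] with T heT hT144 hT4 H hH1 hH2 m h hh hm k hk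
  have hT0 : 0 < T := by linarith
  have hT1 : 1 < T := by linarith
  have hH0 : 0 < H := lt_of_lt_of_le (Real.rpow_pos_of_pos hT0 _) hH1
  have hlT : 0 < Real.log T := Real.log_pos hT1
  obtain ⟨j₀, hj1, hj2⟩ := exists_nat_pow_near hT1.le (by norm_num : (1:ℝ) < 2)
  -- the parameters
  have par : ∀ b : ℕ, b < 3 → T ^ (δ / 2) ≤ ((2:ℝ) ^ (j₀ + b)) ^ δ ∧ ((2:ℝ) ^ (j₀ + b)) ^ δ ≤ T ∧
      Real.log (((2:ℝ) ^ (j₀ + b)) ^ δ) ≤ 2 * δ * Real.log T := by
    intro b hb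
    set U : ℝ := (2:ℝ) ^ (j₀ + b) with hU
    have hU0 : 0 < U := by positivity
    have u1 : (2:ℝ) ^ j₀ ≤ U := pow_le_pow_right₀ (by norm_num) (by omega)
    have u2 : U ≤ (2:ℝ) ^ (j₀ + 2) := pow_le_pow_right₀ (by norm_num) (by omega)
    have u3 : (2:ℝ) ^ (j₀ + 2) = 4 * 2 ^ j₀ := by rw [pow_add]; ring
    have u4 : (2:ℝ) ^ (j₀ + 1) = 2 * 2 ^ j₀ := by rw [pow_add]; ring
    have u5 : T / 2 ≤ U := by linarith
    have u6 : U ≤ T ^ 2 := by nlinarith
    have u7 : T ^ (1 / 2 : ℝ) ≤ T / 2 := by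
      rw [← Real.sqrt_eq_rpow]
      have h8 : (2:ℝ) ≤ Real.sqrt T := Real.le_sqrt_of_sq_le (by linarith)
      have h9 := Real.mul_self_sqrt hT0.le
      nlinarith
    refine ⟨?_, ?_, ?_⟩
    · have e : T ^ (δ / 2) = (T ^ (1 / 2 : ℝ)) ^ δ := by
        rw [← Real.rpow_mul hT0.le]; congr 1; ring
      rw [e]
      exact Real.rpow_le_rpow (by positivity) (u7.trans u5) hδ.le
    · calc U ^ δ ≤ (T ^ 2) ^ δ := Real.rpow_le_rpow hU0.le u6 hδ.le
        _ = T ^ (2 * δ) := by rw [← Real.rpow_natCast, ← Real.rpow_mul hT0.le]; norm_num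
        _ ≤ T ^ (1:ℝ) := Real.rpow_le_rpow_of_exponent_le hT1.le (by linarith)
        _ = T := Real.rpow_one T
    · rw [Real.log_rpow hU0]
      have h8 : Real.log U ≤ 2 * Real.log T := by
        have h9 := Real.log_le_log hU0 u6
        have h10 : Real.log (T ^ 2) = 2 * Real.log T := by rw [Real.log_pow]; norm_num
        linarith
      nlinarith
  set kk : Fin (m + 1) → ℝ := fun _ => k with hkk
  set G : ℕ → Set ℝ := fun b => {t | t ∈ Set.Icc T (T + H) ∧ (∀ l, t + h l ∈ E) ∧ (2:ℝ) ^ (j₀ + b) ≤ t + h 0 ∧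
    t + h 0 < 2 ^ (j₀ + b + 1)} with hG
  have mG : ∀ b, MeasurableSet (G b) := by
    intro b
    have e : G b = Set.Icc T (T + H) ∩ ((⋂ l, (fun t => t + h l) ⁻¹' E) ∩
        ({t | (2:ℝ) ^ (j₀ + b) ≤ t + h 0} ∩ {t | t + h 0 < 2 ^ (j₀ + b + 1)})) := by
      ext t; simp [hG]
    rw [e]
    refine measurableSet_Icc.inter ((MeasurableSet.iInter fun l => (measurable_id.add_const (h l)) hE).inter
      ((measurableSet_le measurable_const (measurable_id.add_const _)).inter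
        (measurableSet_lt (measurable_id.add_const _) measurable_const)))
  have GI : ∀ b, G b ⊆ Set.Icc T (T + H) := fun b t ht => ht.1
  set P : ℝ := ∏ l, ∏ l', ‖riemannZeta (1 + 1 / Real.log T + ((h l - h l' : ℝ) : ℂ) * Complex.I)‖ ^ (k * k) with hP
  have hP0 : 0 ≤ P := prod_nonneg fun _ _ => prod_nonneg fun _ _ => Real.rpow_nonneg (norm_nonneg _) _
  have hc' : ∀ b : ℕ, b < 3 → ∫⁻ t in G b, ENNReal.ofReal (FF h kk t) ≤ ENNReal.ofReal (C₅ * H * P) := by
    intro b hb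
    obtain ⟨p1, p2, p3⟩ := par b hb
    set y : ℝ := ((2:ℝ) ^ (j₀ + b)) ^ δ with hy
    have hy144 : 144 ≤ y := hT144.trans p1
    have hy0 : 0 < y := by linarith
    have hcore := core hJ (m := m + 1) hn hR (B := K) (W := W + 144) (C₄ := C₄) (T := T) (H := H) (y := y) hm
      (by linarith) hC₄ hT1 hH0.le (fun w => heT y p1 p2 w) hy144 (by
        refine le_trans ?_ hH1
        rw [Real.rpow_def_of_pos hT0]
        refine Real.exp_le_exp.mpr ?_
        have h3 : 0 ≤ 108 * (n:ℝ) * (R + 1) := by positivity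
        have h4 := mul_le_mul_of_nonneg_left p3 h3
        have h5 := mul_le_mul_of_nonneg_right hlen hlT.le
        nlinarith) (h := h) (k := kk) (fun _ => hk) (mG b) (GI b) (fun t ht l => by
        have hs : (2:ℝ) ^ (j₀ + b) ≤ t + h l ∧ t + h l < 2 ^ (j₀ + b + 1) := by
          refine Aw_same (hA (ht.2.1 l)) ?_ ht.2.2.1 ht.2.2.2
          rw [abs_le]
          constructor <;> linarith [(hh 0).1, (hh 0).2, (hh l).1, (hh l).2]
        obtain ⟨q1, q2, q3⟩ := hD (j₀ + b) (t + h l) (ht.2.1 l) hs.1 hs.2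
        refine ⟨q1, fun i _ => q3 i, ?_⟩
        have q4 := blocks hy144 (hJ y hy144).2 (t + h l)
        have q5 := abs_sub_le (Real.log ‖riemannZeta (1 / 2 + ((t + h l : ℝ) : ℂ) * Complex.I)‖)
          (PS y (t + h l)) (∑ i ∈ range (J y), (Z y 1 i (t + h l)).re)
        rw [abs_sub_comm (PS y (t + h l))] at q5
        linarith)
    rw [← ofReal_integral_eq_lintegral_ofReal hcore.1 (Filter.Eventually.of_forall fun t => FF_nonneg h kk t)]
    exact ENNReal.ofReal_le_ofReal hcore.2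
  have point : ∀ t ∈ Set.Icc T (T + H), ∏ l, zk E k (t + h l) ≤
      ∑ b ∈ range 3, (G b).indicator (fun t => ENNReal.ofReal (FF h kk t)) t := by
    intro t ht
    by_cases hall : ∀ l, t + h l ∈ E
    · have e1 : ∏ l, zk E k (t + h l) = ENNReal.ofReal (FF h kk t) := by
        unfold FF zk
        rw [ENNReal.ofReal_prod_of_nonneg fun l _ => Real.rpow_nonneg (norm_nonneg _) _]
        refine prod_congr rfl fun l _ => ?_
        rw [Set.indicator_of_mem (hall l)]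
      have hb : ∃ b, b < 3 ∧ t ∈ G b := by
        have u0 : (2:ℝ) ^ j₀ ≤ t + h 0 := by linarith [ht.1, (hh 0).1]
        have u4 : (2:ℝ) ^ (j₀ + 1) = 2 * 2 ^ j₀ := by rw [pow_add]; ring
        have u5 : (2:ℝ) ^ (j₀ + 2) = 4 * 2 ^ j₀ := by rw [pow_add]; ring
        have u6 : (2:ℝ) ^ (j₀ + 3) = 8 * 2 ^ j₀ := by rw [pow_add]; ring
        have u7 : t + h 0 < 2 ^ (j₀ + 3) := by linarith [ht.2, (hh 0).2]
        rcases lt_or_ge (t + h 0) (2 ^ (j₀ + 1)) with v1 | v1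
        · exact ⟨0, by norm_num, ht, hall, u0, v1⟩
        rcases lt_or_ge (t + h 0) (2 ^ (j₀ + 2)) with v2 | v2
        · exact ⟨1, by norm_num, ht, hall, v1, v2⟩
        · exact ⟨2, by norm_num, ht, hall, v2, u7⟩
      obtain ⟨b, hb3, hb⟩ := hb
      rw [e1]
      have e2 : ENNReal.ofReal (FF h kk t) = (G b).indicator (fun t => ENNReal.ofReal (FF h kk t)) t :=
        (Set.indicator_of_mem hb (fun t => ENNReal.ofReal (FF h kk t))).symm
      rw [e2]
      exact Finset.single_le_sum (f := fun b => (G b).indicator (fun t => ENNReal.ofReal (FF h kk t)) t)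
        (fun _ _ => zero_le) (mem_range.mpr hb3)
    · push Not at hall
      obtain ⟨l, hl⟩ := hall
      have e1 : ∏ l, zk E k (t + h l) = 0 := by
        refine Finset.prod_eq_zero (mem_univ l) ?_
        unfold zk
        exact Set.indicator_of_notMem hl _
      rw [e1]
      exact zero_le
  have mF : ∀ b, Measurable ((G b).indicator fun t => ENNReal.ofReal (FF h kk t)) := fun b =>
    (ENNReal.measurable_ofReal.comp (FF_meas h kk)).indicator (mG b)
  calc ∫⁻ t in Set.Icc T (T + H), ∏ l, zk E k (t + h l)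
      ≤ ∫⁻ t in Set.Icc T (T + H), ∑ b ∈ range 3, (G b).indicator (fun t => ENNReal.ofReal (FF h kk t)) t :=
        setLIntegral_mono' measurableSet_Icc point
    _ = ∑ b ∈ range 3, ∫⁻ t in Set.Icc T (T + H), (G b).indicator (fun t => ENNReal.ofReal (FF h kk t)) t :=
        lintegral_finsetSum _ fun b _ => mF b
    _ ≤ ∑ _b ∈ range 3, ENNReal.ofReal (C₅ * H * P) := by
        refine sum_le_sum fun b hb => ?_
        refine le_trans ?_ (hc' b (mem_range.mp hb))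
        rw [setLIntegral_indicator (mG b)]
        exact lintegral_mono_set Set.inter_subset_left
    _ = ENNReal.ofReal (3 * C₅ * H * P) := by
        have e : 3 * C₅ * H * P = 3 * (C₅ * H * P) := by ring
        rw [e, ENNReal.ofReal_mul (by norm_num : (0:ℝ) ≤ 3), Finset.sum_const, card_range, nsmul_eq_mul]
        congr 1
        simp

end Pool.Agent.V11104.MM
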