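import Mathlib
import Pool.Agent.V11104.MM.Up

set_option autoImplicit false

/-!
The upper bounds for the moments of the integrals of powers of zeta over intervals of length one.
-/

namespace Pool.Agent.V11104.MM

open Finset Filter Topology MeasureTheory
open scoped ENNReal
open Pool.Agent.V11104.SM

lemma prob01 : IsProbabilityMeasure (volume.restrict (Set.Icc (0:ℝ) 1)) :=
  ⟨by rw [Measure.restrict_apply_univ, Real.volume_Icc]; norm_num⟩

/-- the product over the pairs -/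
lemma pairs {C₀ : ℝ} (hC₀ : 1 ≤ C₀) (hz : ∀ δ : ℝ, 0 < δ → δ ≤ 1 → ∀ w : ℝ, |w| ≤ 1 →
    ‖riemannZeta (1 + δ + w * Complex.I)‖ ≤ C₀ / (δ + |w|)) {L : ℝ} (hL : 1 ≤ L) {m : ℕ} {x : Fin (m + 1) → ℝ}
    (hx : ∀ l, x l ∈ Set.Icc (0:ℝ) 1) (k : ℝ) :
    ∏ l, ∏ l', ‖riemannZeta (1 + 1 / L + ((x l - x l' : ℝ) : ℂ) * Complex.I)‖ ^ (k * k) ≤
      ((C₀ * L) ^ (k * k) * (C₀ ^ (k * k)) ^ m) ^ (m + 1) *
        ∏ l, ∏ j : Fin m, (1 / L + |x l - x (l.succAbove j)|) ^ (-(k * k)) := by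
  have hL0 : 0 < L := by linarith
  have hδ0 : 0 < 1 / L := by positivity
  have hδ1 : 1 / L ≤ 1 := by rw [div_le_one hL0]; exact hL
  have hkk : 0 ≤ k * k := mul_self_nonneg k
  have hcast : (1 / (L:ℂ)) = ((1 / L : ℝ) : ℂ) := by push_cast; rfl
  have hw : ∀ l l' : Fin (m + 1), |x l - x l'| ≤ 1 := by
    intro l l'
    rw [abs_le]
    constructor <;> linarith [(hx l).1, (hx l).2, (hx l').1, (hx l').2]
  have h1 : ∀ l l' : Fin (m + 1), ‖riemannZeta (1 + 1 / L + ((x l - x l' : ℝ) : ℂ) * Complex.I)‖ ^ (k * k) ≤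
      C₀ ^ (k * k) * (1 / L + |x l - x l'|) ^ (-(k * k)) := by
    intro l l'
    have h2 := hz (1 / L) hδ0 hδ1 (x l - x l') (hw l l')
    rw [hcast]
    have h3 : 0 < 1 / L + |x l - x l'| := by positivity
    calc _ ≤ (C₀ / (1 / L + |x l - x l'|)) ^ (k * k) := Real.rpow_le_rpow (norm_nonneg _) h2 hkk
      _ = _ := by rw [Real.div_rpow (by linarith) h3.le, Real.rpow_neg h3.le]; rfl
  have h4 : ∀ l : Fin (m + 1), ‖riemannZeta (1 + 1 / L + ((x l - x l : ℝ) : ℂ) * Complex.I)‖ ^ (k * k) ≤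
      (C₀ * L) ^ (k * k) := by
    intro l
    refine (h1 l l).trans (le_of_eq ?_)
    rw [sub_self, abs_zero, add_zero, Real.mul_rpow (by linarith) hL0.le, one_div, Real.inv_rpow hL0.le,
      Real.rpow_neg hL0.le, inv_inv]
  have hn : ∀ l l' : Fin (m + 1), 0 ≤ ‖riemannZeta (1 + 1 / L + ((x l - x l' : ℝ) : ℂ) * Complex.I)‖ ^ (k * k) :=
    fun l l' => Real.rpow_nonneg (norm_nonneg _) _
  calc ∏ l, ∏ l', ‖riemannZeta (1 + 1 / L + ((x l - x l' : ℝ) : ℂ) * Complex.I)‖ ^ (k * k)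
      ≤ ∏ l, ((C₀ * L) ^ (k * k) * ∏ j : Fin m, (C₀ ^ (k * k) *
          (1 / L + |x l - x (l.succAbove j)|) ^ (-(k * k)))) := by
        refine prod_le_prod (fun l _ => prod_nonneg fun l' _ => hn l l') fun l _ => ?_
        rw [Fin.prod_univ_succAbove _ l]
        refine mul_le_mul (h4 l) (prod_le_prod (fun j _ => hn l _) fun j _ => h1 l _)
          (prod_nonneg fun j _ => hn l _) (by positivity)
    _ = ∏ l : Fin (m + 1), ((C₀ * L) ^ (k * k) * (C₀ ^ (k * k)) ^ m *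
          ∏ j : Fin m, (1 / L + |x l - x (l.succAbove j)|) ^ (-(k * k))) := by
        refine prod_congr rfl fun l _ => ?_
        rw [prod_mul_distrib, prod_const, card_univ, Fintype.card_fin, mul_assoc]
    _ = _ := by
        rw [prod_mul_distrib, prod_const, card_univ, Fintype.card_fin]

/-- the moments of the integrals over intervals of length one -/
theorem up2 {θ K W δ : ℝ} {n R N : ℕ} (hn : 1 ≤ n) (hR : 1 ≤ R) (hK : 0 ≤ K) (hN : N * K ≤ n) (hW : 0 ≤ W)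
    (hδ : 0 < δ) (hδ2 : δ ≤ 1 / 2) (hlen : 216 * n * (R + 1) * δ ≤ θ) {E : Set ℝ} (hE : MeasurableSet E)
    (hD : Dat W R δ E) (hA : E ⊆ Aw) :
    ∃ C : ℝ, 0 < C ∧ ∀ᶠ T : ℝ in atTop, ∀ H : ℝ, T ^ θ ≤ H → H ≤ T → ∀ m : ℕ, m + 1 ≤ N → ∀ k : ℝ, |k| ≤ K →
      ∫⁻ t in Set.Icc T (T + H), (∫⁻ u in Set.Icc (0:ℝ) 1, zk E k (t + u)) ^ (m + 1) ≤
        ENNReal.ofReal (C * H * Real.log T ^ (((m + 1 : ℕ) : ℝ) * k ^ 2) *
          (Iq (1 / Real.log T) (((m + 1 : ℕ) : ℝ) * k ^ 2)) ^ m) := by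
  have := prob01
  obtain ⟨C₁, hC₁, h1⟩ := up1 hn hR hK hW hδ hδ2 hlen hE hD hA
  obtain ⟨C₀, hC₀, hz⟩ := zeta_near
  have hC₀0 : 0 < C₀ := by linarith
  refine ⟨C₁ * C₀ ^ (K ^ 2 * (N:ℝ) ^ 2) * (N + 1), by positivity, ?_⟩
  filter_upwards [h1, Real.tendsto_log_atTop.eventually_ge_atTop 1, eventually_gt_atTop (0:ℝ)] with
    T hT hL hT0 H hH1 hH2 m hmN k hk
  have hH0 : 0 < H := lt_of_lt_of_le (Real.rpow_pos_of_pos hT0 _) hH1
  set L := Real.log T with hLd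
  have hL0 : 0 < L := by linarith
  have hmN' : ((m + 1 : ℕ) : ℝ) ≤ N := by exact_mod_cast hmN
  have hmK : ((m + 1 : ℕ) : ℝ) * K ≤ n := (mul_le_mul_of_nonneg_right hmN' hK).trans hN
  set ρ : ℝ := ((m + 1 : ℕ) : ℝ) * k ^ 2 with hρ
  set A : ℝ := ((C₀ * L) ^ (k * k) * (C₀ ^ (k * k)) ^ m) ^ (m + 1) with hA
  have hA0 : 0 ≤ A := by positivity
  set b : ℝ → ℝ → ℝ≥0∞ := fun a y => ENNReal.ofReal ((1 / L + |a - y|) ^ (-(k * k))) with hb
  have hbm : Measurable (Function.uncurry b) := by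
    have e : Function.uncurry b = fun z : ℝ × ℝ => ENNReal.ofReal ((1 / L + |z.1 - z.2|) ^ (-(k * k))) := rfl
    rw [e]
    refine ENNReal.measurable_ofReal.comp (Measurable.pow_const ?_ _)
    fun_prop
  have hfm : Measurable (Function.uncurry fun t u : ℝ => zk E k (t + u)) := by
    have e : (Function.uncurry fun t u : ℝ => zk E k (t + u)) = zk E k ∘ fun z : ℝ × ℝ => z.1 + z.2 := rfl
    rw [e]
    exact (zk_meas hE k).comp (measurable_fst.add measurable_snd)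
  have ht := tone m (μ := volume.restrict (Set.Icc (0:ℝ) 1)) (ν := volume.restrict (Set.Icc T (T + H)))
    (f := fun t u => zk E k (t + u)) hfm hbm (C := ENNReal.ofReal (C₁ * H * A))
    (M := ENNReal.ofReal (Iq (1 / L) ρ)) (S := Set.Icc (0:ℝ) 1) (ae_restrict_mem measurableSet_Icc)
    (fun x hx => by
      refine (hT H hH1 hH2 m x hx hmK k hk).trans ?_
      have hp := pairs hC₀ hz hL hx k
      have e1 : ∏ l, ∏ j : Fin m, b (x l) (x (l.succAbove j)) =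
          ENNReal.ofReal (∏ l, ∏ j : Fin m, (1 / L + |x l - x (l.succAbove j)|) ^ (-(k * k))) := by
        rw [ENNReal.ofReal_prod_of_nonneg fun l _ => prod_nonneg fun j _ => Real.rpow_nonneg (by positivity) _]
        refine prod_congr rfl fun l _ => ?_
        rw [ENNReal.ofReal_prod_of_nonneg fun j _ => Real.rpow_nonneg (by positivity) _]
      rw [e1, ← ENNReal.ofReal_mul (by positivity)]
      refine ENNReal.ofReal_le_ofReal ?_
      rw [mul_assoc (C₁ * H)]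
      exact mul_le_mul_of_nonneg_left hp (by positivity))
    (fun a ha => by
      have e2 : ∀ y, b a y ^ (m + 1) = ENNReal.ofReal ((1 / L + |a - y|) ^ (-ρ)) := by
        intro y
        have h0 : 0 < 1 / L + |a - y| := by positivity
        simp only [hb]
        rw [← ENNReal.ofReal_pow (Real.rpow_nonneg h0.le _), ← Real.rpow_natCast, ← Real.rpow_mul h0.le]
        congr 2
        rw [hρ]
        ring
      simp_rw [e2]
      exact int_b (by positivity) ρ ha)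
  refine ht.trans ?_
  have hI := Iq_pos (δ := 1 / L) (ρ := ρ) (by positivity)
  have e3 : ENNReal.ofReal (C₁ * H * A) * (((m + 1 : ℕ) : ℝ≥0∞) * ENNReal.ofReal (Iq (1 / L) ρ) ^ m) =
      ENNReal.ofReal (C₁ * H * A * (((m + 1 : ℕ) : ℝ) * (Iq (1 / L) ρ) ^ m)) := by
    rw [← ENNReal.ofReal_pow hI, ← ENNReal.ofReal_natCast, ← ENNReal.ofReal_mul (by positivity),
      ← ENNReal.ofReal_mul (by positivity)]
  rw [e3]
  refine ENNReal.ofReal_le_ofReal ?_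
  have hA2 : A ≤ C₀ ^ (K ^ 2 * (N:ℝ) ^ 2) * L ^ ρ := by
    have e4 : A = C₀ ^ (k ^ 2 * ((m + 1 : ℕ) : ℝ) ^ 2) * L ^ ρ := by
      rw [hA, Real.mul_rpow hC₀0.le hL0.le, mul_pow, mul_pow, ← Real.rpow_natCast (C₀ ^ (k * k)) m,
        ← Real.rpow_natCast (C₀ ^ (k * k)) (m + 1), ← Real.rpow_natCast (L ^ (k * k)) (m + 1),
        ← Real.rpow_natCast ((C₀ ^ (k * k)) ^ (m:ℝ)) (m + 1), ← Real.rpow_mul hC₀0.le, ← Real.rpow_mul hC₀0.le,
        ← Real.rpow_mul hC₀0.le, ← Real.rpow_mul hL0.le]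
      have e5 : C₀ ^ (k * k * ((m + 1 : ℕ) : ℝ)) * L ^ (k * k * ((m + 1 : ℕ) : ℝ)) *
          C₀ ^ (k * k * (m:ℝ) * ((m + 1 : ℕ) : ℝ)) =
          (C₀ ^ (k * k * ((m + 1 : ℕ) : ℝ)) * C₀ ^ (k * k * (m:ℝ) * ((m + 1 : ℕ) : ℝ))) *
            L ^ (k * k * ((m + 1 : ℕ) : ℝ)) := by ring
      rw [e5, ← Real.rpow_add hC₀0]
      congr 2
      · push_cast; ring
      · rw [hρ]; ring
    rw [e4]
    refine mul_le_mul_of_nonneg_right ?_ (by positivity)
    refine Real.rpow_le_rpow_of_exponent_le hC₀ ?_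
    have h6 : k ^ 2 ≤ K ^ 2 := by
      rw [← sq_abs k]; exact pow_le_pow_left₀ (abs_nonneg _) hk 2
    gcongr
  have hIm : 0 ≤ Iq (1 / L) ρ ^ m := pow_nonneg hI m
  have hN1 : ((m + 1 : ℕ) : ℝ) ≤ N + 1 := by linarith
  calc C₁ * H * A * (((m + 1 : ℕ) : ℝ) * (Iq (1 / L) ρ) ^ m)
      ≤ C₁ * H * (C₀ ^ (K ^ 2 * (N:ℝ) ^ 2) * L ^ ρ) * ((N + 1) * (Iq (1 / L) ρ) ^ m) := by
        gcongr
    _ = _ := by ring

end Pool.Agent.V11104.MM
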