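import Mathlib
import Pool.Agent.V11104.MM.Up2

set_option autoImplicit false

/-!
The lower bounds, and the passage to integrals of real functions.
-/

namespace Pool.Agent.V11104.MM

open Finset Filter Topology MeasureTheory
open scoped ENNReal
open Pool.Agent.V11104.SM

lemma win_ev {α β : ℝ} (hα : 0 ≤ α) (h : α < β) : ∀ᶠ T : ℝ in atTop, ∀ H : ℝ, T / Real.log T ^ α ≤ H →
    ∀ A ∈ Set.Icc T (2 * T), A / Real.log A ^ β ≤ H / 4 := by
  have h1 := ((tendsto_rpow_atTop (sub_pos.mpr h)).comp Real.tendsto_log_atTop).eventually_ge_atTop 8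
  filter_upwards [h1, Real.tendsto_log_atTop.eventually_ge_atTop 1, eventually_gt_atTop (0:ℝ)] with
    T h2 hL hT0 H hH A hA
  simp only [Function.comp] at h2
  have hL0 : 0 < Real.log T := by linarith
  have hA0 : 0 < A := lt_of_lt_of_le hT0 hA.1
  have hLA : Real.log T ≤ Real.log A := Real.log_le_log hT0 hA.1
  have h3 : Real.log T ^ β ≤ Real.log A ^ β := Real.rpow_le_rpow hL0.le hLA (by linarith)
  have h4 : Real.log T ^ β = Real.log T ^ α * Real.log T ^ (β - α) := by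
    rw [← Real.rpow_add hL0]; congr 1; ring
  have h5 : 0 < Real.log T ^ α := Real.rpow_pos_of_pos hL0 α
  have h6 : 0 < Real.log A ^ β := Real.rpow_pos_of_pos (by linarith) β
  have h7 : 8 * Real.log T ^ α ≤ Real.log A ^ β := by
    rw [h4] at h3
    nlinarith
  rw [div_le_iff₀ h6]
  rw [div_le_iff₀ h5] at hH
  have hH0 : 0 ≤ H := by
    by_contra h8
    push Not at h8
    nlinarith
  have h9 := mul_le_mul_of_nonneg_left h7 (by positivity : 0 ≤ H / 4)
  nlinarith [hA.2]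

/-- an interval free of powers of two -/
lemma free {T H : ℝ} (hT : 16 ≤ T) (hH1 : 16 ≤ H) (hH2 : H ≤ T) : ∃ A ∈ Set.Icc T (2 * T), T + 1 ≤ A ∧
    A + H / 4 ≤ T + H ∧ Set.Icc A (A + H / 4) ⊆ Aw := by
  by_contra hcon
  push Not at hcon
  have h1 := hcon (T + H / 8) ⟨by linarith, by linarith⟩ (by linarith) (by linarith)
  have h2 := hcon (T + 5 * H / 8) ⟨by linarith, by linarith⟩ (by linarith) (by linarith)
  rw [Set.not_subset] at h1 h2
  obtain ⟨s₁, ⟨a1, a2⟩, a3⟩ := h1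
  obtain ⟨s₂, ⟨b1, b2⟩, b3⟩ := h2
  have key : ∀ s : ℝ, 1 ≤ s → s ∉ Aw → ∃ j : ℕ, |s - 2 ^ j| ≤ 1 := by
    intro s hs h3
    by_contra h4
    push Not at h4
    exact h3 ⟨hs, h4⟩
  obtain ⟨j₁, c1⟩ := key s₁ (by linarith) a3
  obtain ⟨j₂, c2⟩ := key s₂ (by linarith) b3
  obtain ⟨c3, c4⟩ := abs_le.mp c1
  obtain ⟨c5, c6⟩ := abs_le.mp c2
  have hlt : (2:ℝ) ^ j₁ < 2 ^ j₂ := by linarith
  have hj : j₁ < j₂ := (pow_lt_pow_iff_right₀ (by norm_num)).mp hlt
  have h5 : (2:ℝ) ^ (j₁ + 1) ≤ 2 ^ j₂ := pow_le_pow_right₀ (by norm_num) hj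
  rw [pow_succ] at h5
  linarith

/-- the points near the powers of two -/
lemma bad_meas {T H : ℝ} (hT : 4 ≤ T) (hH0 : 0 ≤ H) (hH : H ≤ T) : volume.real (Set.Icc T (T + H) ∩ Awᶜ) ≤ 6 := by
  obtain ⟨j₀, hj1, hj2⟩ := exists_nat_pow_near (show (1:ℝ) ≤ T by linarith) (by norm_num : (1:ℝ) < 2)
  have u4 : (2:ℝ) ^ (j₀ + 1) = 2 * 2 ^ j₀ := by rw [pow_add]; ring
  have u6 : (2:ℝ) ^ (j₀ + 3) = 8 * 2 ^ j₀ := by rw [pow_add]; ring
  have hsub : Set.Icc T (T + H) ∩ Awᶜ ⊆ ⋃ b ∈ range 3, Set.Icc ((2:ℝ) ^ (j₀ + b) - 1) (2 ^ (j₀ + b) + 1) := by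
    rintro s ⟨⟨h1, h2⟩, h3⟩
    have h4 : ∃ j : ℕ, |s - 2 ^ j| ≤ 1 := by
      by_contra h4
      push Not at h4
      exact h3 ⟨by linarith, h4⟩
    obtain ⟨j, hj⟩ := h4
    obtain ⟨a1, a2⟩ := abs_le.mp hj
    have j1 : j₀ ≤ j := by
      by_contra h5
      push Not at h5
      have h6 : (2:ℝ) ^ (j + 1) ≤ 2 ^ j₀ := pow_le_pow_right₀ (by norm_num) (by omega)
      rw [pow_succ] at h6
      linarith
    have j2 : j < j₀ + 3 := by
      by_contra h5
      push Not at h5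
      have h6 : (2:ℝ) ^ (j₀ + 3) ≤ 2 ^ j := pow_le_pow_right₀ (by norm_num) h5
      linarith
    obtain ⟨b, rfl⟩ := Nat.exists_eq_add_of_le j1
    rw [Set.mem_iUnion₂]
    exact ⟨b, mem_range.mpr (by omega), ⟨by linarith, by linarith⟩⟩
  refine (measureReal_mono hsub ?_).trans ((measureReal_biUnion_finset_le _ _).trans ?_)
  · refine ((measure_biUnion_finset_le _ _).trans_lt ?_).ne
    refine ENNReal.sum_lt_top.mpr fun b _ => ?_
    rw [Real.volume_Icc]
    exact ENNReal.ofReal_lt_top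
  · calc ∑ b ∈ range 3, volume.real (Set.Icc ((2:ℝ) ^ (j₀ + b) - 1) (2 ^ (j₀ + b) + 1)) ≤ ∑ _b ∈ range 3, (2:ℝ) := by
          refine sum_le_sum fun b _ => ?_
          rw [Real.volume_real_Icc_of_le (by linarith)]
          linarith
      _ = 6 := by norm_num

/-- the integral of the integrals -/
lemma avg {F : ℝ → ℝ≥0∞} (hF : Measurable F) (T H : ℝ) :
    ∫⁻ s in Set.Icc (T + 1) (T + H), F s ≤ ∫⁻ t in Set.Icc T (T + H), ∫⁻ u in Set.Icc (0:ℝ) 1, F (t + u) := by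
  have := prob01
  have hm : Measurable (Function.uncurry fun t u : ℝ => F (t + u)) := by
    have e : (Function.uncurry fun t u : ℝ => F (t + u)) = F ∘ fun z : ℝ × ℝ => z.1 + z.2 := rfl
    rw [e]
    exact hF.comp (measurable_fst.add measurable_snd)
  rw [lintegral_lintegral_swap hm.aemeasurable]
  have h1 : ∀ u ∈ Set.Icc (0:ℝ) 1, ∫⁻ s in Set.Icc (T + 1) (T + H), F s ≤ ∫⁻ t in Set.Icc T (T + H), F (t + u) := by
    intro u hu
    rw [← lintegral_indicator measurableSet_Icc, ← lintegral_indicator measurableSet_Icc,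
      ← lintegral_add_right_eq_self _ u]
    refine lintegral_mono fun t => ?_
    by_cases ht : t + u ∈ Set.Icc (T + 1) (T + H)
    · rw [Set.indicator_of_mem ht, Set.indicator_of_mem (show t ∈ Set.Icc T (T + H) from
        ⟨by linarith [ht.1, hu.2], by linarith [ht.2, hu.1]⟩)]
    · rw [Set.indicator_of_notMem ht]
      exact zero_le
  calc ∫⁻ s in Set.Icc (T + 1) (T + H), F s =
        ∫⁻ _u in Set.Icc (0:ℝ) 1, ∫⁻ s in Set.Icc (T + 1) (T + H), F s := by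
        rw [lintegral_const, measure_univ, mul_one]
    _ ≤ _ := setLIntegral_mono' measurableSet_Icc h1

/-- Jensen's inequality -/
lemma jensen {G : ℝ → ℝ} (hG : ∀ t, 0 ≤ G t) {T H : ℝ} (hH : 0 < H) (hi : IntegrableOn G (Set.Icc T (T + H))) (q : ℕ)
    (hq : IntegrableOn (fun t => G t ^ q) (Set.Icc T (T + H))) :
    H * ((∫ t in Set.Icc T (T + H), G t) / H) ^ q ≤ ∫ t in Set.Icc T (T + H), G t ^ q := by
  have hv : volume (Set.Icc T (T + H)) = ENNReal.ofReal H := by rw [Real.volume_Icc]; congr 1; ring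
  have hvr : volume.real (Set.Icc T (T + H)) = H := by
    rw [Measure.real, hv, ENNReal.toReal_ofReal hH.le]
  have h1 := (convexOn_pow (𝕜 := ℝ) q).map_set_average_le (μ := volume) (t := Set.Icc T (T + H)) (f := G)
    (continuous_pow q).continuousOn isClosed_Ici (by rw [hv]; simpa using hH) (by rw [hv]; exact ENNReal.ofReal_ne_top)
    (Filter.Eventually.of_forall fun t => hG t) hi hq
  rw [setAverage_eq, setAverage_eq, hvr, smul_eq_mul, smul_eq_mul] at h1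
  rw [div_eq_inv_mul]
  calc H * (H⁻¹ * ∫ t in Set.Icc T (T + H), G t) ^ q ≤ H * (H⁻¹ * ∫ t in Set.Icc T (T + H), G t ^ q) :=
        mul_le_mul_of_nonneg_left h1 hH.le
    _ = _ := by rw [← mul_assoc, mul_inv_cancel₀ hH.ne', one_mul]

/-- the integral over an interval of length one -/
noncomputable def Gi (E : Set ℝ) (k t : ℝ) : ℝ :=
  ∫ u in {u : ℝ | u ∈ Set.Icc (0:ℝ) 1 ∧ t + u ∈ E}, ‖riemannZeta (1 / 2 + ((t + u : ℝ) : ℂ) * Complex.I)‖ ^ (2 * k)

lemma Gi_nonneg (E : Set ℝ) (k t : ℝ) : 0 ≤ Gi E k t :=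
  integral_nonneg fun _ => Real.rpow_nonneg (norm_nonneg _) _

lemma Gi_eq {E : Set ℝ} (hE : MeasurableSet E) (k t : ℝ) :
    Gi E k t = (∫⁻ u in Set.Icc (0:ℝ) 1, zk E k (t + u)).toReal := by
  unfold Gi
  have hm : Measurable fun u : ℝ => ‖riemannZeta (1 / 2 + ((t + u : ℝ) : ℂ) * Complex.I)‖ ^ (2 * k) := by
    have e : (fun u : ℝ => ‖riemannZeta (1 / 2 + ((t + u : ℝ) : ℂ) * Complex.I)‖ ^ (2 * k)) =
        (fun s : ℝ => ‖riemannZeta (1 / 2 + (s : ℂ) * Complex.I)‖ ^ (2 * k)) ∘ fun u => t + u := rfl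
    rw [e]
    exact (zeta_cont.norm.measurable.pow_const _).comp (measurable_const_add t)
  rw [integral_eq_lintegral_of_nonneg_ae (Filter.Eventually.of_forall fun _ => Real.rpow_nonneg (norm_nonneg _) _)
    hm.aestronglyMeasurable]
  congr 1
  have hmE : MeasurableSet ((fun u => t + u) ⁻¹' E) := (measurable_const_add t) hE
  have e1 : {u : ℝ | u ∈ Set.Icc (0:ℝ) 1 ∧ t + u ∈ E} = ((fun u => t + u) ⁻¹' E) ∩ Set.Icc (0:ℝ) 1 := by
    ext u
    simp only [Set.mem_ofPred_eq, Set.mem_inter_iff, Set.mem_preimage]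
    tauto
  rw [e1, ← setLIntegral_indicator hmE]
  refine lintegral_congr fun u => ?_
  unfold zk
  by_cases hu : t + u ∈ E
  · rw [Set.indicator_of_mem (show u ∈ (fun u => t + u) ⁻¹' E from hu), Set.indicator_of_mem hu]
  · rw [Set.indicator_of_notMem (show u ∉ (fun u => t + u) ⁻¹' E from hu), Set.indicator_of_notMem hu]

lemma Gt_meas {E : Set ℝ} (hE : MeasurableSet E) (k : ℝ) :
    Measurable fun t : ℝ => ∫⁻ u in Set.Icc (0:ℝ) 1, zk E k (t + u) := by
  have hm : Measurable (Function.uncurry fun t u : ℝ => zk E k (t + u)) := by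
    have e : (Function.uncurry fun t u : ℝ => zk E k (t + u)) = zk E k ∘ fun z : ℝ × ℝ => z.1 + z.2 := rfl
    rw [e]
    exact (zk_meas hE k).comp (measurable_fst.add measurable_snd)
  exact hm.lintegral_prod_right'

lemma Gi_meas {E : Set ℝ} (hE : MeasurableSet E) (k : ℝ) : Measurable (Gi E k) := by
  have e : Gi E k = fun t => (∫⁻ u in Set.Icc (0:ℝ) 1, zk E k (t + u)).toReal := funext fun t => Gi_eq hE k t
  rw [e]
  exact (Gt_meas hE k).ennreal_toReal

/-- upper bounds for the moments -/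
lemma Gi_up {E : Set ℝ} (hE : MeasurableSet E) {k X : ℝ} (hX : 0 ≤ X) {S : Set ℝ} (q : ℕ)
    (h : ∫⁻ t in S, (∫⁻ u in Set.Icc (0:ℝ) 1, zk E k (t + u)) ^ q ≤ ENNReal.ofReal X) :
    IntegrableOn (fun t => Gi E k t ^ q) S ∧ ∫ t in S, Gi E k t ^ q ≤ X := by
  have h1 : ∀ t, ENNReal.ofReal (Gi E k t ^ q) ≤ (∫⁻ u in Set.Icc (0:ℝ) 1, zk E k (t + u)) ^ q := by
    intro t
    rw [ENNReal.ofReal_pow (Gi_nonneg E k t), Gi_eq hE]
    exact pow_le_pow_left' ENNReal.ofReal_toReal_le q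
  have h2 : ∫⁻ t in S, ENNReal.ofReal (Gi E k t ^ q) ≤ ENNReal.ofReal X := (lintegral_mono h1).trans h
  have hm : Measurable fun t => Gi E k t ^ q := (Gi_meas hE k).pow_const q
  refine ⟨⟨hm.aestronglyMeasurable, ?_⟩, ?_⟩
  · rw [hasFiniteIntegral_iff_ofReal (Filter.Eventually.of_forall fun t => pow_nonneg (Gi_nonneg E k t) q)]
    exact h2.trans_lt ENNReal.ofReal_lt_top
  · rw [integral_eq_lintegral_of_nonneg_ae (Filter.Eventually.of_forall fun t => pow_nonneg (Gi_nonneg E k t) q)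
      hm.aestronglyMeasurable]
    exact ENNReal.toReal_le_of_le_ofReal hX h2

/-- lower bounds for the moments -/
lemma Gi_low {E : Set ℝ} (hE : MeasurableSet E) {k Y : ℝ} (hY : 0 ≤ Y) {T H : ℝ} (hH : 0 < H) (q : ℕ)
    (hfin : ∫⁻ t in Set.Icc T (T + H), (∫⁻ u in Set.Icc (0:ℝ) 1, zk E k (t + u)) ≠ ⊤)
    (hq : IntegrableOn (fun t => Gi E k t ^ q) (Set.Icc T (T + H)))
    (h : ENNReal.ofReal (Y * H) ≤ ∫⁻ s in Set.Icc (T + 1) (T + H), zk E k s) :
    Y ^ q * H ≤ ∫ t in Set.Icc T (T + H), Gi E k t ^ q := by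
  have hae := ae_lt_top (Gt_meas hE k) hfin
  have hi : IntegrableOn (fun t => Gi E k t) (Set.Icc T (T + H)) := by
    have e : (fun t => Gi E k t) = fun t => (∫⁻ u in Set.Icc (0:ℝ) 1, zk E k (t + u)).toReal :=
      funext fun t => Gi_eq hE k t
    rw [e]
    exact integrable_toReal_of_lintegral_ne_top (Gt_meas hE k).aemeasurable hfin
  have h1 : Y * H ≤ ∫ t in Set.Icc T (T + H), Gi E k t := by
    have e : ∫ t in Set.Icc T (T + H), Gi E k t =
        (∫⁻ t in Set.Icc T (T + H), ∫⁻ u in Set.Icc (0:ℝ) 1, zk E k (t + u)).toReal := by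
      simp_rw [Gi_eq hE]
      exact integral_toReal (Gt_meas hE k).aemeasurable hae
    rw [e, ← ENNReal.ofReal_le_iff_le_toReal hfin]
    exact h.trans (avg (zk_meas hE k) T H)
  have h2 := jensen (fun t => Gi_nonneg E k t) hH hi q hq
  refine le_trans ?_ h2
  rw [mul_comm (Y ^ q) H]
  refine mul_le_mul_of_nonneg_left (pow_le_pow_left₀ hY ?_ q) hH.le
  rw [le_div_iff₀ hH]
  exact h1

end Pool.Agent.V11104.MM
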