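import Mathlib
import Pool.Agent.V11104.MM.Low

set_option autoImplicit false

/-!
Zeta and its inverse are locally bounded on the set.
-/

namespace Pool.Agent.V11104.MM

open Finset Filter Topology MeasureTheory
open Pool.Agent.V11104.SM

lemma PS_le {y s : ℝ} (hy : 0 ≤ y) : |PS y s| ≤ y := by
  have h1 : PS y s = ∑ p ∈ PP y, ((p : ℂ) ^ (-(1 / 2 + s * Complex.I))).re := by
    unfold PS
    rw [Complex.re_sum]
  rw [h1]
  calc |∑ p ∈ PP y, ((p : ℂ) ^ (-(1 / 2 + s * Complex.I))).re|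
      ≤ ∑ p ∈ PP y, |((p : ℂ) ^ (-(1 / 2 + s * Complex.I))).re| := abs_sum_le_sum_abs _ _
    _ ≤ ∑ _p ∈ PP y, (1:ℝ) := sum_le_sum fun p hp => re_le_one ((mem_PP hy).mp hp).1 s
    _ ≤ ∑ _p ∈ Finset.Icc 1 ⌊y⌋₊, (1:ℝ) := sum_le_sum_of_subset_of_nonneg (filter_subset _ _) fun _ _ _ => zero_le_one
    _ = (⌊y⌋₊ : ℝ) := by simp
    _ ≤ y := Nat.floor_le hy

lemma inner_int {W δ : ℝ} {R : ℕ} (hδ : 0 ≤ δ) (hδ1 : δ ≤ 1) {E : Set ℝ} (hE : MeasurableSet E)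
    (hD : Dat W R δ E) (hA : E ⊆ Aw) (β t : ℝ) :
    IntegrableOn (fun u : ℝ => ‖riemannZeta (1 / 2 + ((t + u : ℝ) : ℂ) * Complex.I)‖ ^ β)
      {u : ℝ | u ∈ Set.Icc (0:ℝ) 1 ∧ t + u ∈ E} := by
  have hm : Measurable fun u : ℝ => ‖riemannZeta (1 / 2 + ((t + u : ℝ) : ℂ) * Complex.I)‖ ^ β := by
    have e : (fun u : ℝ => ‖riemannZeta (1 / 2 + ((t + u : ℝ) : ℂ) * Complex.I)‖ ^ β) =
        (fun s : ℝ => ‖riemannZeta (1 / 2 + (s : ℂ) * Complex.I)‖ ^ β) ∘ fun u => t + u := rfl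
    rw [e]
    exact (zeta_cont.norm.measurable.pow_const _).comp (measurable_const_add t)
  have hS : MeasurableSet {u : ℝ | u ∈ Set.Icc (0:ℝ) 1 ∧ t + u ∈ E} :=
    measurableSet_Icc.inter ((measurable_const_add t) hE)
  refine Measure.integrableOn_of_bounded (M := Real.exp (|β| * (W + (|t| + 1)))) ?_ hm.aestronglyMeasurable ?_
  · exact measure_ne_top_of_subset (fun u hu => hu.1 : {u : ℝ | u ∈ Set.Icc (0:ℝ) 1 ∧ t + u ∈ E} ⊆ Set.Icc (0:ℝ) 1)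
      (by rw [Real.volume_Icc]; exact ENNReal.ofReal_ne_top)
  · refine (ae_restrict_iff' hS).mpr (Filter.Eventually.of_forall fun u hu => ?_)
    obtain ⟨⟨u0, u1⟩, hs⟩ := hu
    set s : ℝ := t + u with hsd
    have hs1 : 1 ≤ s := (hA hs).1
    have hsX : s ≤ |t| + 1 := by linarith [le_abs_self t]
    obtain ⟨j, hj, hj'⟩ := exists_nat_pow_near hs1 (by norm_num : (1:ℝ) < 2)
    obtain ⟨q1, q2, -⟩ := hD j s hs hj hj'
    have hy0 : 0 ≤ ((2:ℝ) ^ j) ^ δ := by positivity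
    have hy : ((2:ℝ) ^ j) ^ δ ≤ s := by
      calc ((2:ℝ) ^ j) ^ δ ≤ s ^ δ := Real.rpow_le_rpow (by positivity) hj hδ
        _ ≤ s ^ (1:ℝ) := Real.rpow_le_rpow_of_exponent_le hs1 hδ1
        _ = s := Real.rpow_one s
    have h1 := PS_le (s := s) hy0
    have h2 : |Real.log ‖riemannZeta (1 / 2 + s * Complex.I)‖| ≤ W + (|t| + 1) := by
      have := abs_sub_abs_le_abs_sub (Real.log ‖riemannZeta (1 / 2 + s * Complex.I)‖) (PS (((2:ℝ) ^ j) ^ δ) s)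
      linarith
    rw [Real.norm_of_nonneg (Real.rpow_nonneg (norm_nonneg _) _), Real.rpow_def_of_pos (norm_pos_iff.mpr q1)]
    refine Real.exp_le_exp.mpr ?_
    calc Real.log ‖riemannZeta (1 / 2 + s * Complex.I)‖ * β
        ≤ |Real.log ‖riemannZeta (1 / 2 + s * Complex.I)‖ * β| := le_abs_self _
      _ = |β| * |Real.log ‖riemannZeta (1 / 2 + s * Complex.I)‖| := by rw [abs_mul, mul_comm]
      _ ≤ _ := mul_le_mul_of_nonneg_left h2 (abs_nonneg _)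

end Pool.Agent.V11104.MM
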