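import Mathlib
import Pool.Agent.V11104.MM.Low

set_option autoImplicit false

/-!
A majorant for the values of zeta near a point.
-/

namespace Pool.Agent.V11104.MM

open Finset Filter Topology MeasureTheory
open scoped ENNReal
open Pool.Agent.W184.NZ (bb II vI Rg mem_II bb_pos log_bb bb_le II_disj PF mem_PF sum_II)
open Pool.Agent.V11104.SM

/-- the derivative of a Dirichlet polynomial -/
theorem DP_deriv {P : Set ℕ} {N Q : ℝ} {f : ℝ → ℂ} (h : DP P N Q f) :
    ∃ g : ℝ → ℂ, (∀ t, HasDerivAt f (g t) t) ∧ DP P N (Real.log N ^ 2 * Q) g := by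
  obtain ⟨ι, S, n, a, hinj, hS, hf, hQ⟩ := h
  refine ⟨fun t => ∑ x ∈ S, (a x * (-(Real.log (n x) : ℂ) * Complex.I)) * chi t (n x), ?_,
    ι, S, n, fun x => a x * (-(Real.log (n x) : ℂ) * Complex.I), hinj, hS, fun t => rfl, ?_⟩
  · intro t
    have e : f = fun t => ∑ x ∈ S, a x * chi t (n x) := funext hf
    rw [e]
    refine HasDerivAt.fun_sum fun x hx => ?_
    have e2 : (fun t : ℝ => chi t (n x)) = fun t : ℝ => Complex.exp (-((t * Real.log (n x) : ℝ) : ℂ) * Complex.I) :=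
      funext fun t => chi_exp t (hS x hx).1
    have h1 : HasDerivAt (fun t : ℝ => -((t * Real.log (n x) : ℝ) : ℂ) * Complex.I)
        (-(Real.log (n x) : ℂ) * Complex.I) t := by
      have h2 : HasDerivAt (fun t : ℝ => ((t * Real.log (n x) : ℝ) : ℂ)) (Real.log (n x) : ℂ) t := by
        have h3 : HasDerivAt (fun t : ℝ => t * Real.log (n x)) (1 * Real.log (n x)) t :=
          (hasDerivAt_id t).mul_const _
        rw [one_mul] at h3
        exact h3.ofReal_comp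
      exact h2.neg.mul_const _
    have h4 := h1.cexp
    have h5 : HasDerivAt (fun t : ℝ => chi t (n x)) (chi t (n x) * (-(Real.log (n x) : ℂ) * Complex.I)) t := by
      rw [e2, chi_exp t (hS x hx).1]
      exact h4
    have h6 := h5.const_mul (a x)
    have e7 : a x * (-(Real.log (n x) : ℂ) * Complex.I) * chi t (n x) =
        a x * (chi t (n x) * (-(Real.log (n x) : ℂ) * Complex.I)) := by ring
    rw [e7]
    exact h6
  · calc ∑ x ∈ S, ‖a x * (-(Real.log (n x) : ℂ) * Complex.I)‖ ^ 2 ≤ ∑ x ∈ S, Real.log N ^ 2 * ‖a x‖ ^ 2 := by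
          refine sum_le_sum fun x hx => ?_
          obtain ⟨h1, h2, -⟩ := hS x hx
          have h3 : (1:ℝ) ≤ n x := by exact_mod_cast h1
          have h4 : 0 ≤ Real.log (n x) := Real.log_nonneg h3
          have h5 : Real.log (n x) ≤ Real.log N := Real.log_le_log (by linarith) h2
          rw [norm_mul, norm_mul, norm_neg, Complex.norm_I, mul_one, Complex.norm_real, Real.norm_of_nonneg h4,
            mul_pow, mul_comm]
          exact mul_le_mul_of_nonneg_right (pow_le_pow_left₀ h4 h5 2) (by positivity)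
      _ = Real.log N ^ 2 * ∑ x ∈ S, ‖a x‖ ^ 2 := by rw [Finset.mul_sum]
      _ ≤ _ := mul_le_mul_of_nonneg_left hQ (by positivity)

/-- a one-dimensional Sobolev inequality -/
lemma sob {f g : ℝ → ℂ} (hf : ∀ t, HasDerivAt f (g t) t) (hg : Continuous g) {η : ℝ} (hη : 0 < η) (s : ℝ) :
    ‖f s‖ ^ 2 ≤ ∫ v in (0:ℝ)..η, (2 / η * ‖f (s + v)‖ ^ 2 + η * ‖g (s + v)‖ ^ 2) := by
  have hfc : Continuous f := continuous_iff_continuousAt.mpr fun t => (hf t).continuousAt
  have hd : ∀ v ∈ Set.uIcc (0:ℝ) η, HasDerivAt (fun v => (1 - v / η) * ‖f (s + v)‖ ^ 2)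
      (-(1 / η) * ‖f (s + v)‖ ^ 2 + (1 - v / η) * (2 * inner ℝ (f (s + v)) (g (s + v)))) v := by
    intro v _
    have h1 : HasDerivAt (fun v : ℝ => 1 - v / η) (-(1 / η)) v := by
      have := ((hasDerivAt_id v).div_const η).const_sub 1
      simpa using this
    have h2 : HasDerivAt (fun v => f (s + v)) (g (s + v)) v := by
      have h3 := (hf (s + v)).comp_const_add s v
      exact h3
    exact h1.mul h2.norm_sq
  have hc : Continuous fun v => -(1 / η) * ‖f (s + v)‖ ^ 2 + (1 - v / η) * (2 * inner ℝ (f (s + v)) (g (s + v))) := by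
    fun_prop
  have h1 := intervalIntegral.integral_eq_sub_of_hasDerivAt hd (hc.intervalIntegrable _ _)
  have h2 : ‖f s‖ ^ 2 = ∫ v in (0:ℝ)..η, -(-(1 / η) * ‖f (s + v)‖ ^ 2 +
      (1 - v / η) * (2 * inner ℝ (f (s + v)) (g (s + v)))) := by
    rw [intervalIntegral.integral_neg, h1]
    simp [hη.ne']
  rw [h2]
  refine intervalIntegral.integral_mono_on hη.le (hc.neg.intervalIntegrable _ _)
    (Continuous.intervalIntegrable (by fun_prop) _ _) fun v hv => ?_
  have h3 := abs_real_inner_le_norm (f (s + v)) (g (s + v))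
  have h4 : |1 - v / η| ≤ 1 := by
    have : 0 ≤ v / η := div_nonneg hv.1 hη.le
    have : v / η ≤ 1 := by rw [div_le_one hη]; exact hv.2
    rw [abs_le]; constructor <;> linarith
  have h5 : -((1 - v / η) * (2 * inner ℝ (f (s + v)) (g (s + v)))) ≤ 2 * (‖f (s + v)‖ * ‖g (s + v)‖) := by
    refine (neg_le_abs _).trans ?_
    rw [abs_mul, abs_mul, abs_two]
    have h6 : 0 ≤ 2 * |inner ℝ (f (s + v)) (g (s + v))| := by positivity
    calc |1 - v / η| * (2 * |inner ℝ (f (s + v)) (g (s + v))|) ≤ 1 * (2 * |inner ℝ (f (s + v)) (g (s + v))|) :=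
          mul_le_mul_of_nonneg_right h4 h6
      _ ≤ _ := by linarith
  have h6 : 2 * (‖f (s + v)‖ * ‖g (s + v)‖) ≤ 1 / η * ‖f (s + v)‖ ^ 2 + η * ‖g (s + v)‖ ^ 2 := by
    have h7 : 0 ≤ η * (‖g (s + v)‖ - 1 / η * ‖f (s + v)‖) ^ 2 := by positivity
    have h8 : η * (‖g (s + v)‖ - 1 / η * ‖f (s + v)‖) ^ 2 =
        1 / η * ‖f (s + v)‖ ^ 2 + η * ‖g (s + v)‖ ^ 2 - 2 * (‖f (s + v)‖ * ‖g (s + v)‖) := by
      field_simp
      ring
    linarith
  have h9 : 2 / η * ‖f (s + v)‖ ^ 2 = 1 / η * ‖f (s + v)‖ ^ 2 + 1 / η * ‖f (s + v)‖ ^ 2 := by ring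
  linarith

/-- the Dirichlet polynomials -/
noncomputable def DD (J : ℝ → ℕ) (n R : ℕ) (a y t : ℝ) : ℂ :=
  ∏ i ∈ range (J y), TE (Kd n R i) (Z y (fun _ => (a : ℂ)) i t)

theorem DD_DP {y c : ℝ} {J : ℝ → ℕ} (hR : Rg c (J y) (II y) (bb y)) (hy : 1 ≤ y) (n R : ℕ) (a : ℝ) :
    ∃ P : Set ℕ, DP P (∏ i ∈ range (J y), (bb y i) ^ (Kd n R i))
      (Real.exp (∑ i ∈ range (J y), ∑ p ∈ II y i, a ^ 2 / p)) (DD J n R a y) := by
  have hb1 : ∀ i < J y, 1 ≤ bb y i := fun i hi => by linarith [hR.b10 i hi]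
  set cp : ℕ → ℂ := fun _ => (a : ℂ) with hcp
  have h1 := DP.prod (J y) (fun i => ((II y i : Finset ℕ) : Set ℕ)) (fun i => (bb y i) ^ (Kd n R i))
    (fun i => Real.exp (∑ p ∈ II y i, ‖cp p‖ ^ 2 / p)) (fun i t => TE (Kd n R i) (Z y cp i t))
    (fun i hi => by
      have h2 := DP.texp (A := II y i) (fun p hp => (mem_II.mp hp).1) (b := bb y i)
        (fun p hp => (mem_II.mp hp).2.2.2) (hb1 i hi) (fun p => cp p * (p : ℂ) ^ (-(1 / 2 : ℂ))) (Kd n R i)
      rw [Z_sq] at h2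
      have e : (fun t => TE (Kd n R i) (Z y cp i t)) = fun t => ∑ k ∈ range (Kd n R i + 1),
          (∑ p ∈ II y i, (cp p * (p : ℂ) ^ (-(1 / 2 : ℂ))) * chi t p) ^ k / (k.factorial : ℂ) := by
        funext t
        unfold TE
        rw [Z_chi]
      rw [e]
      exact h2)
    (fun i j hij _ p _ hpi hpj => by
      exact (Finset.disjoint_left.mp (II_disj hy hij)) (Finset.mem_coe.mp hpi) (Finset.mem_coe.mp hpj))
  refine ⟨⋃ i ∈ Set.Iio (J y), ((II y i : Finset ℕ) : Set ℕ), ?_⟩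
  rw [Real.exp_sum]
  have e3 : ∀ p : ℕ, ‖cp p‖ ^ 2 = a ^ 2 := fun p => by
    simp only [hcp, Complex.norm_real, Real.norm_eq_abs, sq_abs]
  simp_rw [e3] at h1
  exact h1

end Pool.Agent.V11104.MM
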