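import Mathlib
import Pool.Agent.V11104.MM.Sob

set_option autoImplicit false

/-!
A majorant for the values of zeta near a point: the theorem.
-/

namespace Pool.Agent.V11104.MM

open Finset Filter Topology MeasureTheory
open scoped ENNReal
open Pool.Agent.W184.NZ (bb II vI Rg mem_II bb_pos log_bb bb_le II_disj PF mem_PF sum_II)
open Pool.Agent.V11104.SM

/-- the parameters -/
lemma par {T : ℝ} (hT4 : 4 ≤ T) {δ : ℝ} (hδ : 0 < δ) (hδ2 : δ ≤ 1 / 2) {j₀ : ℕ} (hj1 : (2:ℝ) ^ j₀ ≤ T)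
    (hj2 : T < 2 ^ (j₀ + 1)) (b : ℕ) (hb : b < 3) : T ^ (δ / 2) ≤ ((2:ℝ) ^ (j₀ + b)) ^ δ ∧
      ((2:ℝ) ^ (j₀ + b)) ^ δ ≤ T ∧ Real.log (((2:ℝ) ^ (j₀ + b)) ^ δ) ≤ 2 * δ * Real.log T := by
  have hT0 : 0 < T := by linarith
  have hT1 : 1 < T := by linarith
  have hlT : 0 < Real.log T := Real.log_pos hT1
  set U : ℝ := (2:ℝ) ^ (j₀ + b) with hU
  have hU0 : 0 < U := by positivity
  have u1 : (2:ℝ) ^ j₀ ≤ U := pow_le_pow_right₀ (by norm_num) (by omega)
  have u2 : U ≤ (2:ℝ) ^ (j₀ + 2) := pow_le_pow_right₀ (by norm_num) (by omega)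
  have u3 : (2:ℝ) ^ (j₀ + 2) = 4 * 2 ^ j₀ := by rw [pow_add]; ring
  have u4 : (2:ℝ) ^ (j₀ + 1) = 2 * 2 ^ j₀ := by rw [pow_add]; ring
  have u5 : T / 2 ≤ U := by linarith
  have u6 : U ≤ T ^ 2 := by nlinarith
  have u7 : T ^ (1 / 2 : ℝ) ≤ T / 2 := by
    rw [← Real.sqrt_eq_rpow]
    have h8 : (2:ℝ) ≤ Real.sqrt T := Real.le_sqrt_of_sq_le (by linarith)
    have h9 := Real.mul_self_sqrt hT0.le
    nlinarith
  refine ⟨?_, ?_, ?_⟩
  · have e : T ^ (δ / 2) = (T ^ (1 / 2 : ℝ)) ^ δ := by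
      rw [← Real.rpow_mul hT0.le]; congr 1; ring
    rw [e]
    exact Real.rpow_le_rpow (by positivity) (u7.trans u5) hδ.le
  · calc U ^ δ ≤ (T ^ 2) ^ δ := Real.rpow_le_rpow hU0.le u6 hδ.le
      _ = T ^ (2 * δ) := by rw [← Real.rpow_natCast, ← Real.rpow_mul hT0.le]; norm_num
      _ ≤ T ^ (1:ℝ) := Real.rpow_le_rpow_of_exponent_le hT1.le (by linarith)
      _ = T := Real.rpow_one T
  · rw [Real.log_rpow hU0]
    have h8 : Real.log U ≤ 2 * Real.log T := by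
      have h9 := Real.log_le_log hU0 u6
      have h10 : Real.log (T ^ 2) = 2 * Real.log T := by rw [Real.log_pow]; norm_num
      linarith
    nlinarith

/-- the pointwise bound -/
lemma pt_bound {c : ℝ} {J : ℝ → ℕ} (hJ : ∀ y, 144 ≤ y → Rg c (J y) (II y) (bb y) ∧ bb y (J y) < 144)
    {n R : ℕ} (hn : 1 ≤ n) (hR : 1 ≤ R) {W y s a : ℝ} (hW : 0 ≤ W) (hy144 : 144 ≤ y) (ha : |a| ≤ n)
    (h0 : riemannZeta (1 / 2 + s * Complex.I) ≠ 0)
    (h1 : |Real.log ‖riemannZeta (1 / 2 + s * Complex.I)‖ - PS y s| ≤ W)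
    (h2 : ∀ i : ℕ, ‖Z y 1 i s‖ ≤ 2 * ((R:ℝ) + i)) :
    ‖riemannZeta (1 / 2 + s * Complex.I)‖ ^ (2 * a) ≤
      Real.exp (2 * n * (W + 144)) * (4 * ‖DD J n R a y s‖ ^ 2) := by
  have eZ : ∀ i, Z y (fun _ => (a : ℂ)) i s = (a : ℂ) * Z y 1 i s := by
    intro i
    unfold Z
    rw [Finset.mul_sum]
    refine sum_congr rfl fun p _ => ?_
    simp only [Pi.one_apply, one_mul]
  have hZ : ∀ i < J y, ‖Z y (fun _ => (a : ℂ)) i s‖ ≤ n * (2 * (R + i)) := by
    intro i _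
    rw [eZ, norm_mul, Complex.norm_real, Real.norm_eq_abs]
    exact mul_le_mul ha (h2 i) (norm_nonneg _) (Nat.cast_nonneg _)
  have hmaj := majorant hn hR hZ
  have hb := blocks hy144 (hJ y hy144).2 s
  have e1 : ∑ i ∈ range (J y), (Z y (fun _ => (a : ℂ)) i s).re = a * ∑ i ∈ range (J y), (Z y 1 i s).re := by
    simp_rw [eZ, Complex.re_ofReal_mul, Finset.mul_sum]
  have h3 : |Real.log ‖riemannZeta (1 / 2 + s * Complex.I)‖ - ∑ i ∈ range (J y), (Z y 1 i s).re| ≤ W + 144 := by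
    have := abs_sub_le (Real.log ‖riemannZeta (1 / 2 + s * Complex.I)‖) (PS y s)
      (∑ i ∈ range (J y), (Z y 1 i s).re)
    rw [abs_sub_comm (PS y s)] at this
    linarith
  have h4 : 2 * a * Real.log ‖riemannZeta (1 / 2 + s * Complex.I)‖ ≤
      2 * n * (W + 144) + 2 * ∑ i ∈ range (J y), (Z y (fun _ => (a : ℂ)) i s).re := by
    rw [e1]
    have h5 : a * (Real.log ‖riemannZeta (1 / 2 + s * Complex.I)‖ - ∑ i ∈ range (J y), (Z y 1 i s).re) ≤
        n * (W + 144) := by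
      refine (le_abs_self _).trans ?_
      rw [abs_mul]
      exact mul_le_mul ha h3 (abs_nonneg _) (Nat.cast_nonneg _)
    linarith
  rw [Real.rpow_def_of_pos (norm_pos_iff.mpr h0), mul_comm (Real.log _)]
  refine (Real.exp_le_exp.mpr h4).trans ?_
  rw [Real.exp_add]
  refine mul_le_mul_of_nonneg_left ?_ (Real.exp_pos _).le
  have e4 : Real.exp (2 * ∑ i ∈ range (J y), (Z y (fun _ => (a : ℂ)) i s).re) =
      (Real.exp (∑ i ∈ range (J y), (Z y (fun _ => (a : ℂ)) i s).re)) ^ 2 := by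
    rw [← Real.exp_nat_mul]; norm_num
  rw [e4]
  calc (Real.exp (∑ i ∈ range (J y), (Z y (fun _ => (a : ℂ)) i s).re)) ^ 2 ≤ (2 * ‖DD J n R a y s‖) ^ 2 :=
        pow_le_pow_left₀ (Real.exp_pos _).le hmaj 2
    _ = _ := by ring

/-- the majorant -/
theorem maj {θ W δ : ℝ} {n R : ℕ} (hn : 1 ≤ n) (hR : 1 ≤ R) (hW : 0 ≤ W)
    (hδ : 0 < δ) (hδ2 : δ ≤ 1 / 2) (hlen : 216 * n * (R + 1) * δ ≤ θ) {E : Set ℝ} (hD : Dat W R δ E) :
    ∃ C : ℝ, 0 < C ∧ ∀ᶠ T : ℝ in atTop, ∀ H : ℝ, T ^ θ ≤ H → H ≤ T → ∀ a : ℝ, |a| ≤ n →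
      ∃ F : ℝ → ℝ≥0∞, Measurable F ∧
      (∀ s ∈ E, T ≤ s → s ≤ 2 * T + 1 → zk E a s ≤ ∫⁻ v in Set.Icc 0 (1 / Real.log T), F (s + v)) ∧
      ∫⁻ s in Set.Icc T (T + H + 2), F s ≤ ENNReal.ofReal (C * H * Real.log T ^ (1 + a ^ 2)) := by
  obtain ⟨c, hc0, hc⟩ := Pool.Agent.W184.NZ.ranges
  have hJex : ∀ y : ℝ, ∃ J : ℕ, 144 ≤ y → Rg c J (II y) (bb y) ∧ bb y J < 144 := by
    intro y
    by_cases hy : 144 ≤ y
    · obtain ⟨J, h1, _, h2, _⟩ := hc y hy
      exact ⟨J, fun _ => ⟨h1, h2⟩⟩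
    · exact ⟨0, fun h => absurd h hy⟩
  choose J hJ using hJex
  obtain ⟨C₄, hC₄, he⟩ := eul (δ / 2) (by positivity)
  obtain ⟨C₀, hC₀, hz⟩ := zeta_near
  have hC₀0 : 0 < C₀ := by linarith
  have hn1 : (1:ℝ) ≤ n := by exact_mod_cast hn
  have hθ : 0 < θ := lt_of_lt_of_le (by positivity) hlen
  set C₁ : ℝ := Real.exp (2 * n * (W + 144)) with hC₁
  have hC₁0 : 0 < C₁ := Real.exp_pos _
  set C₂ : ℝ := Real.exp ((n:ℝ) ^ 2 * C₄) * C₀ ^ ((n:ℝ) ^ 2) with hC₂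
  have hC₂0 : 0 < C₂ := by positivity
  refine ⟨180 * C₁ * C₂, by positivity, ?_⟩
  have t1 : ∀ᶠ T : ℝ in atTop, 144 ≤ T ^ (δ / 2) := (tendsto_rpow_atTop (by positivity)).eventually_ge_atTop 144
  filter_upwards [he, t1, eventually_ge_atTop (4:ℝ), Real.tendsto_log_atTop.eventually_ge_atTop 1] with
    T heT hT144 hT4 hL1 H hH1 hH2 a ha
  have hT0 : 0 < T := by linarith
  have hT1 : 1 < T := by linarith
  set L := Real.log T with hLd
  have hL : 0 < L := by linarith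
  have hH1' : 1 ≤ H := (Real.one_le_rpow hT1.le hθ.le).trans hH1
  have hH0 : 0 < H := by linarith
  obtain ⟨j₀, hj1, hj2⟩ := exists_nat_pow_near hT1.le (by norm_num : (1:ℝ) < 2)
  have hpar := par hT4 hδ hδ2 hj1 hj2
  have ha2 : a ^ 2 ≤ (n:ℝ) ^ 2 := by
    rw [← sq_abs a]; exact pow_le_pow_left₀ (abs_nonneg _) ha 2
  -- the exponents
  have hζ : Real.log ‖riemannZeta (1 + 1 / L + ((0:ℝ) : ℂ) * Complex.I)‖ ≤ Real.log (C₀ * L) := by
    have h1 : ‖riemannZeta (1 + 1 / L + ((0:ℝ) : ℂ) * Complex.I)‖ ≤ C₀ * L := by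
      have h2 := hz (1 / L) (by positivity) (by rw [div_le_one hL]; exact hL1) 0 (by simp)
      have hcast : (1 / (L:ℂ)) = ((1 / L : ℝ) : ℂ) := by push_cast; rfl
      rw [hcast]
      refine h2.trans (le_of_eq ?_)
      rw [abs_zero, add_zero]
      field_simp
    have hne : riemannZeta (1 + 1 / L + ((0:ℝ) : ℂ) * Complex.I) ≠ 0 := by
      refine riemannZeta_ne_zero_of_one_lt_re ?_
      have e : (1 + 1 / (L : ℂ) + ((0:ℝ) : ℂ) * Complex.I).re = 1 + 1 / L := by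
        have : (1 / (L : ℂ)) = ((1 / L : ℝ) : ℂ) := by push_cast; rfl
        rw [this]
        simp
      rw [e]
      have : 0 < 1 / L := by positivity
      linarith
    exact Real.log_le_log (norm_pos_iff.mpr hne) h1
  have hQ : ∀ b : ℕ, b < 3 → Real.exp (∑ i ∈ range (J (((2:ℝ) ^ (j₀ + b)) ^ δ)), ∑ p ∈ II (((2:ℝ) ^ (j₀ + b)) ^ δ) i,
      a ^ 2 / p) ≤ C₂ * L ^ (a ^ 2) := by
    intro b hb
    obtain ⟨p1, p2, p3⟩ := hpar b hb
    set y : ℝ := ((2:ℝ) ^ (j₀ + b)) ^ δ with hy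
    have hy144 : 144 ≤ y := hT144.trans p1
    have hy1 : 1 ≤ y := by linarith
    have hy0 : 0 ≤ y := by linarith
    have h1 : ∑ i ∈ range (J y), ∑ p ∈ II y i, a ^ 2 / (p:ℝ) ≤ a ^ 2 * (C₄ + Real.log (C₀ * L)) := by
      rw [sum_II hy1 (fun p => a ^ 2 / (p:ℝ)) (J y)]
      have hBA : PF y (bb y (J y)) ⊆ PP y := by
        intro p hp
        rw [mem_PF hy0] at hp
        exact (mem_PP hy0).mpr ⟨hp.1, hp.2.2.2⟩
      have h2 : ∑ p ∈ PF y (bb y (J y)), a ^ 2 / (p:ℝ) ≤ ∑ p ∈ PP y, a ^ 2 / (p:ℝ) :=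
        sum_le_sum_of_subset_of_nonneg hBA fun _ _ _ => by positivity
      refine h2.trans ?_
      have h3 : ∑ p ∈ PP y, a ^ 2 / (p:ℝ) = a ^ 2 * (∑ p ∈ PP y, (p : ℂ) ^ (-(1 + ((0:ℝ) : ℂ) * Complex.I))).re := by
        rw [Complex.re_sum, Finset.mul_sum]
        refine sum_congr rfl fun p _ => ?_
        have e : (p : ℂ) ^ (-(1 + ((0:ℝ) : ℂ) * Complex.I)) = (((p:ℝ)⁻¹ : ℝ) : ℂ) := by
          rw [Complex.ofReal_zero, zero_mul, add_zero, Complex.cpow_neg_one]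
          push_cast
          rfl
        rw [e, Complex.ofReal_re, div_eq_mul_inv]
      rw [h3]
      refine mul_le_mul_of_nonneg_left ?_ (sq_nonneg a)
      have h4 := (abs_le.mp (heT y p1 p2 0)).2
      linarith
    have h5 : 1 ≤ C₀ * L := by nlinarith
    calc Real.exp (∑ i ∈ range (J y), ∑ p ∈ II y i, a ^ 2 / (p:ℝ)) ≤ Real.exp (a ^ 2 * (C₄ + Real.log (C₀ * L))) :=
          Real.exp_le_exp.mpr h1
      _ = Real.exp (a ^ 2 * C₄) * (C₀ ^ (a ^ 2) * L ^ (a ^ 2)) := by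
          rw [← Real.mul_rpow hC₀0.le hL.le, Real.rpow_def_of_pos (by positivity), ← Real.exp_add]
          congr 1
          ring
      _ ≤ Real.exp ((n:ℝ) ^ 2 * C₄) * (C₀ ^ ((n:ℝ) ^ 2) * L ^ (a ^ 2)) := by
          have h6 : Real.exp (a ^ 2 * C₄) ≤ Real.exp ((n:ℝ) ^ 2 * C₄) :=
            Real.exp_le_exp.mpr (mul_le_mul_of_nonneg_right ha2 hC₄)
          have h7 : C₀ ^ (a ^ 2) ≤ C₀ ^ ((n:ℝ) ^ 2) := Real.rpow_le_rpow_of_exponent_le hC₀ ha2
          have h8 : 0 ≤ L ^ (a ^ 2) := Real.rpow_nonneg hL.le _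
          gcongr
      _ = C₂ * L ^ (a ^ 2) := by rw [hC₂]; ring
  -- the derivatives
  have hg : ∀ b : ℕ, ∃ g : ℝ → ℂ, Continuous g ∧ (b < 3 →
      (∀ t, HasDerivAt (DD J n R a (((2:ℝ) ^ (j₀ + b)) ^ δ)) (g t) t) ∧
      ∫ t in T..(T + (H + 2)), ‖DD J n R a (((2:ℝ) ^ (j₀ + b)) ^ δ) t‖ ^ 2 ≤ 5 * H * (C₂ * L ^ (a ^ 2)) ∧
      ∫ t in T..(T + (H + 2)), ‖g t‖ ^ 2 ≤ 5 * H * (L ^ 2 * (C₂ * L ^ (a ^ 2)))) := by
    intro b
    by_cases hb : b < 3
    · obtain ⟨p1, p2, p3⟩ := hpar b hb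
      have hQb := hQ b hb
      set y : ℝ := ((2:ℝ) ^ (j₀ + b)) ^ δ with hy
      have hy144 : 144 ≤ y := hT144.trans p1
      have hy1 : 1 ≤ y := by linarith
      obtain ⟨P, hDP⟩ := DD_DP (J := J) (hJ y hy144).1 hy1 n R a
      obtain ⟨g, hg1, hg2⟩ := DP_deriv hDP
      set N : ℝ := ∏ i ∈ range (J y), (bb y i) ^ (Kd n R i) with hN
      have hN1 : 1 ≤ N := by
        calc (1:ℝ) = ∏ _i ∈ range (J y), (1:ℝ) := by simp
          _ ≤ _ := prod_le_prod (fun _ _ => zero_le_one) fun i hi => one_le_pow₀ (by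
            linarith [(hJ y hy144).1.b10 i (mem_range.mp hi)])
      have hN2 : N ^ 2 ≤ H := by
        have h1 := len y hy1 n R (J y)
        refine (pow_le_pow_left₀ (by linarith) h1 2).trans (le_trans ?_ hH1)
        rw [← Real.exp_nat_mul, Real.rpow_def_of_pos hT0]
        refine Real.exp_le_exp.mpr ?_
        have h3 : 0 ≤ 108 * (n:ℝ) * (R + 1) := by positivity
        have h4 := mul_le_mul_of_nonneg_left p3 h3
        have h5 := mul_le_mul_of_nonneg_right hlen hL.le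
        push_cast
        nlinarith
      have hNT : N ≤ T := by nlinarith
      have hlN : 0 ≤ Real.log N := Real.log_nonneg hN1
      have hlN2 : Real.log N ≤ L := Real.log_le_log (by linarith) hNT
      have m1 := hDP.mean hN1 T (H := H + 2) (by linarith)
      have m2 := hg2.mean hN1 T (H := H + 2) (by linarith)
      set Q : ℝ := Real.exp (∑ i ∈ range (J y), ∑ p ∈ II y i, a ^ 2 / (p:ℝ)) with hQd
      have hQ0 : 0 < Q := Real.exp_pos _
      have h5H : H + 2 + 2 * N ^ 2 ≤ 5 * H := by linarith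
      refine ⟨g, hg2.cont, fun _ => ⟨hg1, m1.trans ?_, m2.trans ?_⟩⟩
      · exact mul_le_mul h5H hQb hQ0.le (by positivity)
      · refine mul_le_mul h5H ?_ (by positivity) (by positivity)
        exact mul_le_mul (pow_le_pow_left₀ hlN hlN2 2) hQb hQ0.le (by positivity)
    · exact ⟨fun _ => 0, continuous_const, fun h => absurd h hb⟩
  choose g hgc hg using hg
  set Dp : ℕ → ℝ → ℂ := fun b => DD J n R a (((2:ℝ) ^ (j₀ + b)) ^ δ) with hDp
  have hDc : ∀ b, b < 3 → Continuous (Dp b) := fun b hb =>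
    continuous_iff_continuousAt.mpr fun t => ((hg b hb).1 t).continuousAt
  set Φ : ℕ → ℝ → ℝ := fun b s => C₁ * (4 * (2 / (1 / L) * ‖Dp b s‖ ^ 2 + 1 / L * ‖g b s‖ ^ 2)) with hΦ
  have hΦc : ∀ b, b < 3 → Continuous (Φ b) := by
    intro b hb
    have h1 := hDc b hb
    have h2 := hgc b
    simp only [hΦ]
    fun_prop
  have hΦ0 : ∀ b s, 0 ≤ Φ b s := by
    intro b s
    simp only [hΦ]
    positivity
  set Ψ : ℝ → ℝ := fun s => ∑ b ∈ range 3, Φ b s with hΨ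
  have hΨc : Continuous Ψ := continuous_finsetSum _ fun b hb => hΦc b (mem_range.mp hb)
  have hΨ0 : ∀ s, 0 ≤ Ψ s := fun s => sum_nonneg fun b _ => hΦ0 b s
  refine ⟨fun s => ENNReal.ofReal (Ψ s), ENNReal.measurable_ofReal.comp hΨc.measurable, ?_, ?_⟩
  · intro s hs hs1 hs2
    have hb : ∃ b, b < 3 ∧ (2:ℝ) ^ (j₀ + b) ≤ s ∧ s < 2 ^ (j₀ + b + 1) := by
      have u0 : (2:ℝ) ^ j₀ ≤ s := by linarith
      have u4 : (2:ℝ) ^ (j₀ + 1) = 2 * 2 ^ j₀ := by rw [pow_add]; ring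
      have u5 : (2:ℝ) ^ (j₀ + 2) = 4 * 2 ^ j₀ := by rw [pow_add]; ring
      have u6 : (2:ℝ) ^ (j₀ + 3) = 8 * 2 ^ j₀ := by rw [pow_add]; ring
      have u7 : s < 2 ^ (j₀ + 3) := by linarith
      rcases lt_or_ge s (2 ^ (j₀ + 1)) with v1 | v1
      · exact ⟨0, by norm_num, u0, v1⟩
      rcases lt_or_ge s (2 ^ (j₀ + 2)) with v2 | v2
      · exact ⟨1, by norm_num, v1, v2⟩
      · exact ⟨2, by norm_num, v2, u7⟩
    obtain ⟨b, hb3, hb1, hb2⟩ := hb
    obtain ⟨p1, p2, p3⟩ := hpar b hb3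
    obtain ⟨q1, q2, q3⟩ := hD (j₀ + b) s hs hb1 hb2
    have hpt := pt_bound hJ hn hR hW (hT144.trans p1) ha q1 q2 q3
    have hso := sob (hg b hb3).1 (hgc b) (show (0:ℝ) < 1 / L by positivity) s
    have h1 : ‖riemannZeta (1 / 2 + s * Complex.I)‖ ^ (2 * a) ≤ ∫ v in (0:ℝ)..(1 / L), Φ b (s + v) := by
      have e : ∫ v in (0:ℝ)..(1 / L), Φ b (s + v) = C₁ * (4 * ∫ v in (0:ℝ)..(1 / L),
          (2 / (1 / L) * ‖Dp b (s + v)‖ ^ 2 + 1 / L * ‖g b (s + v)‖ ^ 2)) := by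
        simp only [hΦ]
        rw [intervalIntegral.integral_const_mul, intervalIntegral.integral_const_mul]
      rw [e]
      refine hpt.trans ?_
      refine mul_le_mul_of_nonneg_left ?_ hC₁0.le
      exact mul_le_mul_of_nonneg_left hso (by norm_num)
    have h2 : ∫ v in (0:ℝ)..(1 / L), Φ b (s + v) ≤ ∫ v in (0:ℝ)..(1 / L), Ψ (s + v) := by
      refine intervalIntegral.integral_mono_on (by positivity)
        (((hΦc b hb3).comp (continuous_const.add continuous_id)).intervalIntegrable _ _)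
        ((hΨc.comp (continuous_const.add continuous_id)).intervalIntegrable _ _) fun v _ => ?_
      exact Finset.single_le_sum (f := fun b => Φ b (s + v)) (fun b _ => hΦ0 b _) (mem_range.mpr hb3)
    unfold zk
    rw [Set.indicator_of_mem hs]
    refine (ENNReal.ofReal_le_ofReal (h1.trans h2)).trans (le_of_eq ?_)
    rw [intervalIntegral.integral_of_le (by positivity), ← integral_Icc_eq_integral_Ioc]
    exact ofReal_integral_eq_lintegral_ofReal
      ((hΨc.comp (continuous_const.add continuous_id)).continuousOn.integrableOn_Icc)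
      (Filter.Eventually.of_forall fun v => hΨ0 _)
  · rw [← ofReal_integral_eq_lintegral_ofReal hΨc.continuousOn.integrableOn_Icc
      (Filter.Eventually.of_forall fun v => hΨ0 _)]
    refine ENNReal.ofReal_le_ofReal ?_
    rw [show T + H + 2 = T + (H + 2) by ring, integral_Icc_eq_integral_Ioc, ← intervalIntegral.integral_of_le (by linarith)]
    have h1 : ∫ s in T..(T + (H + 2)), Ψ s = ∑ b ∈ range 3, ∫ s in T..(T + (H + 2)), Φ b s :=
      intervalIntegral.integral_finsetSum fun b hb => (hΦc b (mem_range.mp hb)).intervalIntegrable _ _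
    rw [h1]
    have h2 : ∀ b ∈ range 3, ∫ s in T..(T + (H + 2)), Φ b s ≤ 60 * C₁ * C₂ * H * L ^ (1 + a ^ 2) := by
      intro b hb
      have hb3 := mem_range.mp hb
      obtain ⟨-, m1, m2⟩ := hg b hb3
      have e : ∫ s in T..(T + (H + 2)), Φ b s = C₁ * (4 * (2 / (1 / L) * (∫ s in T..(T + (H + 2)), ‖Dp b s‖ ^ 2) +
          1 / L * ∫ s in T..(T + (H + 2)), ‖g b s‖ ^ 2)) := by
        simp only [hΦ]
        have c1 : Continuous fun s => 2 / (1 / L) * ‖Dp b s‖ ^ 2 := by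
          have := hDc b hb3
          fun_prop
        have c2 : Continuous fun s => 1 / L * ‖g b s‖ ^ 2 := by
          have := hgc b
          fun_prop
        rw [intervalIntegral.integral_const_mul, intervalIntegral.integral_const_mul,
          intervalIntegral.integral_add (c1.intervalIntegrable _ _) (c2.intervalIntegrable _ _),
          intervalIntegral.integral_const_mul, intervalIntegral.integral_const_mul]
      rw [e]
      have e2 : (2:ℝ) / (1 / L) = 2 * L := by field_simp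
      rw [e2]
      have e3 : L ^ (1 + a ^ 2) = L * L ^ (a ^ 2) := by
        rw [Real.rpow_add hL, Real.rpow_one]
      rw [e3]
      have hLa : 0 ≤ L ^ (a ^ 2) := Real.rpow_nonneg hL.le _
      calc C₁ * (4 * (2 * L * (∫ s in T..(T + (H + 2)), ‖Dp b s‖ ^ 2) + 1 / L * ∫ s in T..(T + (H + 2)), ‖g b s‖ ^ 2))
          ≤ C₁ * (4 * (2 * L * (5 * H * (C₂ * L ^ (a ^ 2))) + 1 / L * (5 * H * (L ^ 2 * (C₂ * L ^ (a ^ 2)))))) := by
            refine mul_le_mul_of_nonneg_left ?_ hC₁0.le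
            refine mul_le_mul_of_nonneg_left ?_ (by norm_num)
            exact add_le_add (mul_le_mul_of_nonneg_left m1 (by positivity)) (mul_le_mul_of_nonneg_left m2 (by positivity))
        _ = 60 * C₁ * C₂ * H * (L * L ^ (a ^ 2)) := by
            field_simp
            ring
    calc ∑ b ∈ range 3, ∫ s in T..(T + (H + 2)), Φ b s ≤ ∑ _b ∈ range 3, 60 * C₁ * C₂ * H * L ^ (1 + a ^ 2) :=
          sum_le_sum h2
      _ = 180 * C₁ * C₂ * H * L ^ (1 + a ^ 2) := by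
          rw [Finset.sum_const, card_range, nsmul_eq_mul]
          push_cast
          ring

end Pool.Agent.V11104.MM
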