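import Mathlib
import Pool.Agent.V11104.MM.Maj

set_option autoImplicit false

/-!
Small powers of the integrals of large powers, and the lower bounds.
-/

namespace Pool.Agent.V11104.MM

open Finset Filter Topology MeasureTheory
open scoped ENNReal
open Pool.Agent.V11104.SM

/-- translations -/
lemma tr (F : ℝ → ℝ≥0∞) {v a b a' b' : ℝ} (h1 : a' ≤ a + v) (h2 : b + v ≤ b') :
    ∫⁻ t in Set.Icc a b, F (t + v) ≤ ∫⁻ s in Set.Icc a' b', F s := by
  rw [← lintegral_indicator measurableSet_Icc, ← lintegral_indicator measurableSet_Icc,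
    ← lintegral_add_right_eq_self ((Set.Icc a' b').indicator F) v]
  refine lintegral_mono fun t => ?_
  by_cases ht : t ∈ Set.Icc a b
  · rw [Set.indicator_of_mem ht, Set.indicator_of_mem (show t + v ∈ Set.Icc a' b' from
      ⟨by linarith [ht.1], by linarith [ht.2]⟩)]
  · rw [Set.indicator_of_notMem ht]
    exact zero_le

lemma meas2 {F : ℝ → ℝ≥0∞} (hF : Measurable F) : Measurable (Function.uncurry fun t u : ℝ => F (t + u)) := by
  have e : (Function.uncurry fun t u : ℝ => F (t + u)) = F ∘ fun z : ℝ × ℝ => z.1 + z.2 := rfl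
  rw [e]
  exact hF.comp (measurable_fst.add measurable_snd)

/-- double integrals -/
lemma dbl {F : ℝ → ℝ≥0∞} (hF : Measurable F) {a b η : ℝ} (hη : 0 ≤ η) {a' b' : ℝ} (h1 : a' ≤ a) (h2 : b + η ≤ b') :
    ∫⁻ t in Set.Icc a b, ∫⁻ v in Set.Icc 0 η, F (t + v) ≤ ENNReal.ofReal η * ∫⁻ s in Set.Icc a' b', F s := by
  rw [lintegral_lintegral_swap (meas2 hF).aemeasurable]
  calc ∫⁻ v in Set.Icc 0 η, ∫⁻ t in Set.Icc a b, F (t + v) ≤ ∫⁻ _v in Set.Icc 0 η, ∫⁻ s in Set.Icc a' b', F s := by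
        refine setLIntegral_mono' measurableSet_Icc fun v hv => tr F (by linarith [hv.1]) (by linarith [hv.2])
    _ = ENNReal.ofReal η * ∫⁻ s in Set.Icc a' b', F s := by
        rw [lintegral_const, Measure.restrict_apply_univ, Real.volume_Icc, sub_zero, mul_comm]

lemma zk_rpow {E : Set ℝ} {a r : ℝ} (hr : 0 < r) (s : ℝ) : zk E (a / r) s = zk E a s ^ (1 / r) := by
  have h0 : 0 < 1 / r := by positivity
  unfold zk
  by_cases hs : s ∈ E
  · rw [Set.indicator_of_mem hs, Set.indicator_of_mem hs,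
      ENNReal.ofReal_rpow_of_nonneg (Real.rpow_nonneg (norm_nonneg _) _) h0.le, ← Real.rpow_mul (norm_nonneg _)]
    congr 2
    ring
  · rw [Set.indicator_of_notMem hs, Set.indicator_of_notMem hs, ENNReal.zero_rpow_of_pos h0]

/-- small powers of the integrals of large powers -/
lemma gdr {E : Set ℝ} {F : ℝ → ℝ≥0∞} (hF : Measurable F) {a η r t : ℝ} (hη : 0 ≤ η) (hη1 : η ≤ 1)
    (hr : 0 < r) (hr1 : r ≤ 1)
    (hz : ∀ u ∈ Set.Icc (0:ℝ) 1, zk E a (t + u) ≤ ∫⁻ v in Set.Icc 0 η, F (t + u + v)) :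
    (∫⁻ u in Set.Icc (0:ℝ) 1, zk E (a / r) (t + u)) ^ r ≤
      ENNReal.ofReal η ^ r * ∫⁻ v in Set.Icc (0:ℝ) 2, F (t + v) := by
  set R₂ : ℝ≥0∞ := ∫⁻ v in Set.Icc (0:ℝ) 2, F (t + v) with hR₂
  set Q : ℝ → ℝ≥0∞ := fun u => ∫⁻ v in Set.Icc 0 η, F (t + u + v) with hQ
  have hQm : Measurable Q := by
    have h1 : Measurable fun s : ℝ => ∫⁻ v in Set.Icc 0 η, F (s + v) := (meas2 hF).lintegral_prod_right'
    exact h1.comp (measurable_const_add t)
  have hQR : ∀ u ∈ Set.Icc (0:ℝ) 1, Q u ≤ R₂ := by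
    intro u hu
    have e1 : Q u = ∫⁻ v in Set.Icc 0 η, (fun w => F (t + w)) (v + u) := by
      simp only [hQ]
      refine lintegral_congr fun v => ?_
      congr 1
      ring
    rw [e1]
    exact tr (fun w => F (t + w)) (by linarith [hu.1]) (by linarith [hu.2])
  have hQi : ∫⁻ u in Set.Icc (0:ℝ) 1, Q u ≤ ENNReal.ofReal η * R₂ := by
    have e1 : ∀ u, Q u = ∫⁻ v in Set.Icc 0 η, (fun w => F (t + w)) (u + v) := by
      intro u
      simp only [hQ]
      refine lintegral_congr fun v => ?_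
      congr 1
      ring
    simp_rw [e1]
    exact dbl (hF.comp (measurable_const_add t)) hη le_rfl (by linarith)
  have h0 : 0 < 1 / r := by positivity
  have h1r : 0 ≤ 1 / r - 1 := by
    rw [sub_nonneg, le_div_iff₀ hr]
    linarith
  have h1 : ∫⁻ u in Set.Icc (0:ℝ) 1, zk E (a / r) (t + u) ≤ ENNReal.ofReal η * R₂ ^ (1 / r) := by
    calc ∫⁻ u in Set.Icc (0:ℝ) 1, zk E (a / r) (t + u)
        ≤ ∫⁻ u in Set.Icc (0:ℝ) 1, R₂ ^ (1 / r - 1) * Q u := by
          refine setLIntegral_mono' measurableSet_Icc fun u hu => ?_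
          rw [zk_rpow hr]
          calc zk E a (t + u) ^ (1 / r) ≤ Q u ^ (1 / r) := ENNReal.rpow_le_rpow (hz u hu) h0.le
            _ = Q u ^ (1 / r - 1) * Q u := by
                have e : 1 / r = (1 / r - 1) + 1 := by ring
                conv_lhs => rw [e]
                rw [ENNReal.rpow_add_of_nonneg _ _ h1r zero_le_one, ENNReal.rpow_one]
            _ ≤ _ := by
                gcongr
                exact hQR u hu
      _ = R₂ ^ (1 / r - 1) * ∫⁻ u in Set.Icc (0:ℝ) 1, Q u := lintegral_const_mul _ hQm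
      _ ≤ R₂ ^ (1 / r - 1) * (ENNReal.ofReal η * R₂) := by gcongr
      _ = ENNReal.ofReal η * R₂ ^ (1 / r) := by
          have e : 1 / r = (1 / r - 1) + 1 := by ring
          conv_rhs => rw [e]
          rw [ENNReal.rpow_add_of_nonneg _ _ h1r zero_le_one, ENNReal.rpow_one]
          ring
  calc (∫⁻ u in Set.Icc (0:ℝ) 1, zk E (a / r) (t + u)) ^ r ≤ (ENNReal.ofReal η * R₂ ^ (1 / r)) ^ r :=
        ENNReal.rpow_le_rpow h1 hr.le
    _ = ENNReal.ofReal η ^ r * R₂ := by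
        rw [ENNReal.mul_rpow_of_nonneg _ _ hr.le, ← ENNReal.rpow_mul, one_div, inv_mul_cancel₀ hr.ne', ENNReal.rpow_one]

/-- Hölder's inequality -/
lemma hol {ν : Measure ℝ} {f g : ℝ → ℝ≥0∞} (hf : Measurable f) (hg : Measurable g) {q : ℕ} (hq : 1 ≤ q) :
    (∫⁻ t, f t ^ (1 / 2 : ℝ) * g t ^ (1 / 2 : ℝ) ∂ν) ^ (2 * q) ≤
      (∫⁻ t, f t ^ q ∂ν) * (∫⁻ t, g t ^ ((q:ℝ) / (2 * q - 1)) ∂ν) ^ (2 * q - 1) := by
  have hq1 : (1:ℝ) ≤ q := by exact_mod_cast hq
  set p : ℝ := 2 * q with hp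
  set p' : ℝ := 2 * q / (2 * q - 1) with hp'
  have h2 : (0:ℝ) < 2 * q - 1 := by linarith
  have hpp : p.HolderConjugate p' := by
    rw [Real.holderConjugate_iff]
    refine ⟨by linarith, ?_⟩
    rw [hp, hp']
    field_simp
    ring
  have hH := ENNReal.lintegral_mul_le_Lp_mul_Lq ν hpp (hf.pow_const (1 / 2 : ℝ)).aemeasurable
    (hg.pow_const (1 / 2 : ℝ)).aemeasurable
  have e1 : ∀ t, (f t ^ (1 / 2 : ℝ)) ^ p = f t ^ q := by
    intro t
    rw [← ENNReal.rpow_mul, ← ENNReal.rpow_natCast]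
    congr 1
    rw [hp]
    ring
  have e2 : ∀ t, (g t ^ (1 / 2 : ℝ)) ^ p' = g t ^ ((q:ℝ) / (2 * q - 1)) := by
    intro t
    rw [← ENNReal.rpow_mul]
    congr 1
    rw [hp']
    field_simp
  simp only [Pi.mul_apply] at hH
  simp_rw [e1, e2] at hH
  have h3 := pow_le_pow_left' hH (2 * q)
  refine h3.trans (le_of_eq ?_)
  rw [mul_pow, ← ENNReal.rpow_natCast, ← ENNReal.rpow_natCast (_ ^ (1 / p')), ← ENNReal.rpow_mul, ← ENNReal.rpow_mul]
  have e3 : 1 / p * ((2 * q : ℕ) : ℝ) = 1 := by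
    rw [hp]
    push_cast
    field_simp
  have e4 : 1 / p' * ((2 * q : ℕ) : ℝ) = ((2 * q - 1 : ℕ) : ℝ) := by
    rw [hp']
    have : ((2 * q - 1 : ℕ) : ℝ) = 2 * q - 1 := by
      rw [Nat.cast_sub (by omega)]
      push_cast
      ring
    rw [this]
    push_cast
    field_simp
  rw [e3, e4, ENNReal.rpow_one, ENNReal.rpow_natCast]

/-- Cauchy's inequality for the integrals over intervals of length one -/
lemma cs {E : Set ℝ} (hE : MeasurableSet E) (hne : ∀ s ∈ E, riemannZeta (1 / 2 + s * Complex.I) ≠ 0)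
    {a b d t : ℝ} (h : 2 * a = b + d) :
    ∫⁻ u in Set.Icc (0:ℝ) 1, zk E a (t + u) ≤
      (∫⁻ u in Set.Icc (0:ℝ) 1, zk E b (t + u)) ^ (1 / 2 : ℝ) * (∫⁻ u in Set.Icc (0:ℝ) 1, zk E d (t + u)) ^ (1 / 2 : ℝ) := by
  have hm : ∀ k, Measurable fun u => zk E k (t + u) := fun k => (zk_meas hE k).comp (measurable_const_add t)
  have hH := ENNReal.lintegral_mul_le_Lp_mul_Lq (volume.restrict (Set.Icc (0:ℝ) 1)) Real.HolderConjugate.two_two
    ((hm b).pow_const (1 / 2 : ℝ)).aemeasurable ((hm d).pow_const (1 / 2 : ℝ)).aemeasurable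
  have e1 : ∀ k u, (zk E k (t + u) ^ (1 / 2 : ℝ)) ^ (2:ℝ) = zk E k (t + u) := by
    intro k u
    rw [← ENNReal.rpow_mul]
    norm_num
  simp only [Pi.mul_apply, e1] at hH
  refine le_trans (lintegral_mono fun u => ?_) hH
  unfold zk
  by_cases hs : t + u ∈ E
  · rw [Set.indicator_of_mem hs, Set.indicator_of_mem hs, Set.indicator_of_mem hs,
      ENNReal.ofReal_rpow_of_nonneg (Real.rpow_nonneg (norm_nonneg _) _) (by norm_num),
      ENNReal.ofReal_rpow_of_nonneg (Real.rpow_nonneg (norm_nonneg _) _) (by norm_num),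
      ← ENNReal.ofReal_mul (Real.rpow_nonneg (Real.rpow_nonneg (norm_nonneg _) _) _),
      ← Real.rpow_mul (norm_nonneg _), ← Real.rpow_mul (norm_nonneg _)]
    refine ENNReal.ofReal_le_ofReal ?_
    have h0 : 0 < ‖riemannZeta (1 / 2 + ((t + u : ℝ) : ℂ) * Complex.I)‖ := norm_pos_iff.mpr (hne _ hs)
    rw [← Real.rpow_add h0]
    refine le_of_eq ?_
    congr 1
    linarith
  · rw [Set.indicator_of_notMem hs]
    exact zero_le

end Pool.Agent.V11104.MM
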