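import Mathlib
import Pool.Agent.V11104.MM.Sup
import Pool.Agent.V11104.MM.Inner
import Pool.Agent.V11104.MM.Fin3

set_option autoImplicit false

/-!
The set, with all bounds.
-/

namespace Pool.Agent.V11104.MM

open Finset Filter Topology MeasureTheory
open scoped ENNReal
open Pool.Agent.V11104.SM

/-- `x^(1 - α)` beats powers of the logarithm -/
lemma half_le (α : ℝ) : ∀ᶠ T : ℝ in atTop, T ^ (1 / 2 : ℝ) ≤ T / Real.log T ^ α := by
  have h := (isLittleO_log_rpow_rpow_atTop α (show (0:ℝ) < 1 / 2 by norm_num)).bound (show (0:ℝ) < 1 by norm_num)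
  filter_upwards [h, eventually_gt_atTop (1:ℝ), Real.tendsto_log_atTop.eventually_gt_atTop 0] with T h1 hT hL
  have hT0 : 0 < T := by linarith
  have hp : 0 < Real.log T ^ α := Real.rpow_pos_of_pos hL α
  rw [Real.norm_of_nonneg hp.le, Real.norm_of_nonneg (by positivity), one_mul] at h1
  rw [le_div_iff₀ hp]
  calc T ^ (1 / 2 : ℝ) * Real.log T ^ α ≤ T ^ (1 / 2 : ℝ) * T ^ (1 / 2 : ℝ) :=
        mul_le_mul_of_nonneg_left h1 (by positivity)
    _ = T := by rw [← Real.rpow_add hT0]; norm_num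

/-- small powers of the integrals of large powers -/
theorem small_pow {θ W δ : ℝ} {n R : ℕ} (hn : 1 ≤ n) (hR : 1 ≤ R) (hW : 0 ≤ W)
    (hδ : 0 < δ) (hδ2 : δ ≤ 1 / 2) (hlen : 216 * n * (R + 1) * δ ≤ θ) {E : Set ℝ} (hD : Dat W R δ E) :
    ∃ C : ℝ, 0 < C ∧ ∀ᶠ T : ℝ in atTop, ∀ H : ℝ, T ^ θ ≤ H → H ≤ T → ∀ a r : ℝ, |a| ≤ n → 0 < r → r ≤ 1 →
      ∫⁻ t in Set.Icc T (T + H), (∫⁻ u in Set.Icc (0:ℝ) 1, zk E (a / r) (t + u)) ^ r ≤
        ENNReal.ofReal (C * H * Real.log T ^ (1 - r + a ^ 2)) := by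
  obtain ⟨C, hC, h⟩ := maj hn hR hW hδ hδ2 hlen hD
  refine ⟨2 * C, by positivity, ?_⟩
  filter_upwards [h, Real.tendsto_log_atTop.eventually_ge_atTop 1, eventually_gt_atTop (0:ℝ)] with
    T hT hL1 hT0 H hH1 hH2 a r ha hr hr1
  obtain ⟨F, hF, h1, h2⟩ := hT H hH1 hH2 a ha
  set L := Real.log T with hLd
  have hL : 0 < L := by linarith
  have hH0 : 0 < H := lt_of_lt_of_le (Real.rpow_pos_of_pos hT0 _) hH1
  have hη : 0 ≤ 1 / L := by positivity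
  have hη1 : 1 / L ≤ 1 := by rw [div_le_one hL]; exact hL1
  calc ∫⁻ t in Set.Icc T (T + H), (∫⁻ u in Set.Icc (0:ℝ) 1, zk E (a / r) (t + u)) ^ r
      ≤ ∫⁻ t in Set.Icc T (T + H), ENNReal.ofReal (1 / L) ^ r * ∫⁻ v in Set.Icc (0:ℝ) 2, F (t + v) := by
        refine setLIntegral_mono' measurableSet_Icc fun t ht => ?_
        refine gdr hF hη hη1 hr hr1 fun u hu => ?_
        by_cases hs : t + u ∈ E
        · exact h1 (t + u) hs (by linarith [ht.1, hu.1]) (by linarith [ht.2, hu.2])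
        · have : zk E a (t + u) = 0 := by
            unfold zk
            exact Set.indicator_of_notMem hs _
          rw [this]
          exact zero_le
    _ = ENNReal.ofReal (1 / L) ^ r * ∫⁻ t in Set.Icc T (T + H), ∫⁻ v in Set.Icc (0:ℝ) 2, F (t + v) :=
        lintegral_const_mul _ (meas2 hF).lintegral_prod_right'
    _ ≤ ENNReal.ofReal (1 / L) ^ r * (ENNReal.ofReal 2 * ∫⁻ s in Set.Icc T (T + H + 2), F s) := by
        gcongr
        exact dbl hF (by norm_num) le_rfl le_rfl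
    _ ≤ ENNReal.ofReal ((1 / L) ^ r) * (ENNReal.ofReal 2 * ENNReal.ofReal (C * H * L ^ (1 + a ^ 2))) := by
        rw [ENNReal.ofReal_rpow_of_nonneg hη hr.le]
        gcongr
    _ = ENNReal.ofReal (2 * C * H * L ^ (1 - r + a ^ 2)) := by
        rw [← ENNReal.ofReal_mul (by norm_num), ← ENNReal.ofReal_mul (by positivity)]
        congr 1
        have e1 : L ^ (1 - r + a ^ 2) = L ^ (1 + a ^ 2) * L ^ (-r) := by
          rw [← Real.rpow_add hL]; congr 1; ring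
        have e2 : (1 / L) ^ r = L ^ (-r) := by
          rw [one_div, Real.inv_rpow hL.le, Real.rpow_neg hL.le]
        rw [e1, e2]
        ring

/-- the set, with all bounds -/
theorem pkg (K θ ε : ℝ) (N : ℕ) (hK : 0 ≤ K) (hθ : 0 < θ) (hε : 0 < ε) :
    ∃ (E : Set ℝ) (c C : ℝ), MeasurableSet E ∧ 0 < c ∧ 0 < C ∧
    (∀ t ∈ E, riemannZeta (1 / 2 + t * Complex.I) ≠ 0) ∧
    (∀ α : ℝ, 0 ≤ α → α < 1 → ∀ᶠ T : ℝ in atTop, ∀ H : ℝ, T / Real.log T ^ α ≤ H → H ≤ T →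
      (1 - ε) * H ≤ volume.real (Set.Icc T (T + H) ∩ E)) ∧
    (∀ β t : ℝ, IntegrableOn (fun u : ℝ => ‖riemannZeta (1 / 2 + ((t + u : ℝ) : ℂ) * Complex.I)‖ ^ β)
      {u : ℝ | u ∈ Set.Icc (0:ℝ) 1 ∧ t + u ∈ E}) ∧
    (∀ α : ℝ, 0 ≤ α → α < 1 → ∀ᶠ T : ℝ in atTop, ∀ H : ℝ, T / Real.log T ^ α ≤ H → H ≤ T → T ^ (min θ (1 / 2)) ≤ H ∧
      ∀ b : ℝ, |b| ≤ N * K + K →
        ENNReal.ofReal (c * Real.log T ^ (b ^ 2) * H) ≤ ∫⁻ s in Set.Icc (T + 1) (T + H), zk E b s) ∧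
    (∀ᶠ T : ℝ in atTop, ∀ H : ℝ, T ^ (min θ (1 / 2)) ≤ H → H ≤ T → ∀ m : ℕ, m + 1 ≤ N → ∀ k : ℝ, |k| ≤ K →
      ∫⁻ t in Set.Icc T (T + H), (∫⁻ u in Set.Icc (0:ℝ) 1, zk E k (t + u)) ^ (m + 1) ≤
        ENNReal.ofReal (C * H * Real.log T ^ (((m + 1 : ℕ) : ℝ) * k ^ 2) *
          (Iq (1 / Real.log T) (((m + 1 : ℕ) : ℝ) * k ^ 2)) ^ m)) ∧
    (∀ᶠ T : ℝ in atTop, ∀ H : ℝ, T ^ (min θ (1 / 2)) ≤ H → H ≤ T → ∀ a r : ℝ, |a| ≤ N * K + K → 0 < r → r ≤ 1 →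
      ∫⁻ t in Set.Icc T (T + H), (∫⁻ u in Set.Icc (0:ℝ) 1, zk E (a / r) (t + u)) ^ r ≤
        ENNReal.ofReal (C * H * Real.log T ^ (1 - r + a ^ 2))) ∧
    (∀ᶠ T : ℝ in atTop, ∀ H : ℝ, T ^ (min θ (1 / 2)) ≤ H → H ≤ T → ∀ a : ℝ, |a| ≤ N * K + K →
      ∃ F : ℝ → ℝ≥0∞, Measurable F ∧
      (∀ s ∈ E, T ≤ s → s ≤ 2 * T + 1 → zk E a s ≤ ∫⁻ v in Set.Icc 0 (1 / Real.log T), F (s + v)) ∧
      ∫⁻ s in Set.Icc T (T + H + 2), F s ≤ ENNReal.ofReal (C * H * Real.log T ^ (1 + a ^ 2))) := by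
  obtain ⟨θ', hθ', hθ0, hθ2⟩ : ∃ θ' : ℝ, θ' = min θ (1 / 2) ∧ 0 < θ' ∧ θ' ≤ 1 / 2 :=
    ⟨min θ (1 / 2), rfl, lt_min hθ (by norm_num), min_le_right _ _⟩
  rw [← hθ']
  set B : ℝ := N * K + K with hB
  have hNK : (0:ℝ) ≤ N * K := by positivity
  have hB0 : 0 ≤ B := by positivity
  have hKB : K ≤ B := by linarith
  obtain ⟨n, hn⟩ := exists_nat_ge (B + 1)
  have hn1 : 1 ≤ n := by
    have : (1:ℝ) ≤ n := by linarith
    exact_mod_cast this
  have hn1' : (1:ℝ) ≤ n := by exact_mod_cast hn1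
  set δ₀ : ℝ := min (1 / 2) (θ' / (216 * n)) with hδ₀
  have hδ₀0 : 0 < δ₀ := lt_min (by norm_num) (by positivity)
  obtain ⟨E, c₁, C₁, W, δ, R, mE, hc₁, hC₁, hW, hδ, hδδ, hR1, hRδ, hE, hEv⟩ :=
    a_FIN3 B (ε / 2) δ₀ hB0 (by positivity) hδ₀0
  have d1 : δ ≤ 1 / 2 := hδδ.trans (min_le_left _ _)
  have d2 : 216 * n * (R + 1) * δ ≤ θ' := by
    have h1 := hRδ.trans (min_le_right _ _)
    rw [le_div_iff₀ (by positivity)] at h1
    linarith
  set E' : Set ℝ := E ∩ Aw with hE'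
  have mE' : MeasurableSet E' := mE.inter Aw_meas
  have hD : Dat W R δ E' := by
    intro j t ht h1 h2
    obtain ⟨a1, a2, a3⟩ := hE j t ht.1 h1 h2
    refine ⟨norm_pos_iff.mp a1, a2, fun i => ?_⟩
    have h3 := a3 i
    have h4 : Z (((2:ℝ) ^ j) ^ δ) 1 i t =
        Pool.Agent.TH806.LK.zz (Pool.Agent.W184.NZ.II (((2:ℝ) ^ j) ^ δ)) t i := by
      unfold Z Pool.Agent.TH806.LK.zz Pool.Agent.W184.NZ.PI
      simp only [Pi.one_apply, one_mul]
    rw [h4]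
    exact h3
  obtain ⟨C₂, hC₂, hup⟩ := up2 (N := N) hn1 hR1 hK (by linarith) hW.le hδ d1 d2 mE' hD Set.inter_subset_right
  obtain ⟨C₃, hC₃, hsm⟩ := small_pow hn1 hR1 hW.le hδ d1 d2 hD
  obtain ⟨C₄, hC₄, hmj⟩ := maj hn1 hR1 hW.le hδ d1 d2 hD
  refine ⟨E', c₁ / 4, C₂ + C₃ + C₄, mE', by positivity, by positivity, ?_, ?_,
    fun β t => inner_int hδ.le (by linarith) mE' hD Set.inter_subset_right β t, ?_, ?_, ?_, ?_⟩
  · intro t ht
    obtain ⟨j, hj, hj'⟩ := exists_nat_pow_near (show (1:ℝ) ≤ t from ht.2.1) (by norm_num : (1:ℝ) < 2)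
    exact (hD j t ht hj hj').1
  · intro α h0 h1
    filter_upwards [hEv α h0 h1, half_le α, eventually_ge_atTop (4:ℝ),
      (tendsto_rpow_atTop (show (0:ℝ) < 1 / 2 by norm_num)).eventually_ge_atTop (12 / ε)] with T a1 a2 hT4 a3 H hH1 hH2
    have hTH := a2.trans hH1
    have hH0 : 0 ≤ H := le_trans (by positivity) hTH
    have b1 := (a1 H hH1 hH2).1
    have b2 := bad_meas hT4 hH0 hH2
    have b3 : 6 ≤ ε / 2 * H := by
      have h3 : 12 / ε ≤ H := a3.trans hTH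
      rw [div_le_iff₀ hε] at h3
      linarith
    have e1 : volume.real (Set.Icc T (T + H)) = H := by
      rw [Real.volume_real_Icc_of_le (by linarith)]; ring
    have e2 := measureReal_inter_add_sdiff (μ := volume) (s := Set.Icc T (T + H)) mE' (by
      rw [Real.volume_Icc]; exact ENNReal.ofReal_ne_top)
    rw [e1] at e2
    have hsub : Set.Icc T (T + H) \ E' ⊆ (Set.Icc T (T + H) ∩ Eᶜ) ∪ (Set.Icc T (T + H) ∩ Awᶜ) := by
      rintro t ⟨ht, htE⟩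
      by_cases h2 : t ∈ E
      · exact Or.inr ⟨ht, fun h3 => htE ⟨h2, h3⟩⟩
      · exact Or.inl ⟨ht, h2⟩
    have hf : volume ((Set.Icc T (T + H) ∩ Eᶜ) ∪ (Set.Icc T (T + H) ∩ Awᶜ)) ≠ ⊤ :=
      measure_ne_top_of_subset (Set.union_subset Set.inter_subset_left Set.inter_subset_left)
        (by rw [Real.volume_Icc]; exact ENNReal.ofReal_ne_top : volume (Set.Icc T (T + H)) ≠ ⊤)
    have b4 := (measureReal_mono (μ := volume) hsub hf).trans (measureReal_union_le _ _)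
    linarith
  · intro α h0 h1
    have hβ0 : 0 ≤ (1 + α) / 2 := by linarith
    have hβ1 : (1 + α) / 2 < 1 := by linarith
    have hαβ : α < (1 + α) / 2 := by linarith
    obtain ⟨T₁, hT₁⟩ := eventually_atTop.mp (hEv ((1 + α) / 2) hβ0 hβ1)
    filter_upwards [win_ev h0 hαβ, half_le α, eventually_ge_atTop (256:ℝ), eventually_ge_atTop T₁] with
      T a1 a2 hT hTT H hH1 hH2
    have hT0 : 0 < T := by linarith
    have hL : 0 < Real.log T := Real.log_pos (by linarith)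
    have hTH := a2.trans hH1
    have hH16 : 16 ≤ H := by
      refine le_trans ?_ hTH
      rw [← Real.sqrt_eq_rpow]
      exact Real.le_sqrt_of_sq_le (by linarith)
    have hH0 : 0 < H := by linarith
    refine ⟨(Real.rpow_le_rpow_of_exponent_le (by linarith) hθ2).trans hTH, fun b hb => ?_⟩
    obtain ⟨A, hA, hA1, hA2, hA3⟩ := free (by linarith) hH16 hH2
    have hAH := hT₁ A (hTT.trans hA.1) (H / 4) (a1 H hH1 A hA) (by linarith [hA.1])
    obtain ⟨i1, i2, -⟩ := hAH.2.2 b hb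
    have hLk : Real.log T ^ (b ^ 2) ≤ Real.log A ^ (b ^ 2) :=
      Real.rpow_le_rpow hL.le (Real.log_le_log hT0 hA.1) (sq_nonneg b)
    have s1 : ENNReal.ofReal (∫ t in Set.Icc A (A + H / 4) ∩ E, Pool.Agent.TH806.Xz t ^ (2 * b)) =
        ∫⁻ t in Set.Icc A (A + H / 4) ∩ E, ENNReal.ofReal (Pool.Agent.TH806.Xz t ^ (2 * b)) :=
      ofReal_integral_eq_lintegral_ofReal i1 (Filter.Eventually.of_forall fun t =>
        Real.rpow_nonneg (norm_nonneg _) _)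
    have s2 : c₁ / 4 * Real.log T ^ (b ^ 2) * H ≤
        ∫ t in Set.Icc A (A + H / 4) ∩ E, Pool.Agent.TH806.Xz t ^ (2 * b) := by
      refine le_trans ?_ i2
      have : c₁ * (H / 4 * Real.log T ^ (b ^ 2)) ≤ c₁ * (H / 4 * Real.log A ^ (b ^ 2)) := by gcongr
      linarith
    refine (ENNReal.ofReal_le_ofReal s2).trans ?_
    rw [s1]
    have s3 : ∫⁻ t in Set.Icc A (A + H / 4) ∩ E, ENNReal.ofReal (Pool.Agent.TH806.Xz t ^ (2 * b)) ≤
        ∫⁻ t in Set.Icc A (A + H / 4) ∩ E, zk E' b t := by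
      refine setLIntegral_mono' (measurableSet_Icc.inter mE) fun t ht => ?_
      unfold zk
      rw [Set.indicator_of_mem (show t ∈ E' from ⟨ht.2, hA3 ht.1⟩)]
      exact le_rfl
    refine s3.trans (lintegral_mono_set fun t ht => ?_)
    exact ⟨by linarith [ht.1.1], by linarith [ht.1.2]⟩
  · filter_upwards [hup, eventually_gt_atTop (1:ℝ)] with T a1 hT1 H hH1 hH2 m hm k hk
    have hT0 : 0 < T := by linarith
    have hL : 0 < Real.log T := Real.log_pos hT1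
    have hH0 : 0 < H := lt_of_lt_of_le (Real.rpow_pos_of_pos hT0 _) hH1
    have hI := Iq_pos (δ := 1 / Real.log T) (ρ := ((m + 1 : ℕ) : ℝ) * k ^ 2) (by positivity)
    refine (a1 H hH1 hH2 m hm k hk).trans (ENNReal.ofReal_le_ofReal ?_)
    have : C₂ ≤ C₂ + C₃ + C₄ := by linarith
    gcongr
  · filter_upwards [hsm, eventually_gt_atTop (1:ℝ)] with T a1 hT1 H hH1 hH2 a r ha hr hr1
    have hT0 : 0 < T := by linarith
    have hL : 0 < Real.log T := Real.log_pos hT1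
    have hH0 : 0 < H := lt_of_lt_of_le (Real.rpow_pos_of_pos hT0 _) hH1
    refine (a1 H hH1 hH2 a r (by linarith) hr hr1).trans (ENNReal.ofReal_le_ofReal ?_)
    have : C₃ ≤ C₂ + C₃ + C₄ := by linarith
    gcongr
  · filter_upwards [hmj, eventually_gt_atTop (1:ℝ)] with T a1 hT1 H hH1 hH2 a ha
    have hT0 : 0 < T := by linarith
    have hL : 0 < Real.log T := Real.log_pos hT1
    have hH0 : 0 < H := lt_of_lt_of_le (Real.rpow_pos_of_pos hT0 _) hH1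
    obtain ⟨F, hF, f1, f2⟩ := a1 H hH1 hH2 a (by linarith)
    refine ⟨F, hF, f1, f2.trans (ENNReal.ofReal_le_ofReal ?_)⟩
    have : C₄ ≤ C₂ + C₃ + C₄ := by linarith
    gcongr

end Pool.Agent.V11104.MM
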