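import Mathlib
import Pool.Agent.V11104.MM.Sup

set_option autoImplicit false

/-!
The lower bounds of the second kind.
-/

namespace Pool.Agent.V11104.MM

open Finset Filter Topology MeasureTheory
open scoped ENNReal
open Pool.Agent.V11104.SM

lemma Gi_int {E : Set ℝ} (hE : MeasurableSet E) {k : ℝ} {S : Set ℝ} {q : ℕ} (hq : 1 ≤ q)
    (hfin : ∫⁻ t in S, (∫⁻ u in Set.Icc (0:ℝ) 1, zk E k (t + u)) ^ q ≠ ⊤)
    (hi : IntegrableOn (fun t => Gi E k t ^ q) S) :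
    ∫⁻ t in S, (∫⁻ u in Set.Icc (0:ℝ) 1, zk E k (t + u)) ^ q = ENNReal.ofReal (∫ t in S, Gi E k t ^ q) := by
  rw [ofReal_integral_eq_lintegral_ofReal hi (Filter.Eventually.of_forall fun t => pow_nonneg (Gi_nonneg E k t) q)]
  refine lintegral_congr_ae ?_
  filter_upwards [ae_lt_top ((Gt_meas hE k).pow_const q) hfin] with t ht
  have h1 : ∫⁻ u in Set.Icc (0:ℝ) 1, zk E k (t + u) ≠ ⊤ := by
    intro h2
    rw [h2, ENNReal.top_pow (by omega)] at ht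
    exact lt_irrefl _ ht
  rw [ENNReal.ofReal_pow (Gi_nonneg E k t), Gi_eq hE, ENNReal.ofReal_toReal h1]

/-- the lower bounds of the second kind -/
lemma sup_low {E : Set ℝ} (hE : MeasurableSet E) (hne : ∀ s ∈ E, riemannZeta (1 / 2 + s * Complex.I) ≠ 0)
    {T H L a c C : ℝ} {q : ℕ} (hq : 1 ≤ q) (hL : 0 < L) (hH : 0 < H) (hc : 0 < c) (hC : 0 < C)
    (h1 : ENNReal.ofReal (c * L ^ (a ^ 2) * H) ≤ ∫⁻ s in Set.Icc (T + 1) (T + H), zk E a s)
    (h2 : ∫⁻ t in Set.Icc T (T + H), (∫⁻ u in Set.Icc (0:ℝ) 1, zk E (a / ((q:ℝ) / (2 * q - 1))) (t + u)) ^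
      ((q:ℝ) / (2 * q - 1)) ≤ ENNReal.ofReal (C * H * L ^ (1 - (q:ℝ) / (2 * q - 1) + a ^ 2)))
    (hi : IntegrableOn (fun t => Gi E (a / q) t ^ q) (Set.Icc T (T + H)))
    (hfin : ∫⁻ t in Set.Icc T (T + H), (∫⁻ u in Set.Icc (0:ℝ) 1, zk E (a / q) (t + u)) ^ q ≠ ⊤) :
    c ^ (2 * q) / C ^ (2 * q - 1) * H * L ^ (a ^ 2 - q + 1) ≤ ∫ t in Set.Icc T (T + H), Gi E (a / q) t ^ q := by
  have hq1 : (1:ℝ) ≤ q := by exact_mod_cast hq
  have hq2 : (0:ℝ) < 2 * q - 1 := by linarith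
  set r : ℝ := (q:ℝ) / (2 * q - 1) with hr
  set x : ℝ := ∫ t in Set.Icc T (T + H), Gi E (a / q) t ^ q with hx
  have hx0 : 0 ≤ x := integral_nonneg fun t => pow_nonneg (Gi_nonneg E _ t) q
  set Y : ℝ := c * L ^ (a ^ 2) * H with hY
  set Z : ℝ := C * H * L ^ (1 - r + a ^ 2) with hZ
  have hY0 : 0 < Y := by positivity
  have hZ0 : 0 < Z := by positivity
  have s1 : ENNReal.ofReal Y ≤ ∫⁻ t in Set.Icc T (T + H),
      (∫⁻ u in Set.Icc (0:ℝ) 1, zk E (a / q) (t + u)) ^ (1 / 2 : ℝ) *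
        (∫⁻ u in Set.Icc (0:ℝ) 1, zk E (a / r) (t + u)) ^ (1 / 2 : ℝ) := by
    refine (h1.trans (avg (zk_meas hE a) T H)).trans (lintegral_mono fun t => ?_)
    refine cs hE hne ?_
    rw [hr]
    field_simp
    ring
  have s2 := hol (ν := volume.restrict (Set.Icc T (T + H))) (Gt_meas hE (a / q)) (Gt_meas hE (a / r)) hq
  rw [Gi_int hE hq hfin hi] at s2
  have s3 : ENNReal.ofReal Y ^ (2 * q) ≤ ENNReal.ofReal x * ENNReal.ofReal Z ^ (2 * q - 1) := by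
    refine (pow_le_pow_left' s1 (2 * q)).trans (s2.trans ?_)
    gcongr
  rw [← ENNReal.ofReal_pow hY0.le, ← ENNReal.ofReal_pow hZ0.le, ← ENNReal.ofReal_mul hx0,
    ENNReal.ofReal_le_ofReal_iff (by positivity)] at s3
  have hZp : 0 < Z ^ (2 * q - 1) := by positivity
  refine le_of_mul_le_mul_right (le_trans (le_of_eq ?_) s3) hZp
  have hcast : ((2 * q - 1 : ℕ) : ℝ) = 2 * q - 1 := by
    rw [Nat.cast_sub (by omega)]
    push_cast
    ring
  have e1 : (L ^ (a ^ 2)) ^ (2 * q) = L ^ (a ^ 2 * (2 * q)) := by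
    rw [← Real.rpow_natCast, ← Real.rpow_mul hL.le]
    congr 1
    push_cast
    ring
  have e2 : (L ^ (1 - r + a ^ 2)) ^ (2 * q - 1) = L ^ ((1 - r + a ^ 2) * (2 * q - 1)) := by
    rw [← Real.rpow_natCast, ← Real.rpow_mul hL.le, hcast]
  have e3 : L ^ (a ^ 2 - q + 1) * L ^ ((1 - r + a ^ 2) * (2 * q - 1)) = L ^ (a ^ 2 * (2 * q)) := by
    rw [← Real.rpow_add hL]
    congr 1
    have hrq : r * (2 * q - 1) = q := by
      rw [hr]
      exact div_mul_cancel₀ _ hq2.ne'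
    linear_combination -hrq
  have e4 : H ^ (2 * q) = H * H ^ (2 * q - 1) := by
    rw [← pow_succ']
    congr 1
    omega
  rw [hY, hZ, mul_pow, mul_pow, mul_pow, mul_pow, e1, e2, e4, ← e3]
  have hCp : C ^ (2 * q - 1) ≠ 0 := by positivity
  field_simp

end Pool.Agent.V11104.MM
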