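import Mathlib
import Pool.Agent.V11104.MM.Low

set_option autoImplicit false

/-!
The integrals over the whole interval.
-/

namespace Pool.Agent.V11104.MM

open Finset Filter Topology MeasureTheory
open scoped ENNReal
open Pool.Agent.V11104.SM

lemma zk_cont_bdd {k : ℝ} (hk : 0 ≤ k) (a b : ℝ) :
    ∃ B : ℝ, 0 ≤ B ∧ ∀ s ∈ Set.Icc a b, ‖riemannZeta (1 / 2 + s * Complex.I)‖ ^ (2 * k) ≤ B := by
  have hc : Continuous fun s : ℝ => ‖riemannZeta (1 / 2 + s * Complex.I)‖ ^ (2 * k) :=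
    zeta_cont.norm.rpow_const fun _ => Or.inr (by positivity)
  obtain ⟨B, hB⟩ := (isCompact_Icc (a := a) (b := b)).exists_bound_of_continuousOn hc.continuousOn
  refine ⟨max B 0, le_max_right _ _, fun s hs => ?_⟩
  have h1 := hB s hs
  rw [Real.norm_of_nonneg (Real.rpow_nonneg (norm_nonneg _) _)] at h1
  exact h1.trans (le_max_left _ _)

lemma Gi_univ (k t : ℝ) : Gi Set.univ k t =
    ∫ u in Set.Icc (0:ℝ) 1, ‖riemannZeta (1 / 2 + ((t + u : ℝ) : ℂ) * Complex.I)‖ ^ (2 * k) := by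
  unfold Gi
  have e : {u : ℝ | u ∈ Set.Icc (0:ℝ) 1 ∧ t + u ∈ (Set.univ : Set ℝ)} = Set.Icc 0 1 := by
    ext u; simp
  rw [e]

/-- the integral over the set is at most the whole integral -/
lemma full_le {E : Set ℝ} (hE : MeasurableSet E) {k : ℝ} (hk : 0 ≤ k) (q : ℕ) {T H : ℝ}
    (hi : IntegrableOn (fun t => Gi E k t ^ q) (Set.Icc T (T + H))) :
    ∫ t in Set.Icc T (T + H), Gi E k t ^ q ≤ ∫ t in Set.Icc T (T + H), Gi Set.univ k t ^ q := by
  obtain ⟨B, hB0, hB⟩ := zk_cont_bdd hk T (T + H + 1)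
  have hz : ∀ t ∈ Set.Icc T (T + H), ∫⁻ u in Set.Icc (0:ℝ) 1, zk Set.univ k (t + u) ≤ ENNReal.ofReal B := by
    intro t ht
    have := prob01
    calc ∫⁻ u in Set.Icc (0:ℝ) 1, zk Set.univ k (t + u) ≤ ∫⁻ _u in Set.Icc (0:ℝ) 1, ENNReal.ofReal B := by
          refine setLIntegral_mono' measurableSet_Icc fun u hu => ?_
          unfold zk
          rw [Set.indicator_of_mem (Set.mem_univ _)]
          exact ENNReal.ofReal_le_ofReal (hB _ ⟨by linarith [ht.1, hu.1], by linarith [ht.2, hu.2]⟩)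
      _ = ENNReal.ofReal B := by rw [lintegral_const, measure_univ, mul_one]
  have h1 : ∀ t ∈ Set.Icc T (T + H), Gi E k t ≤ Gi Set.univ k t := by
    intro t ht
    rw [Gi_eq hE, Gi_eq MeasurableSet.univ]
    refine ENNReal.toReal_mono ((hz t ht).trans_lt ENNReal.ofReal_lt_top).ne (lintegral_mono fun u => ?_)
    unfold zk
    by_cases hs : t + u ∈ E
    · rw [Set.indicator_of_mem hs, Set.indicator_of_mem (Set.mem_univ _)]
    · rw [Set.indicator_of_notMem hs]
      exact zero_le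
  have h2 : ∀ t ∈ Set.Icc T (T + H), Gi Set.univ k t ≤ B := by
    intro t ht
    rw [Gi_eq MeasurableSet.univ]
    exact ENNReal.toReal_le_of_le_ofReal hB0 (hz t ht)
  have hm : Measurable fun t => Gi Set.univ k t ^ q := (Gi_meas MeasurableSet.univ k).pow_const q
  have hiu : IntegrableOn (fun t => Gi Set.univ k t ^ q) (Set.Icc T (T + H)) := by
    refine Measure.integrableOn_of_bounded (M := B ^ q) (by rw [Real.volume_Icc]; exact ENNReal.ofReal_ne_top)
      hm.aestronglyMeasurable ?_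
    refine (ae_restrict_iff' measurableSet_Icc).mpr (Filter.Eventually.of_forall fun t ht => ?_)
    rw [Real.norm_of_nonneg (pow_nonneg (Gi_nonneg _ _ _) q)]
    exact pow_le_pow_left₀ (Gi_nonneg _ _ _) (h2 t ht) q
  exact setIntegral_mono_on hi hiu measurableSet_Icc fun t ht => pow_le_pow_left₀ (Gi_nonneg _ _ _) (h1 t ht) q

end Pool.Agent.V11104.MM
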