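import Mathlib
import Pool.Agent.V11104.MM.Pkg
import Pool.Agent.V11104.MM.Low2
import Pool.Agent.V11104.MM.Full

set_option autoImplicit false

/-!
The masses of the normalized powers of zeta in intervals, with positive probability.
-/

namespace Pool.Agent.V11104.MM

open Finset Filter Topology MeasureTheory
open scoped ENNReal
open Pool.Agent.V11104.SM

/-- the integral of the integrals over a part of the unit interval -/
lemma avg2 {F : ℝ → ℝ≥0∞} (hF : Measurable F) (T H : ℝ) {a b : ℝ} (ha : 0 ≤ a) (hb : b ≤ 1) :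
    ENNReal.ofReal (b - a) * ∫⁻ s in Set.Icc (T + 1) (T + H), F s ≤
      ∫⁻ t in Set.Icc T (T + H), ∫⁻ u in Set.Icc a b, F (t + u) := by
  rw [lintegral_lintegral_swap (meas2 hF).aemeasurable]
  have h1 : ∀ u ∈ Set.Icc a b, ∫⁻ s in Set.Icc (T + 1) (T + H), F s ≤ ∫⁻ t in Set.Icc T (T + H), F (t + u) := by
    intro u hu
    rw [← lintegral_indicator measurableSet_Icc, ← lintegral_indicator measurableSet_Icc,
      ← lintegral_add_right_eq_self _ u]
    refine lintegral_mono fun t => ?_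
    by_cases ht : t + u ∈ Set.Icc (T + 1) (T + H)
    · rw [Set.indicator_of_mem ht, Set.indicator_of_mem (show t ∈ Set.Icc T (T + H) from
        ⟨by linarith [ht.1, hu.2], by linarith [ht.2, hu.1]⟩)]
    · rw [Set.indicator_of_notMem ht]
      exact zero_le
  calc ENNReal.ofReal (b - a) * ∫⁻ s in Set.Icc (T + 1) (T + H), F s =
        ∫⁻ _u in Set.Icc a b, ∫⁻ s in Set.Icc (T + 1) (T + H), F s := by
        rw [lintegral_const, Measure.restrict_apply_univ, Real.volume_Icc, mul_comm]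
    _ ≤ _ := setLIntegral_mono' measurableSet_Icc h1

/-- the second moment method -/
lemma pz {S : Set ℝ} {G : ℝ → ℝ≥0∞} (hG : Measurable G) {m V X : ℝ} (hm : 0 < m)
    (hV : 0 < V) (hX : 0 < X) (hvol : volume S = ENNReal.ofReal V)
    (h1 : ENNReal.ofReal (m * V) ≤ ∫⁻ t in S, G t) (h2 : ∫⁻ t in S, G t ^ 2 ≤ ENNReal.ofReal (X * V)) :
    m ^ 2 / (4 * X) * V ≤ volume.real ({t | ENNReal.ofReal (m / 2) ≤ G t} ∩ S) := by
  set A' : Set ℝ := {t | ENNReal.ofReal (m / 2) ≤ G t} with hA'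
  have mA : MeasurableSet A' := measurableSet_le measurable_const hG
  have hfin : volume (A' ∩ S) ≠ ⊤ := by
    refine ((measure_mono Set.inter_subset_right).trans_lt ?_).ne
    rw [hvol]
    exact ENNReal.ofReal_lt_top
  set a : ℝ := volume.real (A' ∩ S) with ha
  have ha0 : 0 ≤ a := measureReal_nonneg
  have haE : volume (A' ∩ S) = ENNReal.ofReal a := by
    rw [ha, Measure.real, ENNReal.ofReal_toReal hfin]
  have e1 : ∫⁻ t in S, G t ≤ ENNReal.ofReal (m / 2 * V) + ∫⁻ t in S, G t * A'.indicator (fun _ => 1) t := by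
    calc ∫⁻ t in S, G t ≤ ∫⁻ t in S, (ENNReal.ofReal (m / 2) + G t * A'.indicator (fun _ => 1) t) := by
          refine lintegral_mono fun t => ?_
          by_cases ht : t ∈ A'
          · rw [Set.indicator_of_mem ht, mul_one]
            exact le_add_self
          · rw [Set.indicator_of_notMem ht, mul_zero, add_zero]
            exact (not_le.mp ht).le
      _ = _ := by
          rw [lintegral_add_left measurable_const, lintegral_const, Measure.restrict_apply_univ, hvol,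
            ← ENNReal.ofReal_mul (by positivity)]
  have e2 : ∫⁻ t in S, G t * A'.indicator (fun _ => 1) t ≤ ENNReal.ofReal (Real.sqrt (X * V) * Real.sqrt a) := by
    have h3 := ENNReal.lintegral_mul_le_Lp_mul_Lq (volume.restrict S) Real.HolderConjugate.two_two
      hG.aemeasurable ((measurable_const (a := (1:ℝ≥0∞))).indicator mA).aemeasurable
    refine (h3 : _ ≤ _).trans ?_
    have h4 : (∫⁻ t in S, G t ^ (2:ℝ)) ^ (1 / (2:ℝ)) ≤ ENNReal.ofReal (Real.sqrt (X * V)) := by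
      rw [Real.sqrt_eq_rpow, ← ENNReal.ofReal_rpow_of_nonneg (by positivity) (by norm_num)]
      refine ENNReal.rpow_le_rpow ?_ (by norm_num)
      refine le_trans (le_of_eq ?_) h2
      refine lintegral_congr fun t => ?_
      rw [← ENNReal.rpow_natCast]
      norm_num
    have h5 : (∫⁻ t in S, (A'.indicator (fun _ => (1:ℝ≥0∞)) t) ^ (2:ℝ)) ^ (1 / (2:ℝ)) ≤ ENNReal.ofReal (Real.sqrt a) := by
      rw [Real.sqrt_eq_rpow, ← ENNReal.ofReal_rpow_of_nonneg ha0 (by norm_num)]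
      refine ENNReal.rpow_le_rpow ?_ (by norm_num)
      rw [← haE]
      have h6 : ∀ t, (A'.indicator (fun _ => (1:ℝ≥0∞)) t) ^ (2:ℝ) = A'.indicator (fun _ => (1:ℝ≥0∞)) t := by
        intro t
        by_cases ht : t ∈ A'
        · rw [Set.indicator_of_mem ht, ENNReal.one_rpow]
        · rw [Set.indicator_of_notMem ht, ENNReal.zero_rpow_of_pos (by norm_num)]
      simp_rw [h6]
      rw [lintegral_indicator mA, setLIntegral_one, Measure.restrict_apply mA]
    rw [ENNReal.ofReal_mul (Real.sqrt_nonneg _)]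
    exact mul_le_mul' h4 h5
  have e3 : m * V ≤ m / 2 * V + Real.sqrt (X * V) * Real.sqrt a := by
    have h7 := h1.trans (e1.trans (add_le_add le_rfl e2))
    rw [← ENNReal.ofReal_add (by positivity) (by positivity)] at h7
    exact (ENNReal.ofReal_le_ofReal_iff (by positivity)).mp h7
  have e4 : (m / 2 * V) ^ 2 ≤ X * V * a := by
    have h8 : m / 2 * V ≤ Real.sqrt (X * V) * Real.sqrt a := by linarith
    calc (m / 2 * V) ^ 2 ≤ (Real.sqrt (X * V) * Real.sqrt a) ^ 2 := pow_le_pow_left₀ (by positivity) h8 2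
      _ = X * V * a := by
        rw [mul_pow, Real.sq_sqrt (by positivity), Real.sq_sqrt ha0]
  rw [div_mul_eq_mul_div, div_le_iff₀ (by positivity)]
  have h9 : m ^ 2 * V * V ≤ a * (4 * X) * V := by nlinarith
  exact le_of_mul_le_mul_right h9 hV

/-- the masses of intervals are large with positive probability -/
theorem charge {β : ℝ} (hβ0 : 0 ≤ β) (hβ : β ^ 2 < 2) :
    ∃ c : ℝ, 0 < c ∧ ∀ᶠ T : ℝ in atTop, ∀ a b : ℝ, 0 ≤ a → a < b → b ≤ 1 →
      c * (b - a) ^ 2 ≤ volume.real {w : ℝ | w ∈ Set.Icc (0:ℝ) 1 ∧ c * (b - a) ≤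
        Real.log T ^ (-(β ^ 2 / 4)) *
          ∫ x in Set.Icc a b, ‖riemannZeta (1 / 2 + ((x + w * T : ℝ) : ℂ) * Complex.I)‖ ^ β} := by
  obtain ⟨E, c₀, C₀, mE, hc₀, hC₀, -, -, -, hlow, hup, -, -⟩ := pkg 1 (1 / 2) (1 / 2) 2 zero_le_one
    (by norm_num) (by norm_num)
  set k : ℝ := β / 2 with hk
  have hk0 : 0 ≤ k := by positivity
  have hk2 : 2 * k ^ 2 < 1 := by
    rw [hk]; nlinarith
  have hk1 : |k| ≤ 1 := by
    rw [abs_le]
    constructor <;> nlinarith
  set C₁ : ℝ := C₀ * (4 / (1 - 2 * k ^ 2)) with hC₁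
  have hden : 0 < 1 - 2 * k ^ 2 := by linarith
  have hC₁0 : 0 < C₁ := by positivity
  set c : ℝ := min (c₀ / 2 * (1 / 2) ^ (k ^ 2)) (c₀ ^ 2 / (8 * C₁)) with hc
  have hc0 : 0 < c := by
    rw [hc]
    exact lt_min (by positivity) (by positivity)
  refine ⟨c, hc0, ?_⟩
  have hhalf : Tendsto (fun T : ℝ => T / 2) atTop atTop := tendsto_id.atTop_div_const (by norm_num)
  filter_upwards [hhalf.eventually (hlow 0 le_rfl one_pos), hhalf.eventually hup, eventually_ge_atTop (8:ℝ),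
    Real.tendsto_log_atTop.eventually_ge_atTop 2] with T b1 b2 hT8 hLT a b ha hab hb
  set T' : ℝ := T / 2 with hT'
  have hT'0 : 4 ≤ T' := by rw [hT']; linarith
  have hT0 : 0 < T := by linarith
  set L : ℝ := Real.log T with hL
  set L' : ℝ := Real.log T' with hL'
  have hlog2 : Real.log 2 ≤ 1 := by
    have := Real.log_two_lt_d9
    linarith
  have hLL : L / 2 ≤ L' := by
    rw [hL', hT', Real.log_div hT0.ne' (by norm_num)]
    linarith
  have hL'1 : 1 ≤ L' := by linarith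
  have hL'0 : 0 < L' := by linarith
  have hL0 : 0 < L := by linarith
  have hTp : T' ^ (min (1 / 2 : ℝ) (1 / 2)) ≤ T' := by
    rw [min_self]
    calc T' ^ (1 / 2 : ℝ) ≤ T' ^ (1:ℝ) := Real.rpow_le_rpow_of_exponent_le (by linarith) (by norm_num)
      _ = T' := Real.rpow_one _
  have c1 := (b1 T' (by rw [Real.rpow_zero, div_one]) le_rfl).2 k (hk1.trans (by norm_num))
  have c2 := b2 T' hTp le_rfl 1 (by norm_num) k hk1
  have hI : Iq (1 / L') (2 * k ^ 2) ≤ 4 / (1 - 2 * k ^ 2) :=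
    Iq_lt (by positivity) (by rw [div_le_one hL'0]; exact hL'1) (by positivity) hk2
  set G : ℝ → ℝ≥0∞ := fun t => ∫⁻ u in Set.Icc a b, zk E k (t + u) with hG
  have hGm : Measurable G := (meas2 (zk_meas mE k)).lintegral_prod_right'
  have hba : 0 < b - a := by linarith
  have d1 : ENNReal.ofReal ((b - a) * (c₀ * L' ^ (k ^ 2)) * T') ≤ ∫⁻ t in Set.Icc T' (T' + T'), G t := by
    have := avg2 (zk_meas mE k) T' T' ha hb
    refine le_trans ?_ this
    have e : (b - a) * (c₀ * L' ^ (k ^ 2)) * T' = (b - a) * (c₀ * L' ^ (k ^ 2) * T') := by ring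
    rw [e, ENNReal.ofReal_mul hba.le]
    gcongr
  have d2 : ∫⁻ t in Set.Icc T' (T' + T'), G t ^ 2 ≤ ENNReal.ofReal (C₁ * L' ^ (2 * k ^ 2) * T') := by
    calc ∫⁻ t in Set.Icc T' (T' + T'), G t ^ 2 ≤
        ∫⁻ t in Set.Icc T' (T' + T'), (∫⁻ u in Set.Icc (0:ℝ) 1, zk E k (t + u)) ^ (1 + 1) := by
          refine lintegral_mono fun t => ?_
          exact pow_le_pow_left' (lintegral_mono_set (Set.Icc_subset_Icc ha hb)) 2
      _ ≤ _ := c2
      _ ≤ ENNReal.ofReal (C₁ * L' ^ (2 * k ^ 2) * T') := by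
          refine ENNReal.ofReal_le_ofReal ?_
          have e : (((1 + 1 : ℕ) : ℝ)) * k ^ 2 = 2 * k ^ 2 := by push_cast; ring
          rw [e, pow_one]
          calc C₀ * T' * L' ^ (2 * k ^ 2) * Iq (1 / L') (2 * k ^ 2) ≤
              C₀ * T' * L' ^ (2 * k ^ 2) * (4 / (1 - 2 * k ^ 2)) := by gcongr
            _ = _ := by rw [hC₁]; ring
  have hvol : volume (Set.Icc T' (T' + T')) = ENNReal.ofReal T' := by
    rw [Real.volume_Icc]; congr 1; ring
  have hpz := pz hGm (m := (b - a) * (c₀ * L' ^ (k ^ 2))) (V := T') (X := C₁ * L' ^ (2 * k ^ 2))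
    (by positivity) (by linarith) (by positivity) hvol d1 d2
  set A : Set ℝ := {t | ENNReal.ofReal ((b - a) * (c₀ * L' ^ (k ^ 2)) / 2) ≤ G t} ∩ Set.Icc T' (T' + T') with hA
  have hLsq : L' ^ (2 * k ^ 2) = L' ^ (k ^ 2) * L' ^ (k ^ 2) := by
    rw [← Real.rpow_add hL'0]; congr 1; ring
  have hfrac : ((b - a) * (c₀ * L' ^ (k ^ 2))) ^ 2 / (4 * (C₁ * L' ^ (2 * k ^ 2))) = (b - a) ^ 2 * (c₀ ^ 2 / (4 * C₁)) := by
    have hp : 0 < L' ^ (k ^ 2) := Real.rpow_pos_of_pos hL'0 _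
    rw [hLsq]
    field_simp
  rw [hfrac] at hpz
  -- the points of `A`
  have hpt : ∀ t ∈ A, c * (b - a) ≤ L ^ (-(β ^ 2 / 4)) *
      ∫ x in Set.Icc a b, ‖riemannZeta (1 / 2 + ((x + t : ℝ) : ℂ) * Complex.I)‖ ^ β := by
    intro t ht
    have hcont : Continuous fun x : ℝ => ‖riemannZeta (1 / 2 + ((x + t : ℝ) : ℂ) * Complex.I)‖ ^ β :=
      (zeta_cont.norm.rpow_const fun _ => Or.inr hβ0).comp (continuous_id.add continuous_const)
    have h1 : G t ≤ ENNReal.ofReal (∫ x in Set.Icc a b, ‖riemannZeta (1 / 2 + ((x + t : ℝ) : ℂ) * Complex.I)‖ ^ β) := by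
      rw [ofReal_integral_eq_lintegral_ofReal (hcont.integrableOn_Icc)
        (Filter.Eventually.of_forall fun _ => Real.rpow_nonneg (norm_nonneg _) _)]
      refine lintegral_mono fun u => ?_
      unfold zk
      refine (Set.indicator_le_self _ _ _).trans ?_
      have e : 2 * k = β := by rw [hk]; ring
      rw [e, add_comm t u]
    have h2 := ht.1.trans h1
    have hnn : 0 ≤ ∫ x in Set.Icc a b, ‖riemannZeta (1 / 2 + ((x + t : ℝ) : ℂ) * Complex.I)‖ ^ β :=
      integral_nonneg fun _ => Real.rpow_nonneg (norm_nonneg _) _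
    rw [ENNReal.ofReal_le_ofReal_iff hnn] at h2
    have h3 : L ^ (-(β ^ 2 / 4)) * ((b - a) * (c₀ * L' ^ (k ^ 2)) / 2) ≤ L ^ (-(β ^ 2 / 4)) *
        ∫ x in Set.Icc a b, ‖riemannZeta (1 / 2 + ((x + t : ℝ) : ℂ) * Complex.I)‖ ^ β :=
      mul_le_mul_of_nonneg_left h2 (Real.rpow_nonneg hL0.le _)
    refine le_trans ?_ h3
    have hkk : β ^ 2 / 4 = k ^ 2 := by rw [hk]; ring
    have h4 : (1 / 2 : ℝ) ^ (k ^ 2) ≤ L ^ (-(k ^ 2)) * L' ^ (k ^ 2) := by
      have h5 : L ^ (-(k ^ 2)) * (L / 2) ^ (k ^ 2) = (1 / 2 : ℝ) ^ (k ^ 2) := by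
        rw [div_eq_mul_one_div, Real.mul_rpow hL0.le (by norm_num), ← mul_assoc, ← Real.rpow_add hL0,
          neg_add_cancel, Real.rpow_zero, one_mul]
      rw [← h5]
      gcongr
    rw [hkk]
    have h6 : c ≤ c₀ / 2 * (1 / 2) ^ (k ^ 2) := min_le_left _ _
    calc c * (b - a) ≤ (c₀ / 2 * (1 / 2) ^ (k ^ 2)) * (b - a) := mul_le_mul_of_nonneg_right h6 hba.le
      _ ≤ (c₀ / 2 * (L ^ (-(k ^ 2)) * L' ^ (k ^ 2))) * (b - a) := by gcongr
      _ = _ := by ring
  -- back to the unit interval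
  set B : Set ℝ := {w : ℝ | w ∈ Set.Icc (0:ℝ) 1 ∧ c * (b - a) ≤
        L ^ (-(β ^ 2 / 4)) * ∫ x in Set.Icc a b, ‖riemannZeta (1 / 2 + ((x + w * T : ℝ) : ℂ) * Complex.I)‖ ^ β} with hB
  have hsub : (fun w : ℝ => w * T) ⁻¹' A ⊆ B := by
    intro w hw
    have hw' : w * T ∈ A := hw
    refine ⟨⟨?_, ?_⟩, hpt _ hw'⟩
    · have := hw'.2.1
      have h0 : 0 ≤ w * T := by linarith
      exact nonneg_of_mul_nonneg_left h0 hT0
    · have := hw'.2.2
      have h1 : w * T ≤ 1 * T := by rw [hT'] at this; linarith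
      exact le_of_mul_le_mul_right h1 hT0
  have hBfin : volume B ≠ ⊤ := by
    refine ((measure_mono (show B ⊆ Set.Icc (0:ℝ) 1 from fun w hw => hw.1)).trans_lt ?_).ne
    rw [Real.volume_Icc]
    exact ENNReal.ofReal_lt_top
  have hv1 : volume.real ((fun w : ℝ => w * T) ⁻¹' A) = T⁻¹ * volume.real A := by
    rw [Measure.real, Real.volume_preimage_mul_right hT0.ne', ENNReal.toReal_mul, ENNReal.toReal_ofReal (abs_nonneg _),
      abs_of_pos (by positivity)]
    rfl
  have hv2 : volume.real ((fun w : ℝ => w * T) ⁻¹' A) ≤ volume.real B := measureReal_mono hsub hBfin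
  have hcc : c ≤ c₀ ^ 2 / (8 * C₁) := min_le_right _ _
  calc c * (b - a) ^ 2 ≤ c₀ ^ 2 / (8 * C₁) * (b - a) ^ 2 := by gcongr
    _ = T⁻¹ * ((b - a) ^ 2 * (c₀ ^ 2 / (4 * C₁)) * T') := by
        rw [hT']; field_simp; ring
    _ ≤ T⁻¹ * volume.real A := by gcongr
    _ = _ := hv1.symm
    _ ≤ _ := hv2

end Pool.Agent.V11104.MM
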