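import Mathlib
import Pool.Agent.V11104.MM.Charge

set_option autoImplicit false

/-!
Large values of the local maxima.
-/

namespace Pool.Agent.V11104.MM

open Finset Filter Topology MeasureTheory
open scoped ENNReal
open Pool.Agent.V11104.SM

/-- the points whose neighbourhood contains a large value at a point of `E` -/
def LV (E : Set ℝ) (T H U : ℝ) : Set ℝ := {t : ℝ | t ∈ Set.Icc T (T + H) ∧ ∃ u ∈ Set.Icc (0:ℝ) 1, t + u ∈ E ∧
  U ≤ ‖riemannZeta (1 / 2 + ((t + u : ℝ) : ℂ) * Complex.I)‖}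

/-- the pointwise splitting -/
lemma split {E : Set ℝ} (hne : ∀ s ∈ E, riemannZeta (1 / 2 + s * Complex.I) ≠ 0) {U R b δ : ℝ} (hU : 0 < U)
    (hR : 0 < R) (hb : 0 ≤ b) (hδ : 0 ≤ δ) (s : ℝ) :
    zk E b s ≤ ENNReal.ofReal (R ^ (2 * b)) * (E ∩ {x : ℝ | U ≤ ‖riemannZeta (1 / 2 + x * Complex.I)‖}).indicator
      (fun _ => (1:ℝ≥0∞)) s + ENNReal.ofReal (U ^ (2 * δ)) * zk E (b - δ) s +
      ENNReal.ofReal (R ^ (-(2 * δ))) * zk E (b + δ) s := by
  by_cases hs : s ∈ E
  · have hy : 0 < ‖riemannZeta (1 / 2 + s * Complex.I)‖ := norm_pos_iff.mpr (hne s hs)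
    unfold zk
    rw [Set.indicator_of_mem hs, Set.indicator_of_mem hs, Set.indicator_of_mem hs]
    set y := ‖riemannZeta (1 / 2 + s * Complex.I)‖ with hyd
    rcases lt_or_ge y U with h1 | h1
    · refine le_trans ?_ (le_add_right le_add_self)
      rw [← ENNReal.ofReal_mul (by positivity)]
      refine ENNReal.ofReal_le_ofReal ?_
      calc y ^ (2 * b) = y ^ (2 * δ) * y ^ (2 * (b - δ)) := by
            rw [← Real.rpow_add hy]; congr 1; ring
        _ ≤ U ^ (2 * δ) * y ^ (2 * (b - δ)) := by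
            gcongr
    · rcases lt_or_ge R y with h2 | h2
      · refine le_trans ?_ le_add_self
        rw [← ENNReal.ofReal_mul (by positivity)]
        refine ENNReal.ofReal_le_ofReal ?_
        calc y ^ (2 * b) = y ^ (-(2 * δ)) * y ^ (2 * (b + δ)) := by
              rw [← Real.rpow_add hy]; congr 1; ring
          _ ≤ R ^ (-(2 * δ)) * y ^ (2 * (b + δ)) := by
              gcongr ?_ * _
              exact Real.rpow_le_rpow_of_nonpos hR h2.le (by linarith)
      · refine le_trans ?_ (le_add_right (le_add_right le_rfl))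
        rw [Set.indicator_of_mem (show s ∈ E ∩ {x : ℝ | U ≤ ‖riemannZeta (1 / 2 + x * Complex.I)‖} from ⟨hs, h1⟩),
          mul_one]
        refine ENNReal.ofReal_le_ofReal ?_
        exact Real.rpow_le_rpow hy.le h2 (by linarith)
  · unfold zk
    rw [Set.indicator_of_notMem hs]
    exact zero_le

theorem large (K θ ε : ℝ) (hK : 0 ≤ K) (hθ : 0 < θ) (hε : 0 < ε) :
    ∃ (E : Set ℝ) (c C : ℝ), MeasurableSet E ∧ 0 < c ∧ 0 < C ∧
    (∀ α : ℝ, 0 ≤ α → α < 1 → ∀ᶠ T : ℝ in atTop, ∀ H : ℝ, T / Real.log T ^ α ≤ H → H ≤ T →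
      (1 - ε) * H ≤ volume.real (Set.Icc T (T + H) ∩ E)) ∧
    (∀ᶠ T : ℝ in atTop, ∀ H : ℝ, T ^ θ ≤ H → H ≤ T → ∀ V : ℝ, 0 ≤ V → V ≤ K →
      volume.real (LV E T H (Real.log T ^ V)) ≤ C * H * Real.log T ^ (1 - V ^ 2)) ∧
    ∀ α : ℝ, 0 ≤ α → α < 1 → ∀ᶠ T : ℝ in atTop, ∀ H : ℝ, T / Real.log T ^ α ≤ H → H ≤ T →
      ∀ V : ℝ, 0 ≤ V → V ≤ K → 2 < V ^ 2 →
        c * (V ^ 2 - 2) * H * Real.log T ^ (1 - V ^ 2) * Real.exp (-(C * Real.sqrt (Real.log (Real.log T)))) ≤
          volume.real (LV E T H (Real.log T ^ V)) := by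
  obtain ⟨E, c₀, C₀, mE, hc₀, hC₀, hne, hprop, -, hlow, hup, -, hmj⟩ := pkg (K + 2) θ ε 2 (by linarith) hθ hε
  set A : ℝ := 1 / 2 + 2 * C₀ / c₀ with hA
  have hA0 : 0 < A := by positivity
  have hAe : C₀ * Real.exp (1 - 2 * A) ≤ c₀ / 4 := by
    have h1 : 4 * C₀ / c₀ ≤ Real.exp (4 * C₀ / c₀) := by
      have := Real.add_one_le_exp (4 * C₀ / c₀)
      linarith
    have h2 : 1 - 2 * A = -(4 * C₀ / c₀) := by rw [hA]; ring
    rw [h2, Real.exp_neg]
    have h3 : 0 < 4 * C₀ / c₀ := by positivity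
    calc C₀ * (Real.exp (4 * C₀ / c₀))⁻¹ ≤ C₀ * (4 * C₀ / c₀)⁻¹ := by gcongr
      _ = c₀ / 4 := by field_simp
  set C : ℝ := 2 * C₀ + 8 * A * K with hC
  have hC0 : 0 < C := by positivity
  refine ⟨E, c₀ ^ 2 * Real.exp (-(6 * A ^ 2)) / (64 * C₀), C, mE, by positivity, hC0, hprop, ?_, ?_⟩
  · filter_upwards [hmj, Real.tendsto_log_atTop.eventually_ge_atTop 1, eventually_gt_atTop (1:ℝ)] with
      T hT hL1 hT1 H hH1 hH2 V hV0 hVK
    have hT0 : 0 < T := by linarith
    set L := Real.log T with hLd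
    have hL : 0 < L := by linarith
    have hH1' : T ^ (min θ (1 / 2)) ≤ H := (Real.rpow_le_rpow_of_exponent_le hT1.le (min_le_left _ _)).trans hH1
    have hH0 : 0 < H := lt_of_lt_of_le (Real.rpow_pos_of_pos hT0 _) hH1
    obtain ⟨F, hF, f1, f2⟩ := hT H hH1' hH2 V (by rw [abs_of_nonneg hV0]; push_cast; linarith)
    have hη1 : 1 / L ≤ 1 := by rw [div_le_one hL]; exact hL1
    set R : ℝ → ℝ≥0∞ := fun t => ∫⁻ v in Set.Icc (0:ℝ) 2, F (t + v) with hR
    have hRm : Measurable R := (meas2 hF).lintegral_prod_right'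
    have hRint : ∫⁻ t in Set.Icc T (T + H), R t ≤ ENNReal.ofReal (2 * (C₀ * H * L ^ (1 + V ^ 2))) := by
      refine (dbl hF (by norm_num) le_rfl le_rfl).trans ?_
      rw [ENNReal.ofReal_mul (by norm_num)]
      gcongr
    set S := LV E T H (L ^ V) with hS
    set P : Set ℝ := {t | ENNReal.ofReal (L ^ (2 * V ^ 2)) ≤ R t} with hP
    have hsub : S ⊆ P ∩ Set.Icc T (T + H) := by
      rintro t ⟨ht, u, hu, hs, hl⟩
      refine ⟨?_, ht⟩
      have h1 := f1 (t + u) hs (by linarith [ht.1, hu.1]) (by linarith [ht.2, hu.2])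
      have h2 : ∫⁻ v in Set.Icc 0 (1 / L), F (t + u + v) ≤ R t := by
        have h3 : ∫⁻ v in Set.Icc 0 (1 / L), F (t + u + v) =
            ∫⁻ v in Set.Icc 0 (1 / L), (fun w => F (t + w)) (v + u) := by
          refine lintegral_congr fun v => ?_
          congr 1
          ring
        rw [h3]
        exact tr (fun w => F (t + w)) (by linarith [hu.1]) (by linarith [hu.2])
      refine le_trans ?_ (h1.trans h2)
      unfold zk
      rw [Set.indicator_of_mem hs]
      refine ENNReal.ofReal_le_ofReal ?_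
      calc L ^ (2 * V ^ 2) = (L ^ V) ^ (2 * V) := by
            rw [← Real.rpow_mul hL.le]; congr 1; ring
        _ ≤ _ := Real.rpow_le_rpow (Real.rpow_nonneg hL.le _) hl (by linarith)
    have hmk : ENNReal.ofReal (L ^ (2 * V ^ 2)) * volume (P ∩ Set.Icc T (T + H)) ≤
        ENNReal.ofReal (2 * (C₀ * H * L ^ (1 + V ^ 2))) := by
      refine le_trans ?_ hRint
      have := mul_meas_ge_le_lintegral (μ := volume.restrict (Set.Icc T (T + H))) hRm (ENNReal.ofReal (L ^ (2 * V ^ 2)))
      rwa [Measure.restrict_apply (measurableSet_le measurable_const hRm)] at this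
    have hfin : volume (P ∩ Set.Icc T (T + H)) ≠ ⊤ := by
      refine ((measure_mono Set.inter_subset_right).trans_lt ?_).ne
      rw [Real.volume_Icc]
      exact ENNReal.ofReal_lt_top
    have h5 : volume.real S ≤ volume.real (P ∩ Set.Icc T (T + H)) := measureReal_mono hsub hfin
    have h6 : L ^ (2 * V ^ 2) * volume.real (P ∩ Set.Icc T (T + H)) ≤ 2 * (C₀ * H * L ^ (1 + V ^ 2)) := by
      have h7 := ENNReal.toReal_mono ENNReal.ofReal_ne_top hmk
      rw [ENNReal.toReal_mul, ENNReal.toReal_ofReal (by positivity), ENNReal.toReal_ofReal (by positivity)] at h7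
      exact h7
    have h8 : volume.real (P ∩ Set.Icc T (T + H)) ≤ 2 * C₀ * H * L ^ (1 - V ^ 2) := by
      have hp : 0 < L ^ (2 * V ^ 2) := Real.rpow_pos_of_pos hL _
      refine le_of_mul_le_mul_left (h6.trans (le_of_eq ?_)) hp
      have : L ^ (1 + V ^ 2) = L ^ (2 * V ^ 2) * L ^ (1 - V ^ 2) := by
        rw [← Real.rpow_add hL]; congr 1; ring
      rw [this]; ring
    refine (h5.trans h8).trans ?_
    have : 2 * C₀ ≤ C := by rw [hC]; nlinarith
    gcongr
  · intro α h0 h1
    have hs1 : ∀ᶠ T : ℝ in atTop, A + 1 ≤ Real.sqrt (Real.log (Real.log T)) := by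
      have : Tendsto (fun T : ℝ => Real.sqrt (Real.log (Real.log T))) atTop atTop :=
        Real.tendsto_sqrt_atTop.comp (Real.tendsto_log_atTop.comp Real.tendsto_log_atTop)
      exact this.eventually_ge_atTop _
    filter_upwards [hlow α h0 h1, hup, Real.tendsto_log_atTop.eventually_gt_atTop 1, eventually_gt_atTop (1:ℝ), hs1]
      with T a1 a2 hL1 hT1 hsT H hH1 hH2 V hV0 hVK hV2
    have hT0 : 0 < T := by linarith
    set L := Real.log T with hLd
    have hL : 0 < L := by linarith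
    set s := Real.sqrt (Real.log L) with hsd
    have hs0 : 0 < s := by linarith
    have hss : s ^ 2 = Real.log L := Real.sq_sqrt (Real.log_nonneg hL1.le)
    have hLe : ∀ x : ℝ, L ^ x = Real.exp (s ^ 2 * x) := by
      intro x
      rw [hss, Real.rpow_def_of_pos hL]
    obtain ⟨hTθ, b1⟩ := a1 H hH1 hH2
    have hH0 : 0 < H := lt_of_lt_of_le (Real.rpow_pos_of_pos hT0 _) hTθ
    set b : ℝ := V + A / s with hb
    set δ : ℝ := 1 / s with hδ
    have hδ0 : 0 < δ := by positivity
    have hAs : A / s ≤ 1 := by rw [div_le_one hs0]; linarith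
    have hδ1 : δ ≤ 1 := by rw [hδ, div_le_one hs0]; linarith
    have hAs0 : 0 < A / s := by positivity
    have hb0 : 0 < b := by linarith
    set U : ℝ := L ^ V with hU
    have hU0 : 0 < U := Real.rpow_pos_of_pos hL _
    set R : ℝ := L ^ V * Real.exp (2 * A * s) with hR
    have hR0 : 0 < R := by positivity
    set W : Set ℝ := E ∩ {x : ℝ | U ≤ ‖riemannZeta (1 / 2 + x * Complex.I)‖} with hW
    have mW : MeasurableSet W := mE.inter (measurableSet_le measurable_const zeta_cont.norm.measurable)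
    set g : ℝ → ℝ≥0∞ := W.indicator (fun _ => (1:ℝ≥0∞)) with hg
    have mg : Measurable g := measurable_const.indicator mW
    set G : ℝ → ℝ≥0∞ := fun t => ∫⁻ u in Set.Icc (0:ℝ) 1, g (t + u) with hG
    have mG : Measurable G := (meas2 mg).lintegral_prod_right'
    have up1 : ∀ k : ℝ, |k| ≤ K + 2 → ∫⁻ s in Set.Icc (T + 1) (T + H), zk E k s ≤
        ENNReal.ofReal (C₀ * H * L ^ (k ^ 2)) := by
      intro k hk
      refine (avg (zk_meas mE k) T H).trans ?_
      have := a2 H hTθ hH2 0 (by norm_num) k hk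
      simpa using this
    have bU : |b - δ| ≤ K + 2 := by
      rw [abs_le]; constructor <;> linarith
    have bR : |b + δ| ≤ K + 2 := by
      rw [abs_le]; constructor <;> linarith
    have k1 := up1 _ bU
    have k2 := up1 _ bR
    have k3 := b1 b (by rw [abs_of_pos hb0]; push_cast; linarith)
    have k4 : ENNReal.ofReal (c₀ * L ^ (b ^ 2) * H) ≤ ENNReal.ofReal (R ^ (2 * b)) * (∫⁻ t in Set.Icc T (T + H), G t) +
        ENNReal.ofReal (U ^ (2 * δ) * (C₀ * H * L ^ ((b - δ) ^ 2))) +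
        ENNReal.ofReal (R ^ (-(2 * δ)) * (C₀ * H * L ^ ((b + δ) ^ 2))) := by
      refine k3.trans ((lintegral_mono fun x => split hne hU0 hR0 hb0.le hδ0.le x).trans ?_)
      rw [lintegral_add_right _ ((zk_meas mE _).const_mul _), lintegral_add_right _ ((zk_meas mE _).const_mul _),
        lintegral_const_mul _ mg, lintegral_const_mul _ (zk_meas mE _), lintegral_const_mul _ (zk_meas mE _),
        ENNReal.ofReal_mul (p := U ^ (2 * δ)) (by positivity), ENNReal.ofReal_mul (p := R ^ (-(2 * δ))) (by positivity)]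
      have k5 := avg mg T H
      gcongr
    have r1 : U ^ (2 * δ) * (C₀ * H * L ^ ((b - δ) ^ 2)) = L ^ (b ^ 2) * H * (C₀ * Real.exp (1 - 2 * A)) := by
      have : U ^ (2 * δ) * L ^ ((b - δ) ^ 2) = L ^ (b ^ 2) * Real.exp (1 - 2 * A) := by
        rw [hU, ← Real.rpow_mul hL.le, hLe, hLe, hLe, ← Real.exp_add, ← Real.exp_add]
        congr 1
        rw [hb, hδ]
        field_simp
        ring
      linear_combination (C₀ * H) * this
    have r2 : R ^ (-(2 * δ)) * (C₀ * H * L ^ ((b + δ) ^ 2)) = L ^ (b ^ 2) * H * (C₀ * Real.exp (1 - 2 * A)) := by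
      have : R ^ (-(2 * δ)) * L ^ ((b + δ) ^ 2) = L ^ (b ^ 2) * Real.exp (1 - 2 * A) := by
        rw [hR, Real.mul_rpow (by positivity) (by positivity), ← Real.rpow_mul hL.le, ← Real.exp_mul, hLe, hLe, hLe,
          ← Real.exp_add, ← Real.exp_add, ← Real.exp_add]
        congr 1
        rw [hb, hδ]
        field_simp
        ring
      linear_combination (C₀ * H) * this
    rw [r1, r2, add_assoc, ← ENNReal.ofReal_add (by positivity) (by positivity)] at k4
    set Q : ℝ := L ^ (b ^ 2) * H with hQ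
    have hQ0 : 0 < Q := by positivity
    have k6 : ENNReal.ofReal (c₀ / 2 * Q) ≤ ENNReal.ofReal (R ^ (2 * b)) * ∫⁻ t in Set.Icc T (T + H), G t := by
      have k7 : ENNReal.ofReal (c₀ / 2 * Q) + ENNReal.ofReal (Q * (C₀ * Real.exp (1 - 2 * A)) + Q * (C₀ * Real.exp (1 - 2 * A))) ≤
          ENNReal.ofReal (R ^ (2 * b)) * (∫⁻ t in Set.Icc T (T + H), G t) +
          ENNReal.ofReal (Q * (C₀ * Real.exp (1 - 2 * A)) + Q * (C₀ * Real.exp (1 - 2 * A))) := by
        refine le_trans ?_ k4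
        rw [← ENNReal.ofReal_add (by positivity) (by positivity)]
        refine ENNReal.ofReal_le_ofReal ?_
        have : Q * (C₀ * Real.exp (1 - 2 * A)) ≤ Q * (c₀ / 4) := by gcongr
        have e : c₀ * L ^ (b ^ 2) * H = c₀ * Q := by rw [hQ]; ring
        rw [e]
        linarith
      exact (ENNReal.add_le_add_iff_right ENNReal.ofReal_ne_top).mp k7
    set m : ℝ := c₀ / 2 * Real.exp (-(3 * A ^ 2)) * L ^ (-(V ^ 2)) * Real.exp (-(4 * A * V * s)) with hm
    have hm0 : 0 < m := by positivity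
    have hmR : R ^ (2 * b) * (m * H) = c₀ / 2 * Q := by
      have : R ^ (2 * b) * (Real.exp (-(3 * A ^ 2)) * L ^ (-(V ^ 2)) * Real.exp (-(4 * A * V * s))) = L ^ (b ^ 2) := by
        rw [hR, Real.mul_rpow (by positivity) (by positivity), ← Real.rpow_mul hL.le, ← Real.exp_mul, hLe, hLe, hLe,
          ← Real.exp_add, ← Real.exp_add, ← Real.exp_add, ← Real.exp_add]
        congr 1
        rw [hb]
        field_simp
        ring
      rw [hm, hQ, ← this]
      ring
    have d1 : ENNReal.ofReal (m * H) ≤ ∫⁻ t in Set.Icc T (T + H), G t := by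
      rw [← hmR, ENNReal.ofReal_mul (by positivity)] at k6
      exact (ENNReal.mul_le_mul_iff_right (by positivity) ENNReal.ofReal_ne_top).mp k6
    set ρ : ℝ := V ^ 2 / 2 with hρ
    have hρ1 : 1 < ρ := by rw [hρ]; linarith
    have hρ0 : 0 < ρ - 1 := by linarith
    set X : ℝ := C₀ * (2 / (ρ - 1)) * L ^ (-(V ^ 2) - 1) with hX
    have hX0 : 0 < X := by positivity
    have d2 : ∫⁻ t in Set.Icc T (T + H), G t ^ 2 ≤ ENNReal.ofReal (X * H) := by
      have e1 := a2 H hTθ hH2 1 (by norm_num) (V / 2) (by rw [abs_of_nonneg (by positivity)]; linarith)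
      have e2 : (((1 + 1 : ℕ) : ℝ)) * (V / 2) ^ 2 = ρ := by rw [hρ]; push_cast; ring
      rw [e2, pow_one] at e1
      have hIq := Iq_gt (δ := 1 / L) (ρ := ρ) (by positivity) hρ1
      rw [one_div_one_div] at hIq
      have e3 : ∀ x, g x ≤ ENNReal.ofReal (U ^ (-V)) * zk E (V / 2) x := by
        intro x
        by_cases hx : x ∈ W
        · rw [hg, Set.indicator_of_mem hx]
          unfold zk
          rw [Set.indicator_of_mem hx.1, ← ENNReal.ofReal_mul (by positivity), ← ENNReal.ofReal_one]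
          refine ENNReal.ofReal_le_ofReal ?_
          have e4 : 2 * (V / 2) = V := by ring
          rw [e4]
          calc (1:ℝ) = U ^ (-V) * U ^ V := by
                rw [← Real.rpow_add hU0, neg_add_cancel, Real.rpow_zero]
            _ ≤ _ := by
                gcongr
                exact hx.2
        · rw [hg, Set.indicator_of_notMem hx]
          exact zero_le
      have e5 : ∀ t, G t ^ 2 ≤ ENNReal.ofReal ((U ^ (-V)) ^ 2) * (∫⁻ u in Set.Icc (0:ℝ) 1, zk E (V / 2) (t + u)) ^ (1 + 1) := by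
        intro t
        rw [ENNReal.ofReal_pow (by positivity), ← mul_pow]
        refine pow_le_pow_left' ?_ 2
        have hcm := lintegral_const_mul' (μ := volume.restrict (Set.Icc (0:ℝ) 1)) (ENNReal.ofReal (U ^ (-V)))
          (fun u => zk E (V / 2) (t + u)) ENNReal.ofReal_ne_top
        rw [← hcm]
        exact lintegral_mono fun u => e3 (t + u)
      calc ∫⁻ t in Set.Icc T (T + H), G t ^ 2 ≤ ∫⁻ t in Set.Icc T (T + H),
            ENNReal.ofReal ((U ^ (-V)) ^ 2) * (∫⁻ u in Set.Icc (0:ℝ) 1, zk E (V / 2) (t + u)) ^ (1 + 1) :=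
            lintegral_mono e5
        _ = ENNReal.ofReal ((U ^ (-V)) ^ 2) * ∫⁻ t in Set.Icc T (T + H),
            (∫⁻ u in Set.Icc (0:ℝ) 1, zk E (V / 2) (t + u)) ^ (1 + 1) :=
            lintegral_const_mul' _ _ ENNReal.ofReal_ne_top
        _ ≤ ENNReal.ofReal ((U ^ (-V)) ^ 2) * ENNReal.ofReal (C₀ * H * L ^ ρ * (2 / (ρ - 1) * L ^ (ρ - 1))) := by
            gcongr
            refine e1.trans (ENNReal.ofReal_le_ofReal ?_)
            gcongr
        _ = ENNReal.ofReal (X * H) := by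
            rw [← ENNReal.ofReal_mul (by positivity)]
            congr 1
            have e6 : (U ^ (-V)) ^ 2 * (L ^ ρ * L ^ (ρ - 1)) = L ^ (-(V ^ 2) - 1) := by
              rw [hU, ← Real.rpow_mul hL.le, ← Real.rpow_natCast, ← Real.rpow_mul hL.le, ← Real.rpow_add hL,
                ← Real.rpow_add hL]
              congr 1
              rw [hρ]
              push_cast
              ring
            rw [hX, ← e6]
            ring
    have hvol : volume (Set.Icc T (T + H)) = ENNReal.ofReal H := by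
      rw [Real.volume_Icc]; congr 1; ring
    have hpz := pz mG hm0 hH0 hX0 hvol d1 d2
    have hsub : {t | ENNReal.ofReal (m / 2) ≤ G t} ∩ Set.Icc T (T + H) ⊆ LV E T H U := by
      rintro t ⟨ht1, ht2⟩
      refine ⟨ht2, ?_⟩
      by_contra hcon
      push Not at hcon
      have hz : G t = 0 := by
        rw [hG]
        refine (setLIntegral_congr_fun measurableSet_Icc (g := fun _ => 0) fun u hu => ?_).trans lintegral_zero
        show g (t + u) = 0
        rw [hg]
        refine Set.indicator_of_notMem ?_ _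
        rintro ⟨hx1, hx2⟩
        exact absurd hx2 (not_le.mpr (hcon u hu hx1))
      have : ENNReal.ofReal (m / 2) ≤ 0 := hz ▸ ht1
      have h9 : 0 < ENNReal.ofReal (m / 2) := ENNReal.ofReal_pos.mpr (by positivity)
      exact absurd this (not_le.mpr h9)
    have hfin : volume (LV E T H U) ≠ ⊤ := by
      refine ((measure_mono (show LV E T H U ⊆ Set.Icc T (T + H) from fun t ht => ht.1)).trans_lt ?_).ne
      rw [hvol]
      exact ENNReal.ofReal_lt_top
    refine le_trans ?_ (hpz.trans (measureReal_mono hsub hfin))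
    have hfr : m ^ 2 / (4 * X) * H = c₀ ^ 2 * Real.exp (-(6 * A ^ 2)) / (64 * C₀) * (V ^ 2 - 2) * H * L ^ (1 - V ^ 2) *
        Real.exp (-(8 * A * V * s)) := by
      have hL2 : L ^ (1 - V ^ 2) * L ^ (-(V ^ 2) - 1) = (L ^ (-(V ^ 2))) ^ 2 := by
        rw [← Real.rpow_add hL, ← Real.rpow_natCast (L ^ (-(V ^ 2))) 2, ← Real.rpow_mul hL.le]
        congr 1
        push_cast
        ring
      have hE1 : Real.exp (-(6 * A ^ 2)) = Real.exp (-(3 * A ^ 2)) ^ 2 := by
        rw [← Real.exp_nat_mul]; congr 1; push_cast; ring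
      have hE2 : Real.exp (-(8 * A * V * s)) = Real.exp (-(4 * A * V * s)) ^ 2 := by
        rw [← Real.exp_nat_mul]; congr 1; push_cast; ring
      have hp : 0 < L ^ (-(V ^ 2) - 1) := Real.rpow_pos_of_pos hL _
      have hρ2 : ρ - 1 = (V ^ 2 - 2) / 2 := by rw [hρ]; ring
      have hv : V ^ 2 - 2 ≠ 0 := by linarith
      rw [hE1, hE2, hm, hX, hρ2, div_mul_eq_mul_div, div_eq_iff (by positivity)]
      field_simp
      rw [← hL2]
      ring
    rw [hfr]
    have hexp : Real.exp (-(C * s)) ≤ Real.exp (-(8 * A * V * s)) := by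
      refine Real.exp_le_exp.mpr ?_
      have : 8 * A * V ≤ C := by
        rw [hC]
        have : 8 * A * V ≤ 8 * A * K := by gcongr
        linarith
      nlinarith
    have hv0 : 0 ≤ V ^ 2 - 2 := by linarith
    gcongr

end Pool.Agent.V11104.MM
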