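import Mathlib
import Pool.Agent.V11104.MM.LD

set_option autoImplicit false

/-!
The unit intervals that carry the moments.
-/

namespace Pool.Agent.V11104.MM

open Finset Filter Topology MeasureTheory
open scoped ENNReal
open Pool.Agent.V11104.SM

lemma lv_le {E : Set ℝ} {T H L k U X : ℝ} (hL1 : 1 ≤ L) (hLT : 0 ≤ T) (hH0 : 0 ≤ H) (hH2 : H ≤ T) (hk : 0 ≤ k) (hU : 0 < U)
    (hX : 0 ≤ X) {F : ℝ → ℝ≥0∞} (hF : Measurable F)
    (f1 : ∀ s ∈ E, T ≤ s → s ≤ 2 * T + 1 → zk E k s ≤ ∫⁻ v in Set.Icc 0 (1 / L), F (s + v))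
    (f2 : ∫⁻ s in Set.Icc T (T + H + 2), F s ≤ ENNReal.ofReal X) :
    U ^ (2 * k) * volume.real (LV E T H U) ≤ 2 * X := by
  have hL : 0 < L := by linarith
  have hη1 : 1 / L ≤ 1 := by rw [div_le_one hL]; exact hL1
  set R : ℝ → ℝ≥0∞ := fun t => ∫⁻ v in Set.Icc (0:ℝ) 2, F (t + v) with hR
  have hRm : Measurable R := (meas2 hF).lintegral_prod_right'
  have hRint : ∫⁻ t in Set.Icc T (T + H), R t ≤ ENNReal.ofReal (2 * X) := by
    refine (dbl hF (by norm_num) le_rfl le_rfl).trans ?_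
    rw [ENNReal.ofReal_mul (by norm_num)]
    gcongr
  set P : Set ℝ := {t | ENNReal.ofReal (U ^ (2 * k)) ≤ R t} with hP
  have hsub : LV E T H U ⊆ P ∩ Set.Icc T (T + H) := by
    rintro t ⟨ht, u, hu, hs, hl⟩
    refine ⟨?_, ht⟩
    have h1 := f1 (t + u) hs (by linarith [ht.1, hu.1]) (by linarith [ht.2, hu.2])
    have h2 : ∫⁻ v in Set.Icc 0 (1 / L), F (t + u + v) ≤ R t := by
      have h3 : ∫⁻ v in Set.Icc 0 (1 / L), F (t + u + v) =
          ∫⁻ v in Set.Icc 0 (1 / L), (fun w => F (t + w)) (v + u) := by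
        refine lintegral_congr fun v => ?_
        congr 1
        ring
      rw [h3]
      exact tr (fun w => F (t + w)) (by linarith [hu.1]) (by linarith [hu.2])
    refine le_trans ?_ (h1.trans h2)
    unfold zk
    rw [Set.indicator_of_mem hs]
    exact ENNReal.ofReal_le_ofReal (Real.rpow_le_rpow hU.le hl (by linarith))
  have hmk : ENNReal.ofReal (U ^ (2 * k)) * volume (P ∩ Set.Icc T (T + H)) ≤ ENNReal.ofReal (2 * X) := by
    refine le_trans ?_ hRint
    have := mul_meas_ge_le_lintegral (μ := volume.restrict (Set.Icc T (T + H))) hRm (ENNReal.ofReal (U ^ (2 * k)))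
    rwa [Measure.restrict_apply (measurableSet_le measurable_const hRm)] at this
  have hfin : volume (P ∩ Set.Icc T (T + H)) ≠ ⊤ := by
    refine ((measure_mono Set.inter_subset_right).trans_lt ?_).ne
    rw [Real.volume_Icc]
    exact ENNReal.ofReal_lt_top
  have h5 : volume.real (LV E T H U) ≤ volume.real (P ∩ Set.Icc T (T + H)) := measureReal_mono hsub hfin
  have h7 := ENNReal.toReal_mono ENNReal.ofReal_ne_top hmk
  rw [ENNReal.toReal_mul, ENNReal.toReal_ofReal (by positivity), ENNReal.toReal_ofReal (by positivity)] at h7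
  have h8 : U ^ (2 * k) * volume.real (LV E T H U) ≤ U ^ (2 * k) * volume.real (P ∩ Set.Icc T (T + H)) := by gcongr
  exact h8.trans h7

lemma low_split {E : Set ℝ} (hne : ∀ s ∈ E, riemannZeta (1 / 2 + s * Complex.I) ≠ 0) {U b δ : ℝ}
    (hU : 0 < U) (hδ : 0 ≤ δ) (s : ℝ) :
    zk E b s ≤ ⊤ * (E ∩ {x : ℝ | U ≤ ‖riemannZeta (1 / 2 + x * Complex.I)‖}).indicator (fun _ => (1:ℝ≥0∞)) s +
      ENNReal.ofReal (U ^ (2 * δ)) * zk E (b - δ) s := by
  by_cases hs : s ∈ E
  · have hy : 0 < ‖riemannZeta (1 / 2 + s * Complex.I)‖ := norm_pos_iff.mpr (hne s hs)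
    unfold zk
    rw [Set.indicator_of_mem hs, Set.indicator_of_mem hs]
    set y := ‖riemannZeta (1 / 2 + s * Complex.I)‖ with hyd
    rcases lt_or_ge y U with h1 | h1
    · refine le_trans ?_ le_add_self
      rw [← ENNReal.ofReal_mul (by positivity)]
      refine ENNReal.ofReal_le_ofReal ?_
      calc y ^ (2 * b) = y ^ (2 * δ) * y ^ (2 * (b - δ)) := by
            rw [← Real.rpow_add hy]; congr 1; ring
        _ ≤ U ^ (2 * δ) * y ^ (2 * (b - δ)) := by
            gcongr
    · rw [Set.indicator_of_mem (show s ∈ E ∩ {x : ℝ | U ≤ ‖riemannZeta (1 / 2 + x * Complex.I)‖} from ⟨hs, h1⟩),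
        mul_one, top_add]
      exact le_top
  · unfold zk
    rw [Set.indicator_of_notMem hs]
    exact zero_le

lemma high_split {E : Set ℝ} (hne : ∀ s ∈ E, riemannZeta (1 / 2 + s * Complex.I) ≠ 0) {R b δ : ℝ}
    (hR : 0 < R) (hb : 0 ≤ b) (hδ : 0 ≤ δ) (s : ℝ) :
    zk E b s ≤ ENNReal.ofReal (R ^ b) * zk E (b / 2) s + ENNReal.ofReal (R ^ (-(2 * δ))) * zk E (b + δ) s := by
  by_cases hs : s ∈ E
  · have hy : 0 < ‖riemannZeta (1 / 2 + s * Complex.I)‖ := norm_pos_iff.mpr (hne s hs)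
    unfold zk
    rw [Set.indicator_of_mem hs, Set.indicator_of_mem hs, Set.indicator_of_mem hs]
    set y := ‖riemannZeta (1 / 2 + s * Complex.I)‖ with hyd
    rcases lt_or_ge R y with h2 | h2
    · refine le_trans ?_ le_add_self
      rw [← ENNReal.ofReal_mul (by positivity)]
      refine ENNReal.ofReal_le_ofReal ?_
      calc y ^ (2 * b) = y ^ (-(2 * δ)) * y ^ (2 * (b + δ)) := by
            rw [← Real.rpow_add hy]; congr 1; ring
        _ ≤ R ^ (-(2 * δ)) * y ^ (2 * (b + δ)) := by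
            gcongr ?_ * _
            exact Real.rpow_le_rpow_of_nonpos hR h2.le (by linarith)
    · refine le_trans ?_ (le_add_right le_rfl)
      rw [← ENNReal.ofReal_mul (by positivity)]
      refine ENNReal.ofReal_le_ofReal ?_
      calc y ^ (2 * b) = y ^ b * y ^ (2 * (b / 2)) := by
            rw [← Real.rpow_add hy]; congr 1; ring
        _ ≤ R ^ b * y ^ (2 * (b / 2)) := by
            gcongr
  · unfold zk
    rw [Set.indicator_of_notMem hs]
    exact zero_le

/-- the integral of a sum of two multiples -/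
lemma lin2 {f g : ℝ → ℝ≥0∞} (hg : Measurable g) (hf : Measurable f) (a b : ℝ≥0∞) (t : ℝ) :
    ∫⁻ u in Set.Icc (0:ℝ) 1, (a * f (t + u) + b * g (t + u)) =
      a * (∫⁻ u in Set.Icc (0:ℝ) 1, f (t + u)) + b * ∫⁻ u in Set.Icc (0:ℝ) 1, g (t + u) := by
  have hf' : Measurable fun u => f (t + u) := hf.comp (measurable_const_add t)
  have hg' : Measurable fun u => g (t + u) := hg.comp (measurable_const_add t)
  rw [lintegral_add_right _ (hg'.const_mul _), lintegral_const_mul _ hf', lintegral_const_mul _ hg']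

theorem clusters (K ε : ℝ) (hK : 0 ≤ K) (hε : 0 < ε) :
    ∃ E : Set ℝ, MeasurableSet E ∧
    (∀ α : ℝ, 0 ≤ α → α < 1 → ∀ᶠ T : ℝ in atTop, ∀ H : ℝ, T / Real.log T ^ α ≤ H → H ≤ T →
      (1 - ε) * H ≤ volume.real (Set.Icc T (T + H) ∩ E)) ∧
    ∀ η : ℝ, 0 < η → ∃ c C : ℝ, 0 < c ∧ 0 < C ∧
    ∀ α : ℝ, 0 ≤ α → α < 1 → ∀ᶠ T : ℝ in atTop, ∀ H : ℝ, T / Real.log T ^ α ≤ H → H ≤ T →
      ∀ k : ℝ, 0 ≤ k → k ≤ K → 2 < k ^ 2 → ∀ F : ℝ → ℝ≥0∞,
        (F = fun t => ∫⁻ u in Set.Icc (0:ℝ) 1, E.indicator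
          (fun s : ℝ => ENNReal.ofReal (‖riemannZeta (1 / 2 + s * Complex.I)‖ ^ (2 * k))) (t + u)) →
        ∫⁻ t in Set.Icc T (T + H), F t ≠ ⊤ ∧
        (∃ A : Set ℝ, A ⊆ Set.Icc T (T + H) ∧ MeasurableSet A ∧
          volume.real A ≤ C * H * Real.log T ^ (1 - k ^ 2) * Real.exp (C * Real.sqrt (Real.log (Real.log T))) ∧
          ∫⁻ t in Set.Icc T (T + H) \ A, F t ≤ ENNReal.ofReal η * ∫⁻ t in Set.Icc T (T + H), F t) ∧
        ∀ A : Set ℝ, A ⊆ Set.Icc T (T + H) → MeasurableSet A →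
          volume.real A ≤ c * (k ^ 2 - 2) * H * Real.log T ^ (1 - k ^ 2) *
            Real.exp (-(C * Real.sqrt (Real.log (Real.log T)))) →
          ∫⁻ t in A, F t ≤ ENNReal.ofReal η * ∫⁻ t in Set.Icc T (T + H), F t := by
  obtain ⟨E, c₀, C₀, mE, hc₀, hC₀, hne, hprop, -, hlow, hup, -, hmj⟩ := pkg (K + 2) (1 / 2) ε 2 (by linarith)
    (by norm_num) hε
  refine ⟨E, mE, hprop, ?_⟩
  intro η hη
  set B : ℝ := 1 / 2 + C₀ / (c₀ * η) with hB
  have hB0 : 0 < B := by positivity
  have hBe : C₀ * Real.exp (1 - 2 * B) ≤ η * c₀ / 2 := by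
    have h1 : 2 * C₀ / (c₀ * η) ≤ Real.exp (2 * C₀ / (c₀ * η)) := by
      have := Real.add_one_le_exp (2 * C₀ / (c₀ * η))
      linarith
    have h2 : 1 - 2 * B = -(2 * C₀ / (c₀ * η)) := by rw [hB]; ring
    rw [h2, Real.exp_neg]
    have h3 : 0 < 2 * C₀ / (c₀ * η) := by positivity
    calc C₀ * (Real.exp (2 * C₀ / (c₀ * η)))⁻¹ ≤ C₀ * (2 * C₀ / (c₀ * η))⁻¹ := by gcongr
      _ = η * c₀ / 2 := by field_simp
  set C : ℝ := 2 * C₀ + 2 * K * B with hC
  have hC0 : 0 < C := by positivity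
  set c : ℝ := (η * c₀) ^ 2 / (16 * C₀) with hc
  have hc0 : 0 < c := by positivity
  refine ⟨c, C, hc0, hC0, ?_⟩
  intro α h0 h1
  have hs1 : ∀ᶠ T : ℝ in atTop, 1 ≤ Real.sqrt (Real.log (Real.log T)) := by
    have : Tendsto (fun T : ℝ => Real.sqrt (Real.log (Real.log T))) atTop atTop :=
      Real.tendsto_sqrt_atTop.comp (Real.tendsto_log_atTop.comp Real.tendsto_log_atTop)
    exact this.eventually_ge_atTop _
  filter_upwards [hlow α h0 h1, hup, hmj, Real.tendsto_log_atTop.eventually_gt_atTop 1, eventually_gt_atTop (1:ℝ), hs1]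
    with T a1 a2 a3 hL1 hT1 hsT H hH1 hH2 k hk0 hkK hk2 F hFdef
  have hT0 : 0 < T := by linarith
  set L := Real.log T with hLd
  have hL : 0 < L := by linarith
  set s := Real.sqrt (Real.log L) with hsd
  have hs0 : 0 < s := by linarith
  have hss : s ^ 2 = Real.log L := Real.sq_sqrt (Real.log_nonneg hL1.le)
  have hLe : ∀ x : ℝ, L ^ x = Real.exp (s ^ 2 * x) := by
    intro x
    rw [hss, Real.rpow_def_of_pos hL]
  obtain ⟨hTθ, b1⟩ := a1 H hH1 hH2
  have hH0 : 0 < H := lt_of_lt_of_le (Real.rpow_pos_of_pos hT0 _) hTθ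
  set δ : ℝ := 1 / s with hδ
  have hδ0 : 0 < δ := by positivity
  have hδ1 : δ ≤ 1 := by rw [hδ, div_le_one hs0]; linarith
  set I : Set ℝ := Set.Icc T (T + H) with hI
  set Q : ℝ := L ^ (k ^ 2) * H with hQ
  have hQ0 : 0 < Q := by positivity
  have up1 : ∀ κ : ℝ, |κ| ≤ K + 2 → ∫⁻ t in I, ∫⁻ u in Set.Icc (0:ℝ) 1, zk E κ (t + u) ≤
      ENNReal.ofReal (C₀ * H * L ^ (κ ^ 2)) := by
    intro κ hκ
    have := a2 H hTθ hH2 0 (by norm_num) κ hκ
    simpa using this
  have hFz : F = fun t => ∫⁻ u in Set.Icc (0:ℝ) 1, zk E k (t + u) := hFdef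
  have low1 : ENNReal.ofReal (c₀ * Q) ≤ ∫⁻ t in I, F t := by
    have h2 := (b1 k (by rw [abs_of_nonneg hk0]; push_cast; linarith)).trans (avg (zk_meas mE k) T H)
    rw [hFz]
    refine le_trans (le_of_eq ?_) h2
    rw [hQ]
    congr 1
    ring
  have goalη : ∀ x : ℝ, x ≤ η * c₀ * Q → ENNReal.ofReal x ≤ ENNReal.ofReal η * ∫⁻ t in I, F t := by
    intro x hx
    calc ENNReal.ofReal x ≤ ENNReal.ofReal (η * (c₀ * Q)) := ENNReal.ofReal_le_ofReal (by linarith)
      _ = ENNReal.ofReal η * ENNReal.ofReal (c₀ * Q) := ENNReal.ofReal_mul hη.le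
      _ ≤ _ := by gcongr
  have hX0 : C₀ * Real.exp (1 - 2 * B) * Q ≤ η * c₀ / 2 * Q := by gcongr
  refine ⟨?_, ?_, ?_⟩
  · rw [hFz]
    exact ((up1 k (by rw [abs_of_nonneg hk0]; linarith)).trans_lt ENNReal.ofReal_lt_top).ne
  · set U : ℝ := L ^ k * Real.exp (-(B * s)) with hU
    have hU0 : 0 < U := by positivity
    set W : Set ℝ := E ∩ {x : ℝ | U ≤ ‖riemannZeta (1 / 2 + x * Complex.I)‖} with hW
    have mW : MeasurableSet W := mE.inter (measurableSet_le measurable_const zeta_cont.norm.measurable)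
    set g : ℝ → ℝ≥0∞ := W.indicator (fun _ => (1:ℝ≥0∞)) with hg
    have mg : Measurable g := measurable_const.indicator mW
    set G : ℝ → ℝ≥0∞ := fun t => ∫⁻ u in Set.Icc (0:ℝ) 1, g (t + u) with hG
    have mG : Measurable G := (meas2 mg).lintegral_prod_right'
    have mA : MeasurableSet ({t : ℝ | G t ≠ 0} ∩ I) := (mG (measurableSet_singleton 0).compl).inter measurableSet_Icc
    refine ⟨{t : ℝ | G t ≠ 0} ∩ I, Set.inter_subset_right, mA, ?_, ?_⟩
    · have hsub : {t : ℝ | G t ≠ 0} ∩ I ⊆ LV E T H U := by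
        rintro t ⟨ht1, ht2⟩
        refine ⟨ht2, ?_⟩
        by_contra hcon
        push Not at hcon
        refine ht1 ?_
        rw [hG]
        refine (setLIntegral_congr_fun measurableSet_Icc (g := fun _ => 0) fun u hu => ?_).trans lintegral_zero
        show g (t + u) = 0
        rw [hg]
        refine Set.indicator_of_notMem ?_ _
        rintro ⟨hx1, hx2⟩
        exact absurd hx2 (not_le.mpr (hcon u hu hx1))
      have hfin : volume (LV E T H U) ≠ ⊤ := by
        refine ((measure_mono (show LV E T H U ⊆ I from fun t ht => ht.1)).trans_lt ?_).ne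
        rw [hI, Real.volume_Icc]
        exact ENNReal.ofReal_lt_top
      obtain ⟨F', hF', f1, f2⟩ := a3 H hTθ hH2 k (by rw [abs_of_nonneg hk0]; push_cast; linarith)
      have h3 := lv_le (U := U) hL1.le hT0.le hH0.le hH2 hk0 hU0 (by positivity) hF' f1 f2
      have h4 : volume.real ({t : ℝ | G t ≠ 0} ∩ I) ≤ volume.real (LV E T H U) := measureReal_mono hsub hfin
      refine h4.trans ?_
      have h5 : U ^ (2 * k) * (L ^ (1 - k ^ 2) * Real.exp (2 * k * B * s)) = L ^ (1 + k ^ 2) := by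
        rw [hU, Real.mul_rpow (by positivity) (by positivity), ← Real.rpow_mul hL.le, ← Real.exp_mul, hLe, hLe, hLe,
          ← Real.exp_add, ← Real.exp_add, ← Real.exp_add]
        congr 1
        ring
      have h6 : volume.real (LV E T H U) ≤ 2 * C₀ * H * (L ^ (1 - k ^ 2) * Real.exp (2 * k * B * s)) := by
        have hp : 0 < U ^ (2 * k) := Real.rpow_pos_of_pos hU0 _
        refine le_of_mul_le_mul_left (h3.trans (le_of_eq ?_)) hp
        rw [← h5]
        ring
      refine h6.trans ?_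
      have h7 : Real.exp (2 * k * B * s) ≤ Real.exp (C * s) := by
        refine Real.exp_le_exp.mpr ?_
        have h8 : 2 * k * B ≤ C := by
          rw [hC]
          have : 2 * k * B ≤ 2 * K * B := by gcongr
          linarith
        gcongr
      have h9 : 2 * C₀ ≤ C := by
        rw [hC]
        have : 0 ≤ 2 * K * B := by positivity
        linarith
      calc 2 * C₀ * H * (L ^ (1 - k ^ 2) * Real.exp (2 * k * B * s)) ≤
          C * H * (L ^ (1 - k ^ 2) * Real.exp (C * s)) := by gcongr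
        _ = _ := by ring
    · have r1 : U ^ (2 * δ) * (C₀ * H * L ^ ((k - δ) ^ 2)) = C₀ * Real.exp (1 - 2 * B) * Q := by
        have : U ^ (2 * δ) * L ^ ((k - δ) ^ 2) = L ^ (k ^ 2) * Real.exp (1 - 2 * B) := by
          rw [hU, Real.mul_rpow (by positivity) (by positivity), ← Real.rpow_mul hL.le, ← Real.exp_mul, hLe, hLe, hLe,
            ← Real.exp_add, ← Real.exp_add, ← Real.exp_add]
          congr 1
          rw [hδ]
          field_simp
          ring
        rw [hQ]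
        linear_combination (C₀ * H) * this
      calc ∫⁻ t in I \ ({t : ℝ | G t ≠ 0} ∩ I), F t ≤ ∫⁻ t in I \ ({t : ℝ | G t ≠ 0} ∩ I),
            ENNReal.ofReal (U ^ (2 * δ)) * ∫⁻ u in Set.Icc (0:ℝ) 1, zk E (k - δ) (t + u) := by
            refine setLIntegral_mono' (measurableSet_Icc.diff mA) fun t ht => ?_
            have hGt : G t = 0 := by
              by_contra hcon
              exact ht.2 ⟨hcon, ht.1⟩
            rw [hFz]
            refine (lintegral_mono fun u => low_split hne hU0 hδ0.le (t + u)).trans ?_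
            rw [lin2 (zk_meas mE _) mg]
            have hGt' : ∫⁻ u in Set.Icc (0:ℝ) 1, g (t + u) = 0 := hGt
            rw [hGt', mul_zero, zero_add]
        _ ≤ ∫⁻ t in I, ENNReal.ofReal (U ^ (2 * δ)) * ∫⁻ u in Set.Icc (0:ℝ) 1, zk E (k - δ) (t + u) :=
            lintegral_mono_set Set.diff_subset
        _ = ENNReal.ofReal (U ^ (2 * δ)) * ∫⁻ t in I, ∫⁻ u in Set.Icc (0:ℝ) 1, zk E (k - δ) (t + u) :=
            lintegral_const_mul' _ _ ENNReal.ofReal_ne_top
        _ ≤ ENNReal.ofReal (U ^ (2 * δ)) * ENNReal.ofReal (C₀ * H * L ^ ((k - δ) ^ 2)) := by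
            gcongr
            refine up1 _ ?_
            rw [abs_le]; constructor <;> linarith
        _ = ENNReal.ofReal (C₀ * Real.exp (1 - 2 * B) * Q) := by
            rw [← ENNReal.ofReal_mul (by positivity), r1]
        _ ≤ _ := by
            refine goalη _ (hX0.trans ?_)
            have : 0 ≤ η * c₀ * Q := by positivity
            linarith
  · intro A hAI mA hA
    set R : ℝ := L ^ k * Real.exp (B * s) with hR
    have hR0 : 0 < R := by positivity
    have r2 : R ^ (-(2 * δ)) * (C₀ * H * L ^ ((k + δ) ^ 2)) = C₀ * Real.exp (1 - 2 * B) * Q := by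
      have : R ^ (-(2 * δ)) * L ^ ((k + δ) ^ 2) = L ^ (k ^ 2) * Real.exp (1 - 2 * B) := by
        rw [hR, Real.mul_rpow (by positivity) (by positivity), ← Real.rpow_mul hL.le, ← Real.exp_mul, hLe, hLe, hLe,
          ← Real.exp_add, ← Real.exp_add, ← Real.exp_add]
        congr 1
        rw [hδ]
        field_simp
        ring
      rw [hQ]
      linear_combination (C₀ * H) * this
    set Y : ℝ → ℝ≥0∞ := fun t => ∫⁻ u in Set.Icc (0:ℝ) 1, zk E (k / 2) (t + u) with hY
    have mY : Measurable Y := (meas2 (zk_meas mE _)).lintegral_prod_right'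
    set Z : ℝ → ℝ≥0∞ := fun t => ∫⁻ u in Set.Icc (0:ℝ) 1, zk E (k + δ) (t + u) with hZ
    have mZ : Measurable Z := (meas2 (zk_meas mE _)).lintegral_prod_right'
    set ρ : ℝ := k ^ 2 / 2 with hρ
    have hρ1 : 1 < ρ := by rw [hρ]; linarith
    have hρ0 : 0 < ρ - 1 := by linarith
    set X : ℝ := C₀ * H * L ^ ρ * (2 / (ρ - 1) * L ^ (ρ - 1)) with hX
    have hX0' : 0 < X := by positivity
    have d2 : ∫⁻ t in I, Y t ^ (2:ℝ) ≤ ENNReal.ofReal X := by
      have e1 := a2 H hTθ hH2 1 (by norm_num) (k / 2) (by rw [abs_of_nonneg (by positivity)]; linarith)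
      have e2 : (((1 + 1 : ℕ) : ℝ)) * (k / 2) ^ 2 = ρ := by rw [hρ]; push_cast; ring
      rw [e2, pow_one] at e1
      have hIq := Iq_gt (δ := 1 / L) (ρ := ρ) (by positivity) hρ1
      rw [one_div_one_div] at hIq
      have e3 : ∫⁻ t in I, Y t ^ (2:ℝ) = ∫⁻ t in I, (∫⁻ u in Set.Icc (0:ℝ) 1, zk E (k / 2) (t + u)) ^ (1 + 1) := by
        refine lintegral_congr fun t => ?_
        rw [← ENNReal.rpow_natCast]
        norm_num
        rfl
      rw [e3]
      refine e1.trans (ENNReal.ofReal_le_ofReal ?_)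
      rw [hX]
      gcongr
    set a : ℝ := c * (k ^ 2 - 2) * H * L ^ (1 - k ^ 2) * Real.exp (-(C * s)) with ha
    have hk2' : 0 < k ^ 2 - 2 := by linarith
    have ha0 : 0 < a := by positivity
    have hAfin : volume A ≠ ⊤ := by
      refine ((measure_mono hAI).trans_lt ?_).ne
      rw [hI, Real.volume_Icc]
      exact ENNReal.ofReal_lt_top
    have hvA : volume A ≤ ENNReal.ofReal a := by
      rw [← ENNReal.ofReal_toReal hAfin]
      exact ENNReal.ofReal_le_ofReal hA
    have d3 : ∫⁻ t in A, Y t ≤ ENNReal.ofReal (Real.sqrt a * Real.sqrt X) := by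
      have h3 := ENNReal.lintegral_mul_le_Lp_mul_Lq (volume.restrict A) Real.HolderConjugate.two_two
        (measurable_const (a := (1:ℝ≥0∞))).aemeasurable mY.aemeasurable
      simp only [Pi.mul_apply, one_mul, ENNReal.one_rpow, lintegral_const, Measure.restrict_apply_univ] at h3
      refine h3.trans ?_
      rw [ENNReal.ofReal_mul (Real.sqrt_nonneg _), Real.sqrt_eq_rpow, Real.sqrt_eq_rpow,
        ← ENNReal.ofReal_rpow_of_nonneg ha0.le (by norm_num), ← ENNReal.ofReal_rpow_of_nonneg hX0'.le (by norm_num)]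
      have h4 := (lintegral_mono_set (f := fun t => Y t ^ (2:ℝ)) (μ := volume) hAI).trans d2
      gcongr
    have d4 : R ^ k * (Real.sqrt a * Real.sqrt X) ≤ η * c₀ / 2 * Q := by
      refine (pow_le_pow_iff_left₀ (by positivity) (by positivity) two_ne_zero).mp ?_
      rw [mul_pow, mul_pow, Real.sq_sqrt ha0.le, Real.sq_sqrt hX0'.le]
      have e5 : (R ^ k) ^ 2 * (L ^ (1 - k ^ 2) * (L ^ ρ * L ^ (ρ - 1))) = (L ^ (k ^ 2)) ^ 2 * Real.exp (2 * k * B * s) := by
        rw [hR, Real.mul_rpow (by positivity) (by positivity), mul_pow, ← Real.rpow_mul hL.le, ← Real.exp_mul,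
          ← Real.rpow_natCast (L ^ (k * k)) 2, ← Real.rpow_mul hL.le, ← Real.rpow_natCast (L ^ (k ^ 2)) 2,
          ← Real.rpow_mul hL.le, ← Real.exp_nat_mul, hLe, hLe, hLe, hLe, hLe, ← Real.exp_add, ← Real.exp_add,
          ← Real.exp_add, ← Real.exp_add, ← Real.exp_add]
        congr 1
        rw [hρ]
        push_cast
        ring
      have e6 : Real.exp (2 * k * B * s) * Real.exp (-(C * s)) ≤ 1 := by
        rw [← Real.exp_add, Real.exp_le_one_iff]
        have h8 : 2 * k * B ≤ C := by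
          rw [hC]
          have : 2 * k * B ≤ 2 * K * B := by gcongr
          linarith
        nlinarith
      have e7 : 2 / (ρ - 1) * (k ^ 2 - 2) = 4 := by
        rw [hρ]
        field_simp
        ring
      calc (R ^ k) ^ 2 * (a * X) = (R ^ k) ^ 2 * (L ^ (1 - k ^ 2) * (L ^ ρ * L ^ (ρ - 1))) *
            (c * C₀ * H ^ 2 * (2 / (ρ - 1) * (k ^ 2 - 2))) * Real.exp (-(C * s)) := by
            rw [ha, hX]; ring
        _ = (L ^ (k ^ 2)) ^ 2 * (c * C₀ * H ^ 2 * 4) * (Real.exp (2 * k * B * s) * Real.exp (-(C * s))) := by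
            rw [e5, e7]; ring
        _ ≤ (L ^ (k ^ 2)) ^ 2 * (c * C₀ * H ^ 2 * 4) * 1 := by gcongr
        _ = (η * c₀ / 2 * Q) ^ 2 := by
            rw [hc, hQ]
            field_simp
            ring
    calc ∫⁻ t in A, F t ≤ ∫⁻ t in A, (ENNReal.ofReal (R ^ k) * Y t + ENNReal.ofReal (R ^ (-(2 * δ))) * Z t) := by
          refine lintegral_mono fun t => ?_
          rw [hFz]
          refine (lintegral_mono fun u => high_split hne hR0 hk0 hδ0.le (t + u)).trans ?_
          rw [lin2 (zk_meas mE _) (zk_meas mE _)]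
      _ = ENNReal.ofReal (R ^ k) * (∫⁻ t in A, Y t) + ENNReal.ofReal (R ^ (-(2 * δ))) * ∫⁻ t in A, Z t := by
          rw [lintegral_add_right _ (mZ.const_mul _), lintegral_const_mul _ mY, lintegral_const_mul _ mZ]
      _ ≤ ENNReal.ofReal (R ^ k) * ENNReal.ofReal (Real.sqrt a * Real.sqrt X) +
          ENNReal.ofReal (R ^ (-(2 * δ))) * ENNReal.ofReal (C₀ * H * L ^ ((k + δ) ^ 2)) := by
          gcongr
          refine (lintegral_mono_set hAI).trans (up1 _ ?_)
          rw [abs_le]; constructor <;> linarith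
      _ = ENNReal.ofReal (R ^ k * (Real.sqrt a * Real.sqrt X) + C₀ * Real.exp (1 - 2 * B) * Q) := by
          rw [← ENNReal.ofReal_mul (by positivity), ← ENNReal.ofReal_mul (by positivity), r2,
            ENNReal.ofReal_add (by positivity) (by positivity)]
      _ ≤ _ := goalη _ (by linarith)

end Pool.Agent.V11104.MM
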